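import Pool.Agent.H226.SW.Uniq

/-!
Uniqueness, for every dissipation `D ≥ 0`: the energy of the difference.
-/

open MeasureTheory Set Filter Topology
open scoped ENNReal InnerProductSpace NNReal ContDiff
open H459R3.NS Pool.Agent.X96.HT Pool.Agent.X96.DM

namespace Pool.Agent.H226.SW

variable {η : Md → Md → Md → ℝ} {D : K3 → ℝ} {Cd : ℝ} {r : ℕ} {Λ : Set K3} {T : ℝ}
  {u v : ℝ → V → V}

lemma norm_sq_le_sum (x : C3) : ‖x‖ ^ 2 ≤ ∑ i, ‖x i‖ ^ 2 := by
  have h : ‖x‖ ≤ Real.sqrt (∑ i, ‖x i‖ ^ 2) := by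
    rw [pi_norm_le_iff_of_nonneg (Real.sqrt_nonneg _)]
    intro i
    exact Real.le_sqrt_of_sq_le
      (Finset.single_le_sum (f := fun i => ‖x i‖ ^ 2) (fun _ _ => by positivity)
        (Finset.mem_univ i))
  calc ‖x‖ ^ 2 ≤ Real.sqrt (∑ i, ‖x i‖ ^ 2) ^ 2 := by gcongr
    _ = _ := Real.sq_sqrt (by positivity)

lemma sum_le_norm_sq (x : C3) : ∑ i, ‖x i‖ ^ 2 ≤ 3 * ‖x‖ ^ 2 := by
  have h : ∀ i ∈ (Finset.univ : Finset (Fin 3)), ‖x i‖ ^ 2 ≤ ‖x‖ ^ 2 := by
    intro i _
    have := norm_le_pi_norm x i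
    gcongr
  refine (Finset.sum_le_sum h).trans (le_of_eq ?_)
  simp

/-- the difference of two solutions at one frequency -/
lemma diff_deriv (hu : IsSolD η D Λ (Ico 0 T) u) (hv : IsSolD η D Λ (Ico 0 T) v) {t : ℝ}
    (ht : t ∈ Ioo 0 T) (k : K3) :
    HasDerivAt (fun s => ∑ i, ‖co (u s) k i - co (v s) k i‖ ^ 2)
      (-(2 * D k * ∑ i, ‖co (u t) k i - co (v t) k i‖ ^ 2)
        - 2 * (cd (co (u t) k - co (v t) k) (nonl η (co (u t)) k - nonl η (co (v t)) k)).re) t := by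
  have htI : t ∈ Ico 0 T := ⟨ht.1.le, ht.2⟩
  by_cases hk : k ∈ Λ
  · have h1 : ∀ i, HasDerivAt (fun s => co (u s) k i - co (v s) k i)
        (-((D k : ℝ) : ℂ) * (co (u t) k i - co (v t) k i)
          - (nonl η (co (u t)) k - nonl η (co (v t)) k) i) t := by
      intro i
      refine ((hu.eqn t htI ht.1 k hk i).sub (hv.eqn t htI ht.1 k hk i)).congr_deriv ?_
      simp only [Pi.sub_apply]
      ring
    have h2 := HasDerivAt.fun_sum (u := (Finset.univ : Finset (Fin 3)))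
      fun i _ => (h1 i).norm_sq
    refine h2.congr_deriv ?_
    simp only [cd, Fin.sum_univ_three, Complex.inner, ← Complex.normSq_eq_norm_sq,
      Complex.normSq_apply, Complex.add_re, Complex.sub_re, Complex.mul_re, Complex.neg_re,
      Complex.neg_im, Complex.mul_im, Complex.sub_im,
      Complex.ofReal_re, Complex.ofReal_im, Complex.conj_re, Complex.conj_im, Pi.sub_apply]
    ring
  · have hz : ∀ s ∈ Ico 0 T, ∀ i, co (u s) k i - co (v s) k i = 0 := by
      intro s hs i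
      rw [hu.supp s hs k hk, hv.supp s hs k hk]; simp
    have h1 : (fun s => ∑ i, ‖co (u s) k i - co (v s) k i‖ ^ 2) =ᶠ[𝓝 t] fun _ => 0 := by
      filter_upwards [Ioo_mem_nhds ht.1 ht.2] with s hs
      simp [hz s ⟨hs.1.le, hs.2⟩]
    have h2 : (-(2 * D k * ∑ i, ‖co (u t) k i - co (v t) k i‖ ^ 2)
        - 2 * (cd (co (u t) k - co (v t) k)
          (nonl η (co (u t)) k - nonl η (co (v t)) k)).re) = 0 := by
      have e : co (u t) k - co (v t) k = 0 := by funext i; exact hz t htI i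
      rw [e]
      simp [cd, hz t htI]
    rw [h2]
    exact (hasDerivAt_const t (0 : ℝ)).congr_of_eventuallyEq h1

/-- The solution is unique. -/
theorem uniq (hη : IsWeight η) (hD0 : ∀ k, 0 ≤ D k) (hD : Pol Cd r D) (hΛ0 : (0 : K3) ∉ Λ)
    (hu : IsSolD η D Λ (Ico 0 T) u) (hv : IsSolD η D Λ (Ico 0 T) v) (h0 : u 0 = v 0) :
    ∀ t ∈ Ico 0 T, u t = v t := by
  obtain ⟨H, hH⟩ := hη.bdd
  have hH0 : 0 ≤ H := (abs_nonneg _).trans (hH (0, true) (0, true) (0, true))
  have hcB := cB_nonneg hH0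
  intro b hb
  obtain ⟨C₁, hC₁, hb1⟩ := hu.bound hΛ0 hb.2 r
  obtain ⟨C₂, hC₂, hb2⟩ := hv.bound hΛ0 hb.2 r
  set C := C₁ + C₂ with hC
  have hC0 : 0 ≤ C := by positivity
  have hadd : ∀ k, bw r C k = bw r C₁ k + bw r C₂ k := by
    intro k; unfold bw; rw [hC]; ring
  have hU : ∀ t ∈ Icc 0 b, ∀ k, ‖co (u t) k‖ ≤ bw r C k := fun t ht k => by
    rw [hadd]; exact (hb1 t ht k).trans (le_add_of_nonneg_right (bw_nonneg hC₂ k))
  have hV : ∀ t ∈ Icc 0 b, ∀ k, ‖co (v t) k‖ ≤ bw r C k := fun t ht k => by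
    rw [hadd]; exact (hb2 t ht k).trans (le_add_of_nonneg_left (bw_nonneg hC₁ k))
  have hW : ∀ t ∈ Icc 0 b, ∀ k, ‖co (u t) k - co (v t) k‖ ≤ bw r C k := fun t ht k => by
    rw [hadd]; exact (norm_sub_le _ _).trans (add_le_add (hb1 t ht k) (hb2 t ht k))
  have hsub : Icc 0 b ⊆ Ico 0 T := fun s hs => ⟨hs.1, hs.2.trans_lt hb.2⟩
  set M1 := ∑' k, kn k * be6 C k with hM1
  have hM10 : 0 ≤ M1 := tsum_nonneg fun k => mul_nonneg (kn_nonneg k) (be6_nonneg hC0 k)
  set LN := cB H * (2 * ((∑' p, kn p * be6 C p) * ∑' p, be6 C p)) with hLN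
  have hN1 : ∀ t ∈ Icc 0 b, ∀ k, ‖nonl η (co (u t)) k‖ ≤ LN := fun t ht k =>
    norm_nonl_le hH hC0 (fun k => (hU t ht k).trans (bw_le hC0 k)) k
  have hN2 : ∀ t ∈ Icc 0 b, ∀ k, ‖nonl η (co (v t)) k‖ ≤ LN := fun t ht k =>
    norm_nonl_le hH hC0 (fun k => (hV t ht k).trans (bw_le hC0 k)) k
  have hLN0 : 0 ≤ LN := (norm_nonneg _).trans (hN1 0 ⟨le_rfl, hb.1⟩ 0)
  have hsb := be6_summable hC0
  have hb6 : ∀ k, be6 C k ≤ ∑' p, be6 C p := fun k => hsb.le_tsum k fun j _ => be6_nonneg hC0 j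
  set Sb := ∑' p, be6 C p with hSb
  have hSb0 : 0 ≤ Sb := tsum_nonneg fun k => be6_nonneg hC0 k
  -- the terms
  set g : K3 → ℝ → ℝ := fun k s => ∑ i, ‖co (u s) k i - co (v s) k i‖ ^ 2 with hg
  set g' : K3 → ℝ → ℝ := fun k t => -(2 * D k * ∑ i, ‖co (u t) k i - co (v t) k i‖ ^ 2)
        - 2 * (cd (co (u t) k - co (v t) k) (nonl η (co (u t)) k - nonl η (co (v t)) k)).re with hg'
  have hgn : ∀ k s, 0 ≤ g k s := fun k s => Finset.sum_nonneg fun _ _ => by positivity
  have hgb : ∀ t ∈ Icc 0 b, ∀ k, g k t ≤ 3 * (bw r C k * bw r C k) := by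
    intro t ht k
    have h1 := sum_le_norm_sq (co (u t) k - co (v t) k)
    have h2 := hW t ht k
    have h3 := norm_nonneg (co (u t) k - co (v t) k)
    calc g k t ≤ 3 * ‖co (u t) k - co (v t) k‖ ^ 2 := h1
      _ ≤ 3 * (bw r C k) ^ 2 := by gcongr
      _ = _ := by ring
  have hgb2 : ∀ t ∈ Icc 0 b, ∀ k, g k t ≤ 3 * Sb * be6 C k := by
    intro t ht k
    refine (hgb t ht k).trans ?_
    have h1 := bw_le (r := r) hC0 k
    have h2 := bw_nonneg (r := r) hC0 k
    have h3 := h1.trans (hb6 k)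
    calc 3 * (bw r C k * bw r C k) ≤ 3 * (Sb * be6 C k) := by gcongr
      _ = _ := by ring
  set cc : ℝ := 6 * (Cd * 3 ^ r * C) + 12 * LN with hcc
  have hCd := hD.nonneg
  have hg'b : ∀ t ∈ Icc 0 b, ∀ k, ‖g' k t‖ ≤ cc * be6 C k := by
    intro t ht k
    have h1 := bw_le (r := r) hC0 k
    have h2 := bw_nonneg (r := r) hC0 k
    have h3 := D_bw hD hC0 k
    have h4 : |(cd (co (u t) k - co (v t) k)
        (nonl η (co (u t)) k - nonl η (co (v t)) k)).re| ≤ 3 * (bw r C k * (2 * LN)) := by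
      refine (Complex.abs_re_le_norm _).trans ((norm_cd_le _ _).trans ?_)
      have h5 := hW t ht k
      have h6 : ‖nonl η (co (u t)) k - nonl η (co (v t)) k‖ ≤ 2 * LN :=
        (norm_sub_le _ _).trans (by linarith [hN1 t ht k, hN2 t ht k])
      gcongr
    have h7 : |2 * D k * g k t| ≤ 6 * (Cd * 3 ^ r * C) * bw r C k := by
      rw [abs_mul, abs_mul, abs_two, abs_of_nonneg (hgn k t)]
      calc 2 * |D k| * g k t ≤ 2 * |D k| * (3 * (bw r C k * bw r C k)) := by
            gcongr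
            exact hgb t ht k
        _ = 6 * (|D k| * bw r C k) * bw r C k := by ring
        _ ≤ _ := by gcongr
    rw [Real.norm_eq_abs]
    have h8 : |g' k t| ≤ |2 * D k * g k t| + 2 * |(cd (co (u t) k - co (v t) k)
        (nonl η (co (u t)) k - nonl η (co (v t)) k)).re| := by
      have := abs_sub (-(2 * D k * g k t)) (2 * (cd (co (u t) k - co (v t) k)
        (nonl η (co (u t)) k - nonl η (co (v t)) k)).re)
      rw [abs_neg, abs_mul 2 (Complex.re _), abs_two] at this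
      exact this
    refine h8.trans ?_
    calc |2 * D k * g k t| + 2 * |(cd (co (u t) k - co (v t) k)
        (nonl η (co (u t)) k - nonl η (co (v t)) k)).re|
        ≤ 6 * (Cd * 3 ^ r * C) * bw r C k + 2 * (3 * (bw r C k * (2 * LN))) := by gcongr
      _ = cc * bw r C k := by rw [hcc]; ring
      _ ≤ cc * be6 C k := by gcongr
  set f : ℝ → ℝ := fun s => ∑' k, g k s with hf
  have hgs : ∀ t ∈ Icc 0 b, Summable fun k => g k t := fun t ht =>
    Summable.of_nonneg_of_le (fun k => hgn k t) (hgb2 t ht) (hsb.mul_left _)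
  have hg's : ∀ t ∈ Icc 0 b, Summable fun k => g' k t := fun t ht =>
    Summable.of_norm_bounded (hsb.mul_left _) (hg'b t ht)
  have hfc : ContinuousOn f (Icc 0 b) := by
    refine continuousOn_tsum (u := fun k => 3 * Sb * be6 C k) (fun k => ?_) (hsb.mul_left _)
      fun k t ht => ?_
    · refine continuousOn_finsetSum _ fun i _ => ?_
      exact (((hu.cont k i).sub (hv.cont k i)).mono hsub).norm.pow 2
    · rw [Real.norm_of_nonneg (hgn k t)]
      exact hgb2 t ht k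
  have hfd : ∀ t ∈ Ioo 0 b, HasDerivAt f (∑' k, g' k t) t := by
    intro t ht
    refine hasDerivAt_tsum_of_isPreconnected (u := fun k => cc * be6 C k) (hsb.mul_left _)
      isOpen_Ioo isPreconnected_Ioo (fun k y hy => ?_) (fun k y hy => ?_) ht
      (hgs t ⟨ht.1.le, ht.2.le⟩) ht
    · exact diff_deriv hu hv ⟨hy.1, hy.2.trans hb.2⟩ k
    · exact hg'b y ⟨hy.1.le, hy.2.le⟩ k
  set K : ℝ := 2 * (3 * cB H * M1) with hK
  have hfi : ∀ t ∈ Ioo 0 b, ∑' k, g' k t ≤ K * f t := by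
    intro t ht
    have htI : t ∈ Icc 0 b := ⟨ht.1.le, ht.2.le⟩
    have htT : t ∈ Ico 0 T := hsub htI
    have hbu : ∀ k, ‖co (u t) k‖ ≤ be6 C k := fun k => (hU t htI k).trans (bw_le hC0 k)
    have hbv : ∀ k, ‖co (v t) k‖ ≤ be6 C k := fun k => (hV t htI k).trans (bw_le hC0 k)
    have hbw : ∀ k, ‖co (u t) k - co (v t) k‖ ≤ be6 C k := fun k =>
      (hW t htI k).trans (bw_le hC0 k)
    have s1 : Summable fun k => ‖co (u t) k - co (v t) k‖ :=
      Summable.of_nonneg_of_le (fun _ => norm_nonneg _) hbw hsb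
    have s2 : Summable fun k => ‖co (u t) k - co (v t) k‖ ^ 2 :=
      Summable.of_nonneg_of_le (fun _ => by positivity)
        (fun k => norm_sq_le_sum (co (u t) k - co (v t) k)) (hgs t htI)
    have s3 : Summable fun k => kn k * ‖co (v t) k‖ :=
      Summable.of_nonneg_of_le (fun k => mul_nonneg (kn_nonneg k) (norm_nonneg _))
        (fun k => by have := kn_nonneg k; have := hbv k; gcongr) (kn_be6_summable hC0)
    obtain ⟨κ, hκ, hκb⟩ := kappa hH s3 s1 s2
    have hds := diff_sum hη (rapV_co fun i => hu.sp htT i) (rapV_co fun i => hv.sp htT i)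
      (dp_co (fun i => hu.sp htT i) (hu.divfree t htT))
      (dp_co (fun i => hv.sp htT i) (hv.divfree t htT))
      (fun k => by funext i; exact fr_neg_conj _ k) (fun k => by funext i; exact fr_neg_conj _ k)
      hκ
    have hre : HasSum (fun k => -(2 * (cd (co (u t) k - co (v t) k)
        (nonl η (co (u t)) k - nonl η (co (v t)) k)).re)) (-(2 * (-κ).re)) :=
      ((Complex.hasSum_re hds).mul_left 2).neg
    have h1 : ∑' k, g' k t ≤ -(2 * (-κ).re) := by
      rw [← hre.tsum_eq]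
      refine (hg's t htI).tsum_le_tsum (fun k => ?_) hre.summable
      have := mul_nonneg (mul_nonneg zero_le_two (hD0 k)) (hgn k t)
      simp only [hg'] at *
      linarith
    have h2 : κ.re ≤ ‖κ‖ := Complex.re_le_norm κ
    have h3 : ∑' k, kn k * ‖co (v t) k‖ ≤ M1 :=
      s3.tsum_le_tsum (fun k => by have := kn_nonneg k; have := hbv k; gcongr)
        (kn_be6_summable hC0)
    have h4 : ∑' k, ‖co (u t) k - co (v t) k‖ ^ 2 ≤ f t :=
      s2.tsum_le_tsum (fun k => norm_sq_le_sum (co (u t) k - co (v t) k)) (hgs t htI)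
    have h5 : 0 ≤ ∑' k, ‖co (u t) k - co (v t) k‖ ^ 2 := tsum_nonneg fun _ => by positivity
    calc ∑' k, g' k t ≤ 2 * κ.re := by rw [Complex.neg_re] at h1; linarith
      _ ≤ 2 * ‖κ‖ := by linarith
      _ ≤ 2 * (3 * cB H * (∑' k, kn k * ‖co (v t) k‖) * ∑' p, ‖co (u t) p - co (v t) p‖ ^ 2) := by
        linarith
      _ ≤ 2 * (3 * cB H * M1 * f t) := by gcongr
      _ = _ := by rw [hK]; ring
  have hanti : AntitoneOn (fun t => f t * Real.exp (-(K * t))) (Icc 0 b) := by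
    have hd : ∀ t ∈ Ioo 0 b, HasDerivAt (fun t => f t * Real.exp (-(K * t)))
        ((∑' k, g' k t) * Real.exp (-(K * t)) + f t * (Real.exp (-(K * t)) * (-(K * 1)))) t := by
      intro t ht
      exact (hfd t ht).mul (((hasDerivAt_id t).const_mul K).neg.exp)
    refine antitoneOn_of_deriv_nonpos (convex_Icc 0 b) ?_ ?_ ?_
    · exact hfc.mul (by fun_prop)
    · intro s hs
      rw [interior_Icc] at hs
      exact (hd s hs).differentiableAt.differentiableWithinAt
    · intro s hs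
      rw [interior_Icc] at hs
      rw [(hd s hs).deriv]
      have h1 := hfi s hs
      have h2 := Real.exp_pos (-(K * s))
      have h3 : (∑' k, g' k s) * Real.exp (-(K * s)) ≤ K * f s * Real.exp (-(K * s)) := by gcongr
      nlinarith
  have hf0 : f 0 = 0 := by
    simp only [hf, hg, h0, sub_self, norm_zero]
    simp
  have hfb : f b ≤ 0 := by
    have h1 := hanti ⟨le_rfl, hb.1⟩ ⟨hb.1, le_rfl⟩ hb.1
    simp only [hf0, zero_mul] at h1
    have h2 := Real.exp_pos (-(K * b))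
    by_contra hcon
    push Not at hcon
    have := mul_pos hcon h2
    linarith
  have hzero : ∀ k, co (u b) k = co (v b) k := by
    intro k
    have h1 : g k b ≤ f b := (hgs b ⟨hb.1, le_rfl⟩).le_tsum k fun j _ => hgn j b
    have h2 := norm_sq_le_sum (co (u b) k - co (v b) k)
    have h3 : ‖co (u b) k - co (v b) k‖ ^ 2 ≤ 0 := h2.trans (h1.trans hfb)
    have h4 : ‖co (u b) k - co (v b) k‖ = 0 := by
      have := sq_nonneg ‖co (u b) k - co (v b) k‖
      exact pow_eq_zero_iff (two_ne_zero) |>.1 (le_antisymm h3 this)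
    exact sub_eq_zero.1 (norm_eq_zero.1 h4)
  funext x i
  have h1 := S_fr (hu.sp hb i) x
  have h2 := S_fr (hv.sp hb i) x
  have h3 : fr (fun x => u b x i) = fr (fun x => v b x i) := by
    funext k; exact congrFun (hzero k) i
  rw [h3, h2] at h1
  exact_mod_cast h1.symm

end Pool.Agent.H226.SW
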