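import Pool.Agent.H226.SW.Lim

/-!
The limit is smooth; the solution in physical space.
-/

open MeasureTheory Set Filter Topology
open scoped ENNReal NNReal ContDiff
open H459R3.NS Pool.Agent.X96.HT Pool.Agent.X96.DM
open Pool.Agent.H356R3.NS (SFam RD TT pw pw_pos one_le_pw pw_sub cvv SF)

namespace Pool.Agent.H226.SW

variable {η : Md → Md → Md → ℝ} {D : K3 → ℝ} {Cd : ℝ} {r : ℕ} {Λ : Set K3}

/-- `u` is a smooth `1`-periodic divergence-free field for the times in `I`, with frequencies in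
`Λ`, which satisfies the equations with the dissipation `D` and without force, with the
interactions of the helical modes multiplied by `η`, projected to the frequencies in `Λ`. The
equations are stated for the Fourier coefficients: for `k ∈ Λ`,
`d/dt û(k) = - D(k) û(k) - (the projection of the weighted (u·∇) u at k)`. -/
structure IsSolD (η : Md → Md → Md → ℝ) (D : K3 → ℝ) (Λ : Set K3) (I : Set ℝ) (u : ℝ → V → V) :
    Prop where
  smooth : ContDiffOn ℝ ∞ (fun z : ℝ × V => u z.1 z.2) (I ×ˢ univ)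
  per : ∀ t ∈ I, Per (u t)
  divfree : ∀ t ∈ I, ∀ x, ∑ i, pd i (fun y => u t y i) x = 0
  supp : ∀ t ∈ I, ∀ k ∉ Λ, co (u t) k = 0
  eqn : ∀ t ∈ I, 0 < t → ∀ k ∈ Λ, ∀ i, HasDerivAt (fun s => co (u s) k i)
    (-((D k : ℝ) : ℂ) * co (u t) k i - nonl η (co (u t)) k i) t

open Classical in
lemma TT_all (hη : IsWeight η) (hD : Pol Cd r D) {a : ℝ → K3 → C3} {B : ℕ → ℝ}
    (h0 : ∀ t, a t 0 = 0) (haΛ : ∀ t, ∀ k ∉ Λ, a t k = 0)
    (hB : ∀ t k m, kn k ^ m * ‖a t k‖ ^ 2 ≤ B m) (hc : ∀ k, Continuous fun t => a t k)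
    (hd : ∀ t, 0 < t → ∀ k ∈ Λ, HasDerivAt (fun s => a s k) (Fk η D (a t) k) t) (n : ℕ) :
    ∀ i, TT n fun k t => a t k i := by
  obtain ⟨H, hH⟩ := hη.bdd
  have hCd := hD.nonneg
  have hrd := rd_of_bd h0 hB
  have hci : ∀ i k, Continuous fun t => a t k i := fun i k => (continuous_apply i).comp (hc k)
  have hab : ∀ t k, ‖a t k‖ ≤ be6 (Real.sqrt (B 12)) k := fun t k =>
    le_be6 (fun hk => by rw [hk]; exact h0 t) (hB t k)
  induction n with
  | zero => intro i; exact ⟨hrd i, hci i⟩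
  | succ n ih =>
    intro i
    refine ⟨hrd i, hci i, fun k t => (if k ∈ Λ then -((D k : ℝ) : ℂ) else 0) * a t k i
      + ∑ j, ∑ m, (if k ∈ Λ then (-1 : ℂ) else 0)
        * cvw (Mb η i j m) (fun k t => a t k j) (fun k t => a t k m) k t,
      fun k t ht => ?_, ?_⟩
    · by_cases hk : k ∈ Λ
      · have h1 := (hasDerivAt_pi.1 (hd t ht k hk)) i
        refine h1.congr_deriv ?_
        rw [Fk_apply, nonl_expand hH (be6_summable (Real.sqrt_nonneg _)) hab]
        simp only [if_pos hk, neg_mul, one_mul, Finset.sum_neg_distrib]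
        ring
      · have h1 : (fun s => a s k i) = fun _ => 0 := by
          funext s; rw [haΛ s k hk]; rfl
        show HasDerivAt (fun s => a s k i) _ t
        rw [h1]
        simp only [if_neg hk, zero_mul, Finset.sum_const_zero, add_zero]
        exact hasDerivAt_const _ _
    · refine TT.add (TT.mul (C := Cd * 2 ^ r) (r := r) (fun k => ?_) (ih i)) ?_
      · have h2 := pw_pos k
        have h3 : ‖(if k ∈ Λ then -((D k : ℝ) : ℂ) else 0)‖ ≤ |D k| := by
          split_ifs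
          · rw [norm_neg, Complex.norm_real, Real.norm_eq_abs]
          · rw [norm_zero]; exact abs_nonneg _
        refine h3.trans ((hD k).trans ?_)
        have h4 := kn_le_pw k
        have h5 := one_le_pw k
        have h6 := kn_nonneg k
        calc Cd * (1 + kn k) ^ r ≤ Cd * (2 * pw k) ^ r := by
              gcongr
              linarith
          _ = _ := by rw [mul_pow]; ring
      · refine TT.sum _ fun j _ => TT.sum _ fun m _ => ?_
        exact TT.mul (C := 1) (r := 0) (fun k => by split_ifs <;> simp)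
          (TT.cvw (norm_Mb_le hH i j m) (ih j) (ih m))

lemma rapV_mean {u₀ : V → V} (hΛ0 : (0 : K3) ∉ Λ) (hsupp : ∀ k ∉ Λ, co u₀ k = 0) : co u₀ 0 = 0 :=
  hsupp 0 hΛ0

/-- existence -/
theorem exists_sol (hη : IsWeight η) (hDn : ∀ k, D (-k) = D k) (hD0 : ∀ k, 0 ≤ D k)
    (hD : Pol Cd r D) (hΛ : ∀ k ∈ Λ, -k ∈ Λ) (hΛ0 : (0 : K3) ∉ Λ)
    {u₀ : V → V} (hs : ContDiff ℝ ∞ u₀)
    (hper : Per u₀) (hdiv : ∀ x, ∑ i, pd i (fun y => u₀ y i) x = 0)
    (hsupp : ∀ k ∉ Λ, co u₀ k = 0) {B : ℕ → ℝ}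
    (hap : ∀ S : Finset K3, (0 : K3) ∉ S → ↑S ⊆ Λ → ∀ (T : ℝ) (a : ℝ → K3 → C3),
      GalD η D T S a → (∀ n, hn n (a 0) ≤ hn n (co u₀)) → ∀ t ∈ Icc 0 T, ∀ n,
        hn n (a t) ≤ B n) :
    ∃ u : ℝ → V → V, IsSolD η D Λ (Ici 0) u ∧ u 0 = u₀ ∧
      ∀ t k m, kn k ^ m * ‖co (u t) k‖ ^ 2 ≤ B m := by
  have hsp : ∀ i, SP (fun x => u₀ x i) := fun i =>
    ⟨(contDiff_pi.1 hs) i, fun j x => congrFun (hper j x) i⟩
  obtain ⟨a, ha0, hreal, hdv, haΛ, hB, hc, hd⟩ := exists_lim hη hDn hD0 hD hΛ hΛ0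
    (rapV_co hsp) hap hsupp (dp_co hsp hdiv) fun k => by
      funext i; exact fr_neg_conj _ k
  have h0 : ∀ t, a t 0 = 0 := fun t => haΛ t 0 hΛ0
  have hTT : ∀ n i, TT n fun k t => a t k i := TT_all hη hD h0 haΛ hB hc hd
  have hco := co_uf h0 hB hreal
  refine ⟨uf a, ⟨uf_smooth hTT, fun t _ => uf_per t, fun t ht x => uf_div h0 hB hreal hdv hTT ht x,
    fun t _ k hk => ?_, fun t _ ht k hk i => ?_⟩, ?_, fun t k m => ?_⟩
  · rw [hco]; exact haΛ t k hk
  · have h1 := (hasDerivAt_pi.1 (hd t ht k hk)) i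
    simp only [hco]
    exact h1.congr_deriv (Fk_apply _ _ _)
  · funext x i
    unfold uf
    rw [ha0]
    have := S_fr (hsp i) x
    have e : (fun k => co u₀ k i) = fr (fun x => u₀ x i) := rfl
    rw [e, this, Complex.ofReal_re]
  · rw [hco]; exact hB t k m

end Pool.Agent.H226.SW
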