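import Pool.Agent.H226.SW.Wt

/-!
A priori bounds of the Galerkin approximations.
-/

open MeasureTheory Set Filter Topology
open scoped ENNReal InnerProductSpace NNReal
open H459R3.NS Pool.Agent.X96.HT Pool.Agent.X96.DM

namespace Pool.Agent.H226.SW

variable {η : Md → Md → Md → ℝ} {D : K3 → ℝ} {S : Finset K3} {W σ : ℕ → ℝ} {J : ℕ} {k : K3}
  {U : K3 → C3}

/-- the sum of the squares of the frequencies in the dyadic shells is at most `σ` -/
def Shells (σ : ℕ → ℝ) (S : Finset K3) : Prop :=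
  ∀ i, (∑ k ∈ S, if (2 : ℝ) ^ i ≤ kn k ∧ kn k < 2 ^ (i + 1) then kn k ^ 2 else 0) ≤ σ i

/-- for all sets of frequencies -/
lemma shells_full (S : Finset K3) : Shells (fun i => 500 * 32 ^ i) S := by
  intro i
  rw [← Finset.sum_filter]
  have h1 : ∀ k ∈ S.filter (fun k => (2 : ℝ) ^ i ≤ kn k ∧ kn k < 2 ^ (i + 1)),
      kn k ^ 2 ≤ 4 * 4 ^ i := by
    intro k hk
    rw [Finset.mem_filter] at hk
    have := kn_nonneg k
    calc kn k ^ 2 ≤ (2 ^ (i + 1)) ^ 2 := by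
          gcongr
          exact hk.2.2.le
      _ = 4 * 4 ^ i := by
          rw [← pow_mul, mul_comm (i + 1) 2, pow_mul, pow_succ]; norm_num; ring
  refine (Finset.sum_le_sum h1).trans ?_
  rw [Finset.sum_const, nsmul_eq_mul]
  have h2 : (S.filter (fun k => (2 : ℝ) ^ i ≤ kn k ∧ kn k < 2 ^ (i + 1)))
      ⊆ (finite_cube (2 ^ (i + 1))).toFinset := by
    intro k hk
    rw [Finset.mem_filter] at hk
    rw [Set.Finite.mem_toFinset]
    have h3 : (N k : ℝ) ≤ 2 ^ (i + 1) := (N_le_kn k).trans hk.2.2.le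
    show N k ≤ 2 ^ (i + 1)
    exact_mod_cast h3
  have h3 := Finset.card_le_card h2
  have h4 : ((S.filter (fun k => (2 : ℝ) ^ i ≤ kn k ∧ kn k < 2 ^ (i + 1))).card : ℝ)
      ≤ (2 * (2 ^ (i + 1) : ℕ) + 1) ^ 3 := by
    rw [← card_cube]; exact_mod_cast h3
  have h5 : (2 * ((2 ^ (i + 1) : ℕ) : ℝ) + 1) ^ 3 ≤ (5 * 2 ^ i) ^ 3 := by
    gcongr
    push_cast
    have : (1 : ℝ) ≤ 2 ^ i := one_le_pow₀ (by norm_num)
    rw [pow_succ]
    linarith
  calc _ ≤ (5 * (2 : ℝ) ^ i) ^ 3 * (4 * 4 ^ i) := by gcongr; exact h4.trans h5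
    _ = 500 * 32 ^ i := by
      rw [mul_pow, ← pow_mul, mul_comm i 3, pow_mul]
      have e : (32 : ℝ) ^ i = (2 ^ 3) ^ i * 4 ^ i := by rw [← mul_pow]; norm_num
      rw [e]
      ring

/-- The low frequencies of the gradient are bounded by the weighted norm. -/
lemma gl_le (h0 : (0 : K3) ∉ S) (hW : Monotone W) (hW1 : ∀ j, 1 ≤ W j)
    (hJ : ∀ k ∈ S, kn k ≤ 2 ^ J) (hσ : Shells σ S) (j : ℕ) :
    gl S (2 ^ j) U ≤ Real.sqrt (∑ i ∈ Finset.range (j + 1), σ i / W i)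
      * Real.sqrt (nw S (wt W J) U) := by
  have hwt : ∀ k, 1 ≤ wt W J k := fun k => (hW1 0).trans (wt_ge_zero hW k)
  have hwt0 : ∀ k, 0 < wt W J k := fun k => by linarith [hwt k]
  set f : K3 → ℝ := fun k => if kn k < 2 * 2 ^ j then kn k / Real.sqrt (wt W J k) else 0 with hf
  set g : K3 → ℝ := fun k => Real.sqrt (wt W J k) * ‖U k‖ with hg
  have e : gl S (2 ^ j) U = ∑ k ∈ S, f k * g k := by
    unfold gl
    refine Finset.sum_congr rfl fun k _ => ?_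
    simp only [hf, hg]
    split_ifs
    · have := Real.sqrt_pos.2 (hwt0 k)
      field_simp
    · simp
  rw [e]
  refine (Real.sum_mul_le_sqrt_mul_sqrt S f g).trans ?_
  have h1 : ∑ k ∈ S, g k ^ 2 ≤ nw S (wt W J) U := by
    unfold nw
    refine Finset.sum_le_sum fun k _ => ?_
    simp only [hg]
    rw [mul_pow, Real.sq_sqrt (hwt0 k).le]
    have := sq_le_sum (U k)
    have := (hwt0 k).le
    gcongr
  have h2 : ∑ k ∈ S, f k ^ 2 ≤ ∑ i ∈ Finset.range (j + 1), σ i / W i := by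
    have h3 : ∀ k ∈ S, f k ^ 2 ≤ ∑ i ∈ Finset.range (j + 1),
        (if (2 : ℝ) ^ i ≤ kn k ∧ kn k < 2 ^ (i + 1) then kn k ^ 2 else 0) / W i := by
      intro k hk
      have hterm : ∀ i ∈ Finset.range (j + 1),
          0 ≤ (if (2 : ℝ) ^ i ≤ kn k ∧ kn k < 2 ^ (i + 1) then kn k ^ 2 else 0) / W i := by
        intro i _
        have : 0 < W i := by linarith [hW1 i]
        positivity
      simp only [hf]
      split_ifs with h4
      · have hk0 : k ≠ 0 := fun e => h0 (e ▸ hk)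
        obtain ⟨i, hi1, hi2⟩ := exists_dyadic hk0
        have hiJ : i ≤ J := by
          by_contra hc
          have h5 : (2 : ℝ) ^ J < 2 ^ i := pow_lt_pow_right₀ (by norm_num) (by omega)
          linarith [hJ k hk]
        have hij : i < j + 1 := by
          by_contra hc
          have h5 : (2 : ℝ) ^ (j + 1) ≤ 2 ^ i := pow_le_pow_right₀ (by norm_num) (by omega)
          have h6 : (2 : ℝ) ^ (j + 1) = 2 * 2 ^ j := by ring
          linarith
        refine le_trans ?_ (Finset.single_le_sum hterm (Finset.mem_range.2 hij))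
        rw [if_pos ⟨hi1, hi2⟩, div_pow, Real.sq_sqrt (hwt0 k).le]
        have h7 := wt_ge hW hi1 hiJ
        have h8 : 0 < W i := by linarith [hW1 i]
        gcongr
      · rw [zero_pow (by norm_num)]
        exact Finset.sum_nonneg hterm
    refine (Finset.sum_le_sum h3).trans ?_
    rw [Finset.sum_comm]
    refine Finset.sum_le_sum fun i _ => ?_
    rw [← Finset.sum_div]
    have : 0 < W i := by linarith [hW1 i]
    gcongr
    exact hσ i
  gcongr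

/-- the gradient is bounded by the norm of `H³` -/
lemma gl_le_hn (h0 : (0 : K3) ∉ S) (hS : ∀ k ∉ S, U k = 0) (L : ℝ) :
    gl S L U ≤ cS * Real.sqrt (hn 6 U) := by
  have h1 : gl S L U ≤ ∑ k ∈ S, Real.sqrt (mj k) * Real.sqrt (kn k ^ 6 * ∑ i, ‖U k i‖ ^ 2) := by
    unfold gl
    refine Finset.sum_le_sum fun k hk => ?_
    have hk0 : k ≠ 0 := fun e => h0 (e ▸ hk)
    have hN := N_pos hk0
    have hkn := kn_nonneg k
    have h2 : kn k * ‖U k‖ ≤ Real.sqrt (mj k) * Real.sqrt (kn k ^ 6 * ∑ i, ‖U k i‖ ^ 2) := by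
      rw [← Real.sqrt_mul (mj_nonneg k)]
      refine Real.le_sqrt_of_sq_le ?_
      unfold mj
      rw [if_neg hk0, mul_pow]
      have h3 := sq_le_sum (U k)
      have h4 : (N k : ℝ) ^ 4 ≤ kn k ^ 4 := by gcongr; exact N_le_kn k
      have h5 : kn k ^ 2 ≤ 1 / (N k : ℝ) ^ 4 * kn k ^ 6 := by
        rw [one_div, ← div_eq_inv_mul, le_div_iff₀ (by positivity)]
        calc kn k ^ 2 * (N k : ℝ) ^ 4 ≤ kn k ^ 2 * kn k ^ 4 := by gcongr
          _ = _ := by ring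
      calc kn k ^ 2 * ‖U k‖ ^ 2 ≤ (1 / (N k : ℝ) ^ 4 * kn k ^ 6) * ∑ i, ‖U k i‖ ^ 2 := by gcongr
        _ = _ := by ring
    split_ifs
    · exact h2
    · positivity
  refine h1.trans ((Real.sum_sqrt_mul_sqrt_le S (fun k => mj_nonneg k) fun k => ?_).trans ?_)
  · have := kn_nonneg k; positivity
  · rw [hn_fin hS]
    unfold cS
    gcongr
    exact mj_summable.sum_le_tsum S fun k _ => mj_nonneg k

/-- comparison from above -/
lemma nw_le_hn (h0 : (0 : K3) ∉ S) (hS : ∀ k ∉ S, U k = 0) {s j₀ : ℕ} (hW : Monotone W)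
    (hW1 : ∀ j, j ≤ j₀ + 1 → W j = 1) (hWs : ∀ j, W j ≤ (2 ^ s) ^ (j - j₀)) :
    nw S (wt W J) U ≤ hn 0 U + 2 ^ s / (2 ^ s) ^ j₀ * hn s U := by
  rw [hn_fin hS, hn_fin hS, Finset.mul_sum, ← Finset.sum_add_distrib]
  unfold nw
  refine Finset.sum_le_sum fun k hk => ?_
  have hk0 : k ≠ 0 := fun e => h0 (e ▸ hk)
  obtain ⟨i, hi1, hi2⟩ := exists_dyadic hk0
  have hkn := kn_nonneg k
  have h1 : wt W J k ≤ 1 + 2 ^ s / (2 ^ s) ^ j₀ * kn k ^ s := by
    refine (wt_le hW hi2.le).trans ?_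
    have hpos : 0 ≤ 2 ^ s / (2 ^ s) ^ j₀ * kn k ^ s := by positivity
    rcases le_or_gt (i + 1) (j₀ + 1) with h | h
    · rw [hW1 _ h]; linarith
    · have h2 := hWs (i + 1)
      have h3 : ((2 : ℝ) ^ s) ^ (i + 1 - j₀) ≤ 2 ^ s / (2 ^ s) ^ j₀ * kn k ^ s := by
        rw [div_mul_eq_mul_div, le_div_iff₀ (by positivity), ← pow_add,
          show i + 1 - j₀ + j₀ = i + 1 by omega, pow_succ, mul_comm]
        gcongr
        rw [← pow_mul, mul_comm s i, pow_mul]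
        gcongr
      linarith
  calc wt W J k * ∑ i, ‖U k i‖ ^ 2 ≤ (1 + 2 ^ s / (2 ^ s) ^ j₀ * kn k ^ s) * ∑ i, ‖U k i‖ ^ 2 := by
        gcongr
    _ = _ := by ring

/-- comparison from below -/
lemma hn_le_nw (h0 : (0 : K3) ∉ S) (hS : ∀ k ∉ S, U k = 0) (hJ : ∀ k ∈ S, kn k ≤ 2 ^ J) {s : ℕ}
    (hW : Monotone W) {c : ℝ} (hc : 0 < c) (hWc : ∀ j, c * (2 ^ s) ^ j ≤ W j) :
    hn s U ≤ 2 ^ s / c * nw S (wt W J) U := by
  rw [hn_fin hS]
  unfold nw
  rw [Finset.mul_sum]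
  refine Finset.sum_le_sum fun k hk => ?_
  have hk0 : k ≠ 0 := fun e => h0 (e ▸ hk)
  obtain ⟨i, hi1, hi2⟩ := exists_dyadic hk0
  have hkn := kn_nonneg k
  have hiJ : i ≤ J := by
    by_contra hc
    have h5 : (2 : ℝ) ^ J < 2 ^ i := pow_lt_pow_right₀ (by norm_num) (by omega)
    linarith [hJ k hk]
  have h1 : kn k ^ s ≤ 2 ^ s / c * wt W J k := by
    have h2 := wt_ge hW hi1 hiJ
    have h3 := hWc i
    calc kn k ^ s ≤ (2 ^ (i + 1)) ^ s := by gcongr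
      _ = 2 ^ s / c * (c * (2 ^ s) ^ i) := by
          rw [← pow_mul, ← pow_mul]
          field_simp
          rw [← pow_add]
          congr 1
          ring
      _ ≤ 2 ^ s / c * wt W J k := by
          gcongr
          exact h3.trans h2
  calc kn k ^ s * ∑ i, ‖U k i‖ ^ 2 ≤ (2 ^ s / c * wt W J k) * ∑ i, ‖U k i‖ ^ 2 := by gcongr
    _ = _ := by ring

lemma exists_J (S : Finset K3) : ∃ J : ℕ, ∀ k ∈ S, kn k ≤ 2 ^ J := by
  obtain ⟨J, hJ⟩ := pow_unbounded_of_one_lt (∑ k ∈ S, kn k) (one_lt_two : (1 : ℝ) < 2)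
  refine ⟨J, fun k hk => le_trans ?_ hJ.le⟩
  exact Finset.single_le_sum (f := fun k => kn k) (fun k _ => kn_nonneg k) hk

/-- The weighted norm stays below twice its initial bound. -/
theorem nw_bound (hη : IsWeight η) {H : ℝ} (hH : ∀ a b c, |η a b c| ≤ H) {T : ℝ}
    {a : ℝ → K3 → C3} (h : GalD η D T S a) (h0 : (0 : K3) ∉ S) (hW : Monotone W)
    (hW1 : ∀ j, 1 ≤ W j) (hJ : ∀ k ∈ S, kn k ≤ 2 ^ J) (hσ : Shells σ S) {m : ℕ → ℝ}
    (hm0 : ∀ j, 0 ≤ m j) (hD0 : ∀ k, 0 ≤ D k) (hm : ∀ j, ∀ k ∈ S, 2 ^ j ≤ kn k → m j ≤ D k)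
    {δ Y : ℝ} (hY : 0 < Y) (hδ : 4 * Real.pi * (2187 * H) * Real.sqrt (2 * Y) * δ ≤ 1)
    (hWm : ∀ i, ∑ j ∈ Finset.range (i + 2), (W (j + 1) - W j)
      * Real.sqrt (∑ i ∈ Finset.range (j + 1), σ i / W i) ≤ δ * (W i * m i))
    (hstart : nw S (wt W J) (a 0) ≤ Y) : ∀ t ∈ Icc 0 T, nw S (wt W J) (a t) ≤ 2 * Y := by
  have hH0 : 0 ≤ H := (abs_nonneg _).trans (hH (0, true) (0, true) (0, true))
  intro t₁ ht₁
  have hT : 0 ≤ T := ht₁.1.trans ht₁.2
  set K : ℝ := 4 * Real.pi * (2187 * H) with hK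
  have hK0 : 0 ≤ K := by positivity
  set e : ℝ := Y / (2 * (1 + T)) with he
  have he0 : 0 < e := by positivity
  set F' : ℝ → ℝ := fun t => -(2 * nw S (fun k => wt W J k * D k) (a t))
    - 4 * Real.pi * (T3s (fw η (wt W J) (a t))).re with hF'
  have hd : ∀ t ∈ Icc 0 T, HasDerivWithinAt (fun s => nw S (wt W J) (a s)) (F' t) (Icc 0 T) t :=
    fun t ht => h.nw_deriv hη (wt_neg W J) ht
  have hB : ∀ t ∈ Icc 0 T, Y + e * t ≤ 2 * Y := by
    intro t ht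
    have h1 : e * t ≤ e * (2 * (1 + T)) := by
      gcongr
      linarith [ht.2]
    have h2 : e * (2 * (1 + T)) = Y := by rw [he]; field_simp
    linarith
  have key := image_le_of_deriv_right_lt_deriv_boundary'
    (f := fun s => nw S (wt W J) (a s)) (f' := F') (a := 0) (b := T)
    (fun t ht => (hd t ht).continuousWithinAt)
    (fun t ht => (hd t ⟨ht.1, ht.2.le⟩).mono_of_mem_nhdsWithin
      (mem_of_superset (Icc_mem_nhdsGE ht.2) (Icc_subset_Icc_left ht.1)))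
    (B := fun t => Y + e * t) (B' := fun _ => e) (by simpa using hstart)
    (by fun_prop)
    (fun t _ => by
      have h1 : HasDerivAt (fun t => Y + e * t) e t := by
        simpa using ((hasDerivAt_id t).const_mul e).const_add Y
      exact h1.hasDerivWithinAt)
    (fun t ht hEq => by
      refine lt_of_le_of_lt ?_ he0
      have htI : t ∈ Icc 0 T := ⟨ht.1, ht.2.le⟩
      have hle : nw S (wt W J) (a t) ≤ 2 * Y := by
        rw [hEq]; exact hB t htI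
      refine h.dval_nonpos hη hH h0 hW (by linarith [hW1 0]) hJ hm0 hD0 hm
        (Γ := fun j => K * (Real.sqrt (∑ i ∈ Finset.range (j + 1), σ i / W i)
          * Real.sqrt (2 * Y))) (fun j => by positivity) (fun i => ?_) (fun j => ?_)
      · have h2 : ∑ j ∈ Finset.range (i + 2), (W (j + 1) - W j)
            * (K * (Real.sqrt (∑ i ∈ Finset.range (j + 1), σ i / W i) * Real.sqrt (2 * Y)))
            = (K * Real.sqrt (2 * Y)) * ∑ j ∈ Finset.range (i + 2), (W (j + 1) - W j)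
            * Real.sqrt (∑ i ∈ Finset.range (j + 1), σ i / W i) := by
          rw [Finset.mul_sum]
          exact Finset.sum_congr rfl fun j _ => by ring
        rw [h2]
        have h3 : 0 ≤ W i * m i := mul_nonneg (by linarith [hW1 i]) (hm0 i)
        calc (K * Real.sqrt (2 * Y)) * ∑ j ∈ Finset.range (i + 2), (W (j + 1) - W j)
            * Real.sqrt (∑ i ∈ Finset.range (j + 1), σ i / W i)
            ≤ (K * Real.sqrt (2 * Y)) * (δ * (W i * m i)) := by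
              gcongr
              exact hWm i
          _ = (K * Real.sqrt (2 * Y) * δ) * (W i * m i) := by ring
          _ ≤ 1 * (W i * m i) := by gcongr
          _ = _ := one_mul _
      · have h4 := gl_le (U := a t) h0 hW hW1 hJ hσ j
        have h5 : Real.sqrt (nw S (wt W J) (a t)) ≤ Real.sqrt (2 * Y) := Real.sqrt_le_sqrt hle
        have h6 : gl S (2 ^ j) (a t) ≤ Real.sqrt (∑ i ∈ Finset.range (j + 1), σ i / W i)
            * Real.sqrt (2 * Y) := h4.trans (by gcongr)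
        gcongr)
  exact (key ht₁).trans (hB t₁ ht₁)

/-! ### Higher norms -/

/-- geometric weights from an index on -/
lemma geo_mono (s j' : ℕ) : Monotone fun j : ℕ => ((2 : ℝ) ^ s) ^ (j - j') := fun i j hij =>
  pow_le_pow_right₀ (one_le_pow₀ (by norm_num)) (by omega)

/-- If the gradient is bounded, all the norms are. -/
theorem high_bound (hη : IsWeight η) {H : ℝ} (hH : ∀ a b c, |η a b c| ≤ H) {m : ℕ → ℝ}
    (hm0 : ∀ j, 0 ≤ m j) (hD0 : ∀ k, 0 ≤ D k) {G A0 As : ℝ} (hG : 0 ≤ G) {s i₀ : ℕ}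
    (hi₀ : ∀ i, i₀ ≤ i → 4 * Real.pi * (2187 * H) * G * (2 ^ s) ^ 2 ≤ m i)
    {T : ℝ} {a : ℝ → K3 → C3} (h : GalD η D T S a) (h0 : (0 : K3) ∉ S)
    (hm : ∀ j, ∀ k ∈ S, 2 ^ j ≤ kn k → m j ≤ D k)
    (hg : ∀ t ∈ Icc 0 T, ∀ L, gl S L (a t) ≤ G) (hA0 : hn 0 (a 0) ≤ A0) (hAs : hn s (a 0) ≤ As) :
    ∀ t ∈ Icc 0 T, hn s (a t) ≤ 2 ^ s * (2 ^ s) ^ (i₀ + 1) * (A0 + 2 ^ s / (2 ^ s) ^ i₀ * As) := by
  have hH0 : 0 ≤ H := (abs_nonneg _).trans (hH (0, true) (0, true) (0, true))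
  intro t ht
  obtain ⟨J, hJ⟩ := exists_J S
  set K : ℝ := 4 * Real.pi * (2187 * H) with hK
  have hK0 : 0 ≤ K := by positivity
  set W : ℕ → ℝ := fun j => ((2 : ℝ) ^ s) ^ (j - (i₀ + 1)) with hWdef
  have hW : Monotone W := geo_mono s (i₀ + 1)
  have h2s : (1 : ℝ) ≤ 2 ^ s := one_le_pow₀ (by norm_num)
  have hW1 : ∀ j, 1 ≤ W j := fun j => one_le_pow₀ h2s
  have hWm : ∀ i, ∑ j ∈ Finset.range (i + 2), (W (j + 1) - W j) * (K * G) ≤ W i * m i := by
    intro i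
    rw [← Finset.sum_mul, Finset.sum_range_sub]
    have hW0 : W 0 = 1 := by simp [hWdef]
    have hWi : 0 ≤ W i := by linarith [hW1 i]
    rcases le_or_gt (i + 2) (i₀ + 1) with hi | hi
    · have : W (i + 2) = 1 := by
        simp only [hWdef]
        rw [Nat.sub_eq_zero_of_le hi, pow_zero]
      rw [this, hW0, sub_self, zero_mul]
      exact mul_nonneg hWi (hm0 i)
    · have h1 : W (i + 2) ≤ (2 ^ s) ^ 2 * W i := by
        simp only [hWdef]
        rw [← pow_add]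
        exact pow_le_pow_right₀ h2s (by omega)
      have h2 := hi₀ i (by omega)
      calc (W (i + 2) - W 0) * (K * G) ≤ ((2 ^ s) ^ 2 * W i) * (K * G) := by
            gcongr
            linarith
        _ = W i * (K * G * (2 ^ s) ^ 2) := by ring
        _ ≤ W i * m i := by gcongr
  have hanti := anti_of_deriv (z := fun s => nw S (wt W J) (a s))
    (z' := fun t => -(2 * nw S (fun k => wt W J k * D k) (a t))
      - 4 * Real.pi * (T3s (fw η (wt W J) (a t))).re)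
    (fun t ht => h.nw_deriv hη (wt_neg W J) ht)
    (fun t ht => h.dval_nonpos hη hH h0 hW (by linarith [hW1 0]) hJ hm0 hD0 hm
      (Γ := fun _ => K * G) (fun _ => by positivity) hWm
      (fun j => by
        have := hg t ht (2 ^ j)
        gcongr)) ht
  have h3 := nw_le_hn (J := J) h0 (h.supp 0) (s := s) (j₀ := i₀) hW
    (fun j hj => by simp only [hWdef]; rw [Nat.sub_eq_zero_of_le hj, pow_zero])
    (fun j => pow_le_pow_right₀ h2s (by omega))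
  have h4 := hn_le_nw h0 (h.supp t) hJ (s := s) hW (c := 1 / (2 ^ s) ^ (i₀ + 1)) (by positivity)
    (fun j => by
      simp only [hWdef]
      rw [one_div, inv_mul_le_iff₀ (by positivity), ← pow_add]
      exact pow_le_pow_right₀ h2s (by omega))
  calc hn s (a t) ≤ 2 ^ s / (1 / (2 ^ s) ^ (i₀ + 1)) * nw S (wt W J) (a t) := h4
    _ = 2 ^ s * (2 ^ s) ^ (i₀ + 1) * nw S (wt W J) (a t) := by field_simp
    _ ≤ 2 ^ s * (2 ^ s) ^ (i₀ + 1) * (A0 + 2 ^ s / (2 ^ s) ^ i₀ * As) := by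
        gcongr
        refine hanti.trans (h3.trans ?_)
        gcongr

/-- The a priori bounds, from a sequence of weights. -/
theorem apriori_of_weights {H : ℝ} {A₀ : ℕ → ℝ} {j₀ : ℕ} {Y δ : ℝ} (hY : 0 < Y)
    (hδ : 4 * Real.pi * (2187 * H) * Real.sqrt (2 * Y) * δ ≤ 1)
    (hstart : A₀ 0 + 2 ^ 6 / (2 ^ 6) ^ j₀ * A₀ 6 ≤ Y)
    (hη : IsWeight η) (hH : ∀ a b c, |η a b c| ≤ H) (hD0 : ∀ k, 0 ≤ D k) {m : ℕ → ℝ}
    (hm0 : ∀ j, 0 ≤ m j) (hmt : Tendsto m atTop atTop) {Λ : Set K3}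
    (hm : ∀ j, ∀ k ∈ Λ, 2 ^ j ≤ kn k → m j ≤ D k)
    (hΛσ : ∀ S : Finset K3, ↑S ⊆ Λ → Shells σ S)
    (hW : Monotone W) (hW1 : ∀ j, 1 ≤ W j) (hWe : ∀ j, j ≤ j₀ + 1 → W j = 1)
    (hWs : ∀ j, W j ≤ (2 ^ 6) ^ (j - j₀)) {c : ℝ} (hc : 0 < c) (hWc : ∀ j, c * (2 ^ 6) ^ j ≤ W j)
    (hWm : ∀ i, ∑ j ∈ Finset.range (i + 2), (W (j + 1) - W j)
      * Real.sqrt (∑ i ∈ Finset.range (j + 1), σ i / W i) ≤ δ * (W i * m i)) :
    ∃ B : ℕ → ℝ, ∀ S : Finset K3, (0 : K3) ∉ S → ↑S ⊆ Λ → ∀ (T : ℝ) (a : ℝ → K3 → C3),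
      GalD η D T S a → (∀ n, hn n (a 0) ≤ A₀ n) → ∀ t ∈ Icc 0 T, ∀ n, hn n (a t) ≤ B n := by
  have hH0 : 0 ≤ H := (abs_nonneg _).trans (hH (0, true) (0, true) (0, true))
  set G : ℝ := cS * Real.sqrt (2 ^ 6 / c * (2 * Y)) with hG
  have hG0 : 0 ≤ G := mul_nonneg cS_nonneg (Real.sqrt_nonneg _)
  have hex : ∀ s : ℕ, ∃ i₀ : ℕ, ∀ i, i₀ ≤ i → 4 * Real.pi * (2187 * H) * G * (2 ^ s) ^ 2 ≤ m i := by
    intro s
    exact eventually_atTop.1 (hmt.eventually_ge_atTop _)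
  choose i₀ hi₀ using hex
  refine ⟨fun s => 2 ^ s * (2 ^ s) ^ (i₀ s + 1) * (A₀ 0 + 2 ^ s / (2 ^ s) ^ i₀ s * A₀ s),
    fun S h0 hSΛ T a h hA => ?_⟩
  obtain ⟨J, hJ⟩ := exists_J S
  have hmS : ∀ j, ∀ k ∈ S, 2 ^ j ≤ kn k → m j ≤ D k := fun j k hk => hm j k (hSΛ hk)
  have hst : nw S (wt W J) (a 0) ≤ Y := by
    refine (nw_le_hn h0 (h.supp 0) (s := 6) hW hWe hWs).trans (le_trans ?_ hstart)
    have h1 := hA 0
    have h2 := hA 6
    gcongr
  have hb := nw_bound hη hH h h0 hW hW1 hJ (hΛσ S hSΛ) hm0 hD0 hmS hY hδ hWm hst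
  have hg : ∀ t ∈ Icc 0 T, ∀ L, gl S L (a t) ≤ G := by
    intro t ht L
    refine (gl_le_hn h0 (h.supp t) L).trans ?_
    rw [hG]
    have h3 := hn_le_nw h0 (h.supp t) hJ (s := 6) hW hc hWc
    have h4 := hb t ht
    have h5 := cS_nonneg
    gcongr
    exact h3.trans (by gcongr)
  intro t ht n
  exact high_bound hη hH hm0 hD0 hG0 (hi₀ n) h h0 hmS hg (hA 0) (hA n) t ht

/-- The a priori bounds: the dissipation `D` is at least `m j` from the length `2 ^ j` on, and the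
sum of `m j 2 ^ (-5 j / 2)` is large enough. -/
theorem apriori (H : ℝ) (A₀ : ℕ → ℝ) : ∃ (j₀ : ℕ) (A : ℝ), ∀ (η : Md → Md → Md → ℝ),
    IsWeight η → (∀ a b c, |η a b c| ≤ H) → ∀ D : K3 → ℝ, (∀ k, 0 ≤ D k) → ∀ m : ℕ → ℝ,
    Monotone m → (∀ j, 0 ≤ m j) → Tendsto m atTop atTop → ∀ Λ : Set K3,
    (∀ j, ∀ k ∈ Λ, 2 ^ j ≤ kn k → m j ≤ D k) → (∃ n, A ≤ ∑ j ∈ Finset.Ico j₀ n, m j * rr j) →
    ∃ B : ℕ → ℝ, ∀ S : Finset K3, (0 : K3) ∉ S → ↑S ⊆ Λ → ∀ (T : ℝ) (a : ℝ → K3 → C3),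
      GalD η D T S a → (∀ n, hn n (a 0) ≤ A₀ n) → ∀ t ∈ Icc 0 T, ∀ n, hn n (a t) ≤ B n := by
  set Y : ℝ := |A₀ 0| + 1 with hY
  have hY0 : 0 < Y := by positivity
  set K : ℝ := 4 * Real.pi * (2187 * |H|) with hK
  have hK0 : 0 ≤ K := by positivity
  set δ : ℝ := 1 / (K * Real.sqrt (2 * Y) + 1) with hδ
  have hδ0 : 0 < δ := by positivity
  have hδ1 : K * Real.sqrt (2 * Y) * δ ≤ 1 := by
    rw [hδ, mul_one_div, div_le_one (by positivity)]
    linarith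
  obtain ⟨A, hA0, hA⟩ := exists_weights (s := 6) le_rfl (δ := δ / Real.sqrt 500) (by positivity)
  obtain ⟨j₀, hj₀⟩ : ∃ j₀ : ℕ, (2 : ℝ) ^ 6 / (2 ^ 6) ^ j₀ * |A₀ 6| ≤ 1 := by
    obtain ⟨j₀, hj₀⟩ := pow_unbounded_of_one_lt ((2 : ℝ) ^ 6 * |A₀ 6|)
      (by norm_num : (1 : ℝ) < 2 ^ 6)
    refine ⟨j₀, ?_⟩
    rw [div_mul_eq_mul_div, div_le_one (by positivity)]
    exact hj₀.le
  refine ⟨j₀, A, fun η hη hH D hD0 m hmm hm0 hmt Λ hm ⟨n, hn'⟩ => ?_⟩
  obtain ⟨W, hW, hW1, hWe, hWs, ⟨c, hc, hWc⟩, -, hWm⟩ := hA j₀ n m hmm hm0 hn'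
  have hH0 : 0 ≤ H := (abs_nonneg _).trans (hH (0, true) (0, true) (0, true))
  refine apriori_of_weights (σ := fun i => 500 * 32 ^ i) (W := W) (H := H) (δ := δ) (Y := Y)
    (j₀ := j₀) (A₀ := A₀) hY0 ?_ ?_ hη hH hD0 hm0 hmt hm (fun S _ => shells_full S) hW hW1 hWe
    hWs hc hWc fun i => ?_
  · rw [hK, abs_of_nonneg hH0] at hδ1
    exact hδ1
  · have h1 := le_abs_self (A₀ 0)
    have h2 : (2 : ℝ) ^ 6 / (2 ^ 6) ^ j₀ * A₀ 6 ≤ 2 ^ 6 / (2 ^ 6) ^ j₀ * |A₀ 6| := by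
      gcongr
      exact le_abs_self _
    linarith
  · have h3 : ∀ j, Real.sqrt (∑ i ∈ Finset.range (j + 1), 500 * 32 ^ i / W i)
        = Real.sqrt 500 * Real.sqrt (QW W j) := by
      intro j
      rw [← Real.sqrt_mul (by norm_num)]
      unfold QW
      rw [Finset.mul_sum]
      congr 1
      exact Finset.sum_congr rfl fun i _ => by ring
    simp_rw [h3]
    have h4 : ∑ j ∈ Finset.range (i + 2), (W (j + 1) - W j) * (Real.sqrt 500 * Real.sqrt (QW W j))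
        = Real.sqrt 500 * ∑ j ∈ Finset.range (i + 2), (W (j + 1) - W j) * Real.sqrt (QW W j) := by
      rw [Finset.mul_sum]
      exact Finset.sum_congr rfl fun j _ => by ring
    rw [h4]
    calc Real.sqrt 500 * ∑ j ∈ Finset.range (i + 2), (W (j + 1) - W j) * Real.sqrt (QW W j)
        ≤ Real.sqrt 500 * (δ / Real.sqrt 500 * (W i * m i)) := by
          gcongr
          exact hWm i
      _ = δ * (W i * m i) := by field_simp

end Pool.Agent.H226.SW
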