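import Pool.Graph.R_pool_sql_team_seeded_64922ed1.X96.DM.Fin

/-!
The energy flux through a shell of frequencies.
-/

open MeasureTheory Set Filter Topology
open scoped ENNReal
open H459R3.NS Pool.Agent.X96.HT Pool.Agent.X96.DM

namespace Pool.Agent.H226.SW

variable {η : Md → Md → Md → ℝ} {U : K3 → C3} {S : Finset K3} {k p q : K3} {a b c : C3}

/-- the profile: `0` up to `L`, `1` from `2 L` on, linear in between -/
noncomputable def ps (L r : ℝ) : ℝ := min 1 (max 0 (r / L - 1))

lemma ps_nonneg (L r : ℝ) : 0 ≤ ps L r := le_min zero_le_one (le_max_left _ _)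

lemma ps_le_one (L r : ℝ) : ps L r ≤ 1 := min_le_left _ _

lemma ps_mono {L r s : ℝ} (hL : 0 < L) (h : r ≤ s) : ps L r ≤ ps L s := by
  unfold ps
  gcongr

lemma ps_lip {L : ℝ} (hL : 0 < L) (r s : ℝ) : |ps L r - ps L s| ≤ |r - s| / L := by
  unfold ps
  refine (abs_min_sub_min_le_max _ _ _ _).trans ?_
  rw [sub_self, abs_zero]
  refine max_le (by positivity) ?_
  refine (abs_max_sub_max_le_max _ _ _ _).trans ?_
  rw [sub_self, abs_zero]
  refine max_le (by positivity) ?_
  have e : r / L - 1 - (s / L - 1) = (r - s) / L := by ring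
  rw [e, abs_div, abs_of_pos hL]

lemma ps_zero {L r : ℝ} (hL : 0 < L) (h : r ≤ L) : ps L r = 0 := by
  unfold ps
  have : r / L ≤ 1 := (div_le_one hL).2 h
  rw [max_eq_left (by linarith)]
  simp

lemma ps_one {L r : ℝ} (hL : 0 < L) (h : 2 * L ≤ r) : ps L r = 1 := by
  unfold ps
  have : 2 ≤ r / L := (le_div_iff₀ hL).2 h
  rw [max_eq_right (by linarith), min_eq_left (by linarith)]

lemma norm_det_le (a b c : C3) : ‖dp a (cp b c)‖ ≤ 6 * (‖a‖ * ‖b‖ * ‖c‖) := by
  refine (norm_dp_le _ _).trans ?_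
  have h := norm_cp_le b c
  calc 3 * (‖a‖ * ‖cp b c‖) ≤ 3 * (‖a‖ * (2 * (‖b‖ * ‖c‖))) := by gcongr
    _ = _ := by ring

lemma abs_sg_mul (s : Bool) (x : ℝ) : |sg s * x| = |x| := by rw [abs_mul, abs_sg, one_mul]

/-- the production by one triad whose first frequency is the shortest -/
lemma Gs_small (h : k + p + q = 0) (hkp : kn k ≤ kn p) (hkq : kn k ≤ kn q) {x y z : ℝ}
    (hxy : x ≤ y) (hxy1 : y ≤ x + 1) (hxz : x ≤ z) (hxz1 : z ≤ x + 1)
    (hyz : |y - z| * max (kn p) (kn q) ≤ 4 * kn k)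
    (ha : dp (kc k) a = 0) (hb : dp (kc p) b = 0) (hc : dp (kc q) c = 0) (r s t : Bool) :
    ‖Gs x y z (kc k) (kc p) (kc q) (par r k a) (par s p b) (par t q c)‖
      ≤ 162 * (kn k * (‖par r k a‖ * ‖par s p b‖ * ‖par t q c‖)) := by
  have hk0 := kn_nonneg k
  have hp0 := kn_nonneg p
  have hq0 := kn_nonneg q
  have t1 : kn p ≤ kn q + kn k := kn_tri (by rw [← h]; abel)
  have t2 : kn q ≤ kn k + kn p := kn_tri h
  set A := par r k a with hA
  set B := par s p b with hB
  set C := par t q c with hC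
  have hM : 0 ≤ ‖A‖ * ‖B‖ * ‖C‖ := by positivity
  rw [Gs_eq (kc_sum h) (dp_par r ha) (dp_par s hb) (dp_par t hc) (hl_par r ha) (hl_par s hb)
    (hl_par t hc), norm_mul]
  set l : ℝ := sg r * kn k with hl
  set m : ℝ := sg s * kn p with hm
  set n : ℝ := sg t * kn q with hn
  have e0 : ((x : ℂ) * ((m : ℂ) - (n : ℂ)) + y * ((n : ℂ) - (l : ℂ)) + z * ((l : ℂ) - (m : ℂ)))
      = ((x * (m - n) + y * (n - l) + z * (l - m) : ℝ) : ℂ) := by push_cast; ring
  rw [e0, Complex.norm_real, Real.norm_eq_abs]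
  have al : |l| = kn k := by rw [hl, abs_sg_mul, abs_of_nonneg hk0]
  have am : |m| = kn p := by rw [hm, abs_sg_mul, abs_of_nonneg hp0]
  have an : |n| = kn q := by rw [hn, abs_sg_mul, abs_of_nonneg hq0]
  have nl : |n - l| ≤ kn q + kn k := (abs_sub _ _).trans (by rw [al, an])
  have lm : |l - m| ≤ kn k + kn p := (abs_sub _ _).trans (by rw [al, am])
  by_cases hst : s = t
  · -- equal signs of the long frequencies
    have nm : |n - m| ≤ kn k := by
      rw [hn, hm, hst, ← mul_sub, abs_sg_mul, abs_le]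
      constructor <;> linarith
    have e1 : x * (m - n) + y * (n - l) + z * (l - m) = (y - z) * (n - l) + (z - x) * (n - m) := by
      ring
    have hmax : kn q + kn k ≤ 2 * max (kn p) (kn q) := by
      have := le_max_right (kn p) (kn q)
      linarith
    have h1 : |x * (m - n) + y * (n - l) + z * (l - m)| ≤ 9 * kn k := by
      rw [e1]
      refine (abs_add_le _ _).trans ?_
      rw [abs_mul, abs_mul]
      have h2 : |y - z| * |n - l| ≤ 8 * kn k := by
        calc |y - z| * |n - l| ≤ |y - z| * (2 * max (kn p) (kn q)) := by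
              gcongr; exact nl.trans hmax
          _ = 2 * (|y - z| * max (kn p) (kn q)) := by ring
          _ ≤ 2 * (4 * kn k) := by gcongr
          _ = _ := by ring
      have h3 : |z - x| * |n - m| ≤ 1 * kn k := by
        gcongr
        rw [abs_le]
        constructor <;> linarith
      linarith
    calc |x * (m - n) + y * (n - l) + z * (l - m)| * ‖dp A (cp B C)‖
        ≤ (9 * kn k) * (6 * (‖A‖ * ‖B‖ * ‖C‖)) := by
          gcongr
          exact norm_det_le _ _ _
      _ = 54 * (kn k * (‖A‖ * ‖B‖ * ‖C‖)) := by ring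
      _ ≤ _ := by gcongr; norm_num
  · -- opposite signs
    have ht : sg t = -sg s := by
      have : t = !s := by cases s <;> cases t <;> simp_all
      rw [this, sg_not]
    have hC' : Hl ((-sg s * kn q : ℝ) : ℂ) (kc q) C := by
      have := hl_par t hc
      rwa [ht] at this
    have hd := det_small (k := kc k) (p := kc p) (q := kc q) (a := A) (b := B) (c := C)
      (x := kn k) (y := kn p) (z := kn q) (norm_kc_le k) hp0 hq0 (norm_kc_le p) (abs_sg s)
      (kc_sum h) (dp_par t hc) (hl_par s hb) hC'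
    have e1 : x * (m - n) + y * (n - l) + z * (l - m) = (y - x) * (n - l) + (z - x) * (l - m) := by
      ring
    have h1 : |x * (m - n) + y * (n - l) + z * (l - m)| ≤ 5 * kn p := by
      rw [e1]
      refine (abs_add_le _ _).trans ?_
      rw [abs_mul, abs_mul]
      have h2 : |y - x| * |n - l| ≤ 1 * (kn q + kn k) := by
        gcongr
        rw [abs_le]
        constructor <;> linarith
      have h3 : |z - x| * |l - m| ≤ 1 * (kn k + kn p) := by
        gcongr
        rw [abs_le]
        constructor <;> linarith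
      linarith
    calc |x * (m - n) + y * (n - l) + z * (l - m)| * ‖dp A (cp B C)‖
        ≤ (5 * kn p) * ‖dp A (cp B C)‖ := by gcongr
      _ = 5 * (kn p * ‖dp A (cp B C)‖) := by ring
      _ ≤ 5 * (27 * (kn k * (‖A‖ * ‖B‖ * ‖C‖))) := by gcongr
      _ ≤ _ := by
        have : 0 ≤ kn k * (‖A‖ * ‖B‖ * ‖C‖) := by positivity
        linarith

/-- low frequencies, differentiated -/
noncomputable def lo (L : ℝ) (U : K3 → C3) (k : K3) : ℝ :=
  if kn k < 2 * L then kn k * bt k (U k) else 0

/-- high frequencies -/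
noncomputable def hi (L : ℝ) (U : K3 → C3) (k : K3) : ℝ :=
  if L / 2 ≤ kn k then bt k (U k) else 0

lemma lo_nonneg (L : ℝ) (U : K3 → C3) (k : K3) : 0 ≤ lo L U k := by
  unfold lo
  have := kn_nonneg k
  have := bt_nonneg k (U k)
  split_ifs <;> positivity

lemma hi_nonneg (L : ℝ) (U : K3 → C3) (k : K3) : 0 ≤ hi L U k := by
  unfold hi
  have := bt_nonneg k (U k)
  split_ifs <;> positivity

lemma bt_eq (k : K3) (a : C3) : bt k a = ∑ s : Bool, ‖par s k a‖ := by
  unfold bt
  rw [Fintype.sum_bool]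

/-- the production of the profile by one triad, the first frequency being the shortest -/
lemma Gs_ps1 {L : ℝ} (hL : 0 < L) (h : k + p + q = 0) (hkp : kn k ≤ kn p) (hkq : kn k ≤ kn q)
    (ha : dp (kc k) a = 0) (hb : dp (kc p) b = 0) (hc : dp (kc q) c = 0) (r s t : Bool) :
    ‖Gs (ps L (kn k)) (ps L (kn p)) (ps L (kn q)) (kc k) (kc p) (kc q) (par r k a) (par s p b)
        (par t q c)‖
      ≤ 162 * ((if kn k < 2 * L then kn k * ‖par r k a‖ else 0)
        * (if L / 2 ≤ kn p then ‖par s p b‖ else 0) * (if L / 2 ≤ kn q then ‖par t q c‖ else 0)) := by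
  have hk0 := kn_nonneg k
  have hp0 := kn_nonneg p
  have hq0 := kn_nonneg q
  have t1 : kn p ≤ kn q + kn k := kn_tri (by rw [← h]; abel)
  have t2 : kn q ≤ kn k + kn p := kn_tri h
  have hR : 0 ≤ 162 * ((if kn k < 2 * L then kn k * ‖par r k a‖ else 0)
        * (if L / 2 ≤ kn p then ‖par s p b‖ else 0) * (if L / 2 ≤ kn q then ‖par t q c‖ else 0)) := by
    positivity
  by_cases h1 : 2 * L ≤ kn k
  · -- all weights are one
    rw [ps_one hL h1, ps_one hL (h1.trans hkp), ps_one hL (h1.trans hkq)]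
    rw [Gs_eq (kc_sum h) (dp_par r ha) (dp_par s hb) (dp_par t hc) (hl_par r ha) (hl_par s hb)
      (hl_par t hc)]
    have e : ((1 : ℝ) : ℂ) * (((sg s * kn p : ℝ) : ℂ) - ((sg t * kn q : ℝ) : ℂ))
      + ((1 : ℝ) : ℂ) * (((sg t * kn q : ℝ) : ℂ) - ((sg r * kn k : ℝ) : ℂ))
      + ((1 : ℝ) : ℂ) * (((sg r * kn k : ℝ) : ℂ) - ((sg s * kn p : ℝ) : ℂ)) = 0 := by
      push_cast; ring
    rw [e, zero_mul, norm_zero]
    exact hR
  push Not at h1
  by_cases h2 : kn p ≤ L ∧ kn q ≤ L
  · -- all weights are zero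
    rw [ps_zero hL (hkp.trans h2.1), ps_zero hL h2.1, ps_zero hL h2.2]
    unfold Gs
    simp only [Complex.ofReal_zero, zero_mul, add_zero, norm_zero]
    exact hR
  have h3 : L / 2 ≤ kn p ∧ L / 2 ≤ kn q := by
    rw [not_and_or, not_le, not_le] at h2
    rcases h2 with h2 | h2 <;> constructor <;> linarith
  rw [if_pos h1, if_pos h3.1, if_pos h3.2]
  have m0 := ps_nonneg L (kn k)
  have m1 := ps_le_one L (kn p)
  have m2 := ps_le_one L (kn q)
  have hyz : |ps L (kn p) - ps L (kn q)| * max (kn p) (kn q) ≤ 4 * kn k := by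
    by_cases h4 : 2 * L ≤ kn p ∧ 2 * L ≤ kn q
    · rw [ps_one hL h4.1, ps_one hL h4.2, sub_self, abs_zero, zero_mul]
      positivity
    · have h5 : max (kn p) (kn q) ≤ 4 * L := by
        rw [not_and_or, not_le, not_le] at h4
        rcases h4 with h4 | h4 <;> refine max_le ?_ ?_ <;> linarith
      have h6 : |ps L (kn p) - ps L (kn q)| ≤ kn k / L := by
        refine (ps_lip hL _ _).trans ?_
        gcongr
        rw [abs_le]
        constructor <;> linarith
      have h7 : 0 ≤ max (kn p) (kn q) := hp0.trans (le_max_left _ _)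
      calc |ps L (kn p) - ps L (kn q)| * max (kn p) (kn q) ≤ (kn k / L) * (4 * L) := by gcongr
        _ = 4 * kn k := by field_simp
  refine (Gs_small h hkp hkq (ps_mono hL hkp) (by linarith) (ps_mono hL hkq) (by linarith) hyz
    ha hb hc r s t).trans (le_of_eq ?_)
  ring

/-- the bound for all triads -/
lemma Gs_ps {L : ℝ} (hL : 0 < L) (h : k + p + q = 0)
    (ha : dp (kc k) a = 0) (hb : dp (kc p) b = 0) (hc : dp (kc q) c = 0) (r s t : Bool) :
    ‖Gs (ps L (kn k)) (ps L (kn p)) (ps L (kn q)) (kc k) (kc p) (kc q) (par r k a) (par s p b)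
        (par t q c)‖
      ≤ 162 * ((if kn k < 2 * L then kn k * ‖par r k a‖ else 0)
          * (if L / 2 ≤ kn p then ‖par s p b‖ else 0) * (if L / 2 ≤ kn q then ‖par t q c‖ else 0)
        + (if L / 2 ≤ kn k then ‖par r k a‖ else 0)
          * (if kn p < 2 * L then kn p * ‖par s p b‖ else 0)
          * (if L / 2 ≤ kn q then ‖par t q c‖ else 0)
        + (if L / 2 ≤ kn k then ‖par r k a‖ else 0) * (if L / 2 ≤ kn p then ‖par s p b‖ else 0)
          * (if kn q < 2 * L then kn q * ‖par t q c‖ else 0)) := by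
  have hk0 := kn_nonneg k
  have hp0 := kn_nonneg p
  have hq0 := kn_nonneg q
  set A1 := (if kn k < 2 * L then kn k * ‖par r k a‖ else 0) with hA1
  set A2 := (if L / 2 ≤ kn k then ‖par r k a‖ else 0) with hA2
  set B1 := (if kn p < 2 * L then kn p * ‖par s p b‖ else 0) with hB1
  set B2 := (if L / 2 ≤ kn p then ‖par s p b‖ else 0) with hB2
  set C1 := (if kn q < 2 * L then kn q * ‖par t q c‖ else 0) with hC1
  set C2 := (if L / 2 ≤ kn q then ‖par t q c‖ else 0) with hC2
  have a1 : 0 ≤ A1 := by rw [hA1]; positivity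
  have a2 : 0 ≤ A2 := by rw [hA2]; positivity
  have b1 : 0 ≤ B1 := by rw [hB1]; positivity
  have b2 : 0 ≤ B2 := by rw [hB2]; positivity
  have c1 : 0 ≤ C1 := by rw [hC1]; positivity
  have c2 : 0 ≤ C2 := by rw [hC2]; positivity
  have x1 : 0 ≤ A1 * B2 * C2 := by positivity
  have x2 : 0 ≤ A2 * B1 * C2 := by positivity
  have x3 : 0 ≤ A2 * B2 * C1 := by positivity
  rcases le_total (kn k) (kn p) with h1 | h1
  · rcases le_total (kn k) (kn q) with h2 | h2
    · have := Gs_ps1 hL h h1 h2 ha hb hc r s t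
      linarith
    · -- q is the shortest
      have h3 := Gs_ps1 hL (k := q) (p := k) (q := p) (by rw [← h]; abel) h2 (h2.trans h1) hc ha hb
        t r s
      rw [Gs_rot] at h3
      linarith
  · rcases le_total (kn p) (kn q) with h2 | h2
    · have h3 := Gs_ps1 hL (k := p) (p := q) (q := k) (by rw [← h]; abel) h2 h1 hb hc ha s t r
      rw [← Gs_rot] at h3
      linarith
    · have h3 := Gs_ps1 hL (k := q) (p := k) (q := p) (by rw [← h]; abel) (h2.trans h1) h2 hc ha hb
        t r s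
      rw [Gs_rot] at h3
      linarith

/-- The flux through the shell of the frequencies between `L` and `2 L` by one triad. -/
lemma flux_triad {L : ℝ} (hL : 0 < L) {H : ℝ} (hH : ∀ a b c, |η a b c| ≤ H) (h : k + p + q = 0)
    (hdiv : ∀ k, dp (kc k) (U k) = 0) :
    ‖∑ r : Bool, ∑ s : Bool, ∑ t : Bool, (η (k, r) (p, s) (q, t) : ℂ) *
      Gs (ps L (kn k)) (ps L (kn p)) (ps L (kn q)) (kc k) (kc p) (kc q) (par r k (U k))
        (par s p (U p)) (par t q (U q))‖
    ≤ 162 * H * (lo L U k * hi L U p * hi L U q + hi L U k * lo L U p * hi L U q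
      + hi L U k * hi L U p * lo L U q) := by
  have hH0 : 0 ≤ H := (abs_nonneg _).trans (hH (k, true) (p, true) (q, true))
  have hk0 := kn_nonneg k
  have hp0 := kn_nonneg p
  have hq0 := kn_nonneg q
  have l1 : ∀ k, lo L U k = ∑ r : Bool, (if kn k < 2 * L then kn k * ‖par r k (U k)‖ else 0) := by
    intro k
    unfold lo
    rw [bt_eq]
    split_ifs
    · rw [Finset.mul_sum]
    · simp
  have l2 : ∀ k, hi L U k = ∑ r : Bool, (if L / 2 ≤ kn k then ‖par r k (U k)‖ else 0) := by
    intro k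
    unfold hi
    rw [bt_eq]
    split_ifs
    · rfl
    · simp
  calc ‖∑ r : Bool, ∑ s : Bool, ∑ t : Bool, (η (k, r) (p, s) (q, t) : ℂ) *
      Gs (ps L (kn k)) (ps L (kn p)) (ps L (kn q)) (kc k) (kc p) (kc q) (par r k (U k))
        (par s p (U p)) (par t q (U q))‖
      ≤ ∑ r : Bool, ∑ s : Bool, ∑ t : Bool,
        H * (162 * ((if kn k < 2 * L then kn k * ‖par r k (U k)‖ else 0)
          * (if L / 2 ≤ kn p then ‖par s p (U p)‖ else 0)
          * (if L / 2 ≤ kn q then ‖par t q (U q)‖ else 0)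
        + (if L / 2 ≤ kn k then ‖par r k (U k)‖ else 0)
          * (if kn p < 2 * L then kn p * ‖par s p (U p)‖ else 0)
          * (if L / 2 ≤ kn q then ‖par t q (U q)‖ else 0)
        + (if L / 2 ≤ kn k then ‖par r k (U k)‖ else 0)
          * (if L / 2 ≤ kn p then ‖par s p (U p)‖ else 0)
          * (if kn q < 2 * L then kn q * ‖par t q (U q)‖ else 0))) := by
        refine (norm_sum_le _ _).trans (Finset.sum_le_sum fun r _ => ?_)
        refine (norm_sum_le _ _).trans (Finset.sum_le_sum fun s _ => ?_)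
        refine (norm_sum_le _ _).trans (Finset.sum_le_sum fun t _ => ?_)
        rw [norm_mul, Complex.norm_real, Real.norm_eq_abs]
        refine mul_le_mul (hH _ _ _) (Gs_ps hL h (hdiv k) (hdiv p) (hdiv q) r s t)
          (norm_nonneg _) hH0
    _ = _ := by
        rw [l1 k, l1 p, l1 q, l2 k, l2 p, l2 q]
        simp only [Fintype.sum_bool]
        ring

end Pool.Agent.H226.SW
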