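import Pool.Agent.H226.SW.Flux

/-!
The energy flux through a shell of frequencies: sums over the triads.
-/

open MeasureTheory Set Filter Topology
open scoped ENNReal
open H459R3.NS Pool.Agent.X96.HT Pool.Agent.X96.DM

namespace Pool.Agent.H226.SW

variable {η : Md → Md → Md → ℝ} {U : K3 → C3} {S : Finset K3} {k p q : K3} {a b c : C3}

lemma par_at_zero (s : Bool) (k : K3) : par s k 0 = 0 := by
  unfold par
  split_ifs
  · rfl
  · funext j
    have : cp (kc k) 0 j = 0 := by fin_cases j <;> simp [cp]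
    simp [this]

lemma fw_zero1 (w : K3 → ℝ) (h : U k = 0) : fw η w U k p q = 0 := by
  unfold fw
  have : ∀ r s t : Bool, (η (k, r) (p, s) (q, t) : ℂ) *
    t0 q (par r k (U k)) (par s p (U p)) (par t q (U q)) = 0 := by
    intro r s t
    rw [h, par_at_zero]
    unfold t0 dp
    simp
  simp only [this, Finset.sum_const_zero, mul_zero]

lemma fw_zero2 (w : K3 → ℝ) (h : U p = 0) : fw η w U k p q = 0 := by
  unfold fw
  have : ∀ r s t : Bool, (η (k, r) (p, s) (q, t) : ℂ) *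
    t0 q (par r k (U k)) (par s p (U p)) (par t q (U q)) = 0 := by
    intro r s t
    rw [h, par_at_zero]
    unfold t0 dp
    simp
  simp only [this, Finset.sum_const_zero, mul_zero]

lemma S3s_fin (w : K3 → ℝ) (hS : ∀ k ∉ S, U k = 0) : S3s (fw η w U) := by
  refine summable_of_ne_finset_zero (s := S ×ˢ S) fun x hx => ?_
  rw [Finset.mem_product, not_and_or] at hx
  rcases hx with hx | hx
  · exact fw_zero1 w (hS _ hx)
  · exact fw_zero2 w (hS _ hx)

lemma T3s_lin {ι : Type*} (F : Finset ι) (c : ι → ℝ) (w : ι → K3 → ℝ) (hS : ∀ k ∉ S, U k = 0) :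
    T3s (fw η (fun k => ∑ j ∈ F, c j * w j k) U) = ∑ j ∈ F, (c j : ℂ) * T3s (fw η (w j) U) := by
  have e : ∀ x : K3 × K3, fw η (fun k => ∑ j ∈ F, c j * w j k) U x.1 x.2 (-x.1 - x.2)
      = ∑ j ∈ F, (c j : ℂ) * fw η (w j) U x.1 x.2 (-x.1 - x.2) := by
    intro x
    unfold fw
    push_cast
    rw [Finset.sum_mul]
    exact Finset.sum_congr rfl fun j _ => by ring
  unfold T3s
  simp_rw [e]
  rw [Summable.tsum_finsetSum fun j _ => (S3s_fin (w j) hS).mul_left _]
  exact Finset.sum_congr rfl fun j _ => tsum_mul_left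

lemma T3s_const (hη : IsWeight η) (hS : ∀ k ∉ S, U k = 0) (hdiv : ∀ k, dp (kc k) (U k) = 0) :
    T3s (fw η (fun _ => 1) U) = 0 := by
  have := T3s_energy hη (rapV_fin hS) hdiv
  simpa using this

/-- the low frequencies of the gradient -/
noncomputable def gl (S : Finset K3) (L : ℝ) (U : K3 → C3) : ℝ :=
  ∑ k ∈ S, if kn k < 2 * L then kn k * ‖U k‖ else 0

/-- the energy of the high frequencies -/
noncomputable def eg (S : Finset K3) (L : ℝ) (U : K3 → C3) : ℝ :=
  ∑ k ∈ S, if L / 2 ≤ kn k then ∑ i, ‖U k i‖ ^ 2 else 0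

lemma gl_nonneg (S : Finset K3) (L : ℝ) (U : K3 → C3) : 0 ≤ gl S L U :=
  Finset.sum_nonneg fun k _ => by
    have := kn_nonneg k
    positivity

lemma eg_nonneg (S : Finset K3) (L : ℝ) (U : K3 → C3) : 0 ≤ eg S L U :=
  Finset.sum_nonneg fun k _ => by positivity

lemma sum_lo (L : ℝ) (U : K3 → C3) : ∑ k ∈ S, lo L U k ≤ 3 * gl S L U := by
  unfold gl
  rw [Finset.mul_sum]
  refine Finset.sum_le_sum fun k _ => ?_
  unfold lo
  have h0 := kn_nonneg k
  have h1 := bt_le k (U k)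
  split_ifs
  · calc kn k * bt k (U k) ≤ kn k * (3 * ‖U k‖) := by gcongr
      _ = _ := by ring
  · simp

lemma sum_hi (L : ℝ) (U : K3 → C3) : ∑ k ∈ S, hi L U k ^ 2 ≤ 9 * eg S L U := by
  unfold eg
  rw [Finset.mul_sum]
  refine Finset.sum_le_sum fun k _ => ?_
  unfold hi
  have h1 := bt_sq_le k (U k)
  split_ifs
  · exact h1
  · simp

/-- The flux through the shell of the frequencies between `L` and `2 L`. -/
theorem flux (hη : IsWeight η) {H : ℝ} (hH : ∀ a b c, |η a b c| ≤ H) (hS : ∀ k ∉ S, U k = 0)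
    (hdiv : ∀ k, dp (kc k) (U k) = 0) {L : ℝ} (hL : 0 < L) :
    ‖T3s (fw η (fun k => ps L (kn k)) U)‖ ≤ 2187 * H * (gl S L U * eg S L U) := by
  have hH0 : 0 ≤ H := (abs_nonneg _).trans (hH (0, true) (0, true) (0, true))
  have h1 := T3s_sym (S3s_fin (η := η) (fun k => ps L (kn k)) hS)
  have e1 : (fun k p q => (fw η (fun k => ps L (kn k)) U k p q + fw η (fun k => ps L (kn k)) U k q p)
      + (fw η (fun k => ps L (kn k)) U p q k + fw η (fun k => ps L (kn k)) U p k q)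
      + (fw η (fun k => ps L (kn k)) U q k p + fw η (fun k => ps L (kn k)) U q p k))
      = fun k p q => ∑ r : Bool, ∑ s : Bool, ∑ t : Bool, (η (k, r) (p, s) (q, t) : ℂ) *
      Gs (ps L (kn k)) (ps L (kn p)) (ps L (kn q)) (kc k) (kc p) (kc q) (par r k (U k))
        (par s p (U p)) (par t q (U q)) := by
    funext k p q; exact fw_sym hη _ U k p q
  rw [e1] at h1
  set X : K3 → ℝ≥0∞ := fun k => ENNReal.ofReal (lo L U k) with hX
  set Y : K3 → ℝ≥0∞ := fun k => ENNReal.ofReal (hi L U k) with hY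
  have h2 : ∀ x : K3 × K3, ‖∑ r : Bool, ∑ s : Bool, ∑ t : Bool,
      (η (x.1, r) (x.2, s) (-x.1 - x.2, t) : ℂ) *
      Gs (ps L (kn x.1)) (ps L (kn x.2)) (ps L (kn (-x.1 - x.2))) (kc x.1) (kc x.2)
        (kc (-x.1 - x.2)) (par r x.1 (U x.1))
        (par s x.2 (U x.2)) (par t (-x.1 - x.2) (U (-x.1 - x.2)))‖ₑ
      ≤ ENNReal.ofReal (162 * H) * (X x.1 * Y x.2 * Y (-x.1 - x.2)
        + Y x.1 * X x.2 * Y (-x.1 - x.2) + Y x.1 * Y x.2 * X (-x.1 - x.2)) := by
    intro x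
    have h3 := flux_triad (η := η) (U := U) hL hH (k := x.1) (p := x.2) (q := -x.1 - x.2) (by abel)
      hdiv
    have a1 := lo_nonneg L U x.1
    have a2 := lo_nonneg L U x.2
    have a3 := lo_nonneg L U (-x.1 - x.2)
    have b1 := hi_nonneg L U x.1
    have b2 := hi_nonneg L U x.2
    have b3 := hi_nonneg L U (-x.1 - x.2)
    rw [← ofReal_norm]
    refine (ENNReal.ofReal_le_ofReal h3).trans (le_of_eq ?_)
    rw [ENNReal.ofReal_mul (by positivity), ENNReal.ofReal_add (by positivity) (by positivity),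
      ENNReal.ofReal_add (by positivity) (by positivity), ofReal3 a1 b2, ofReal3 b1 a2,
      ofReal3 b1 b2]
  have h4 : ‖(6 : ℂ) * T3s (fw η (fun k => ps L (kn k)) U)‖ₑ
      ≤ ENNReal.ofReal (162 * H) * (3 * tz X Y Y) := by
    rw [h1]
    refine enorm_T3s_le.trans ((ENNReal.tsum_le_tsum h2).trans ?_)
    rw [ENNReal.tsum_mul_left, ENNReal.tsum_add, ENNReal.tsum_add]
    have c1 : ∑' p : K3 × K3, X p.1 * Y p.2 * Y (-p.1 - p.2) = tz X Y Y := rfl
    have c2 : ∑' p : K3 × K3, Y p.1 * X p.2 * Y (-p.1 - p.2) = tz X Y Y := tz_comm12 _ _ _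
    have c3 : ∑' p : K3 × K3, Y p.1 * Y p.2 * X (-p.1 - p.2) = tz X Y Y := (tz_rot _ _ _).symm
    rw [c1, c2, c3]
    refine le_of_eq ?_
    ring
  have zlo : ∀ k ∉ S, lo L U k = 0 := by
    intro k hk
    unfold lo
    rw [hS k hk]
    simp [bt, par_at_zero]
  have zhi : ∀ k ∉ S, hi L U k = 0 := by
    intro k hk
    unfold hi
    rw [hS k hk]
    simp [bt, par_at_zero]
  have sX : ∑' k, X k = ENNReal.ofReal (∑ k ∈ S, lo L U k) := by
    rw [ENNReal.ofReal_sum_of_nonneg fun k _ => lo_nonneg L U k]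
    refine tsum_eq_sum fun k hk => ?_
    simp only [hX, zlo k hk, ENNReal.ofReal_zero]
  have sY : e2 Y * e2 Y = ENNReal.ofReal (∑ k ∈ S, hi L U k ^ 2) := by
    rw [← sq]
    unfold e2
    rw [enn_half_sq, ENNReal.ofReal_sum_of_nonneg fun k _ => sq_nonneg _]
    rw [tsum_eq_sum (s := S) fun k hk => by simp [hY, zhi k hk]]
    refine Finset.sum_congr rfl fun k _ => ?_
    rw [ENNReal.ofReal_pow (hi_nonneg L U k)]
  have g0 := gl_nonneg S L U
  have g1 := eg_nonneg S L U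
  have slo : 0 ≤ ∑ k ∈ S, lo L U k := Finset.sum_nonneg fun k _ => lo_nonneg L U k
  have shi : 0 ≤ ∑ k ∈ S, hi L U k ^ 2 := Finset.sum_nonneg fun k _ => sq_nonneg _
  have h5 : ENNReal.ofReal (6 * ‖T3s (fw η (fun k => ps L (kn k)) U)‖)
      ≤ ENNReal.ofReal (162 * H * (3 * ((∑ k ∈ S, lo L U k) * ∑ k ∈ S, hi L U k ^ 2))) := by
    rw [enorm_mul, ← ofReal_norm, ← ofReal_norm] at h4
    rw [ENNReal.ofReal_mul (by norm_num : (0 : ℝ) ≤ 6)]
    have e6 : ENNReal.ofReal ‖(6 : ℂ)‖ = ENNReal.ofReal 6 := by norm_num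
    rw [e6] at h4
    refine h4.trans ?_
    rw [ENNReal.ofReal_mul (p := 162 * H) (by positivity), ENNReal.ofReal_mul (p := 3) (by norm_num),
      ENNReal.ofReal_mul slo]
    have e3 : ENNReal.ofReal 3 = 3 := by norm_num
    rw [e3]
    gcongr
    refine (tz_l1 X Y).trans (le_of_eq ?_)
    rw [sX, sY]
  have h6 := (ENNReal.ofReal_le_ofReal_iff (by positivity)).1 h5
  have h7 : (∑ k ∈ S, lo L U k) * ∑ k ∈ S, hi L U k ^ 2 ≤ (3 * gl S L U) * (9 * eg S L U) :=
    mul_le_mul (sum_lo L U) (sum_hi L U) shi (by positivity)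
  have h8 : 162 * H * (3 * ((∑ k ∈ S, lo L U k) * ∑ k ∈ S, hi L U k ^ 2))
      ≤ 162 * H * (3 * ((3 * gl S L U) * (9 * eg S L U))) := by gcongr
  linarith

end Pool.Agent.H226.SW
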