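import Pool.Agent.H226.SW.Flux2

/-!
Galerkin approximations of the equations with a general dissipation `D`, and the weighted norms.
-/

open MeasureTheory Set Filter Topology
open scoped ENNReal InnerProductSpace NNReal
open H459R3.NS Pool.Agent.X96.HT Pool.Agent.X96.DM

namespace Pool.Agent.H226.SW

variable {η : Md → Md → Md → ℝ} {D : K3 → ℝ} {S : Finset K3}

/-- the vector field of the Galerkin approximation -/
noncomputable def Xf (η : Md → Md → Md → ℝ) (D : K3 → ℝ) (S : Finset K3) (x : FE S) : FE S :=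
  WithLp.toLp 2 fun p => -((D p.1 : ℝ) : ℂ) * x p - nonl η (xt S x) p.1 p.2

lemma xt_Xf (x : FE S) {k : K3} (h : k ∈ S) :
    xt S (Xf η D S x) k = -((D k : ℝ) : ℂ) • xt S x k - nonl η (xt S x) k := by
  funext i
  rw [xt_mem _ h, Pi.sub_apply, Pi.smul_apply, xt_mem _ h, smul_eq_mul]
  rfl

lemma Xf_mem (hη : IsWeight η) (hD : ∀ k, D (-k) = D k) (hneg : ∀ k ∈ S, -k ∈ S) {x : FE S}
    (hx : x ∈ WS S) : Xf η D S x ∈ WS S := by
  obtain ⟨H, hH⟩ := hη.bdd
  have hr : RapV (xt S x) := rapV_fin fun k hk => xt_not x hk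
  refine ⟨fun k => ?_, fun k => ?_⟩
  · by_cases h : k ∈ S
    · rw [xt_Xf x h, sub_eq_add_neg, dp_add, dp_smul, hx.1 k, mul_zero, zero_add]
      have := dp_smul (kc k) (nonl η (xt S x) k) (-1)
      rw [neg_one_smul] at this
      rw [this, dp_nonl hH (RapV.summable hr), mul_zero]
    · rw [xt_not _ h]; unfold dp; simp
  · by_cases h : k ∈ S
    · rw [xt_Xf x h, xt_Xf x (hneg k h), hD, hx.2 k, nonl_cj hη hx.2]
      funext i
      simp [cj, Complex.conj_ofReal]
    · have h' : -k ∉ S := fun h1 => h (by simpa using hneg _ h1)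
      rw [xt_not _ h, xt_not _ h']
      funext i; simp [cj]

/-- the vector field on the subspace -/
noncomputable def Xw (hη : IsWeight η) (hD : ∀ k, D (-k) = D k) (hneg : ∀ k ∈ S, -k ∈ S)
    (x : WS S) : WS S :=
  ⟨Xf η D S x, Xf_mem hη hD hneg x.2⟩

lemma Xf_lip {H : ℝ} (hH : ∀ a b c, |η a b c| ≤ H) {R : ℝ} {x y : FE S} (hx : ‖x‖ ≤ R)
    (hy : ‖y‖ ≤ R) : ‖Xf η D S x - Xf η D S y‖
      ≤ (∑ p : ↥S × Fin 3, (|D p.1| + S.card * (cB H * kn p.1 * (2 * R)))) * ‖x - y‖ := by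
  refine (norm_le_sum_fe _).trans ?_
  rw [Finset.sum_mul]
  refine Finset.sum_le_sum fun p _ => ?_
  have e : (Xf η D S x - Xf η D S y) p = -((D p.1 : ℝ) : ℂ) * (x - y) p
      - (nonl η (xt S x) p.1 - nonl η (xt S y) p.1) p.2 := by
    simp only [Xf, PiLp.sub_apply, Pi.sub_apply]
    ring
  rw [e]
  have h1 : ‖-((D p.1 : ℝ) : ℂ) * (x - y) p‖ ≤ |D p.1| * ‖x - y‖ := by
    rw [norm_mul, norm_neg, Complex.norm_real, Real.norm_eq_abs]
    gcongr
    exact PiLp.norm_apply_le (x - y) p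
  have h2 : ‖(nonl η (xt S x) p.1 - nonl η (xt S y) p.1) p.2‖
      ≤ (S.card * (cB H * kn p.1 * (2 * R))) * ‖x - y‖ := by
    refine (norm_le_pi_norm _ _).trans ?_
    refine nonl_sub_fin hH (fun k hk => xt_not x hk) (fun k hk => xt_not y hk)
      (fun k => (norm_xt_le x k).trans hx) (fun k => (norm_xt_le y k).trans hy) (fun k => ?_) _
    rw [← xt_sub]
    exact norm_xt_le _ k
  calc _ ≤ |D p.1| * ‖x - y‖ + (S.card * (cB H * kn p.1 * (2 * R))) * ‖x - y‖ :=
        (norm_sub_le _ _).trans (add_le_add h1 h2)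
    _ = _ := by ring

lemma Xf_energy (hη : IsWeight η) (hD0 : ∀ k, 0 ≤ D k) {x : FE S} (hx : x ∈ WS S) :
    ⟪Xf η D S x, x⟫_ℝ ≤ 0 := by
  have h1 := pair_fin hη (fun k hk => xt_not x hk) hx.1 hx.2 0
  rw [T3s_energy hη (rapV_fin fun k hk => xt_not x hk) hx.1, mul_zero] at h1
  simp only [pow_zero, one_mul] at h1
  rw [PiLp.inner_apply]
  have h2 : ∀ p : ↥S × Fin 3, ⟪Xf η D S x p, x p⟫_ℝ = -(D p.1 * ‖x p‖ ^ 2)
      - ((starRingEnd ℂ) (xt S x p.1 p.2) * nonl η (xt S x) p.1 p.2).re := by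
    intro p
    rw [Complex.inner]
    have e : xt S x p.1 p.2 = x p := by rw [xt_mem _ p.1.2]
    have e2 : (Xf η D S x) p = -((D p.1 : ℝ) : ℂ) * x p - nonl η (xt S x) p.1 p.2 := rfl
    rw [e2, e, ← Complex.normSq_eq_norm_sq, Complex.normSq_apply]
    simp only [map_sub, map_mul, map_neg, Complex.conj_ofReal, Complex.mul_re, Complex.sub_re,
      Complex.sub_im, Complex.neg_re, Complex.neg_im, Complex.ofReal_re, Complex.ofReal_im,
      Complex.conj_re, Complex.conj_im, Complex.mul_im]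
    ring
  simp_rw [h2]
  rw [Finset.sum_sub_distrib]
  have h3 : ∑ p : ↥S × Fin 3, ((starRingEnd ℂ) (xt S x p.1 p.2) * nonl η (xt S x) p.1 p.2).re = 0 := by
    rw [Fintype.sum_prod_type]
    have h4 := congrArg Complex.re h1
    rw [Complex.re_sum, Complex.zero_re] at h4
    rw [← h4, ← Finset.sum_coe_sort S]
    refine Finset.sum_congr rfl fun k _ => ?_
    rw [Complex.re_sum]
  rw [h3, sub_zero]
  refine Finset.sum_nonpos fun p _ => ?_
  have : 0 ≤ D p.1 * ‖x p‖ ^ 2 := mul_nonneg (hD0 _) (by positivity)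
  linarith

/-- The Galerkin approximation with frequencies in `S` on `[0, T]`. -/
structure GalD (η : Md → Md → Md → ℝ) (D : K3 → ℝ) (T : ℝ) (S : Finset K3) (a : ℝ → K3 → C3) :
    Prop where
  supp : ∀ t, ∀ k ∉ S, a t k = 0
  real : ∀ t k, a t (-k) = cj (a t k)
  div : ∀ t k, dp (kc k) (a t k) = 0
  deriv : ∀ t ∈ Icc 0 T, ∀ k ∈ S, ∀ i, HasDerivWithinAt (fun s => a s k i)
    (-((D k : ℝ) : ℂ) * a t k i - nonl η (a t) k i) (Icc 0 T) t

theorem exists_gal (hη : IsWeight η) (hD : ∀ k, D (-k) = D k) (hD0 : ∀ k, 0 ≤ D k)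
    (hneg : ∀ k ∈ S, -k ∈ S) {T : ℝ}
    (hT : 0 ≤ T) {U : K3 → C3} (hs : ∀ k ∉ S, U k = 0)
    (hdiv : ∀ k, dp (kc k) (U k) = 0) (hreal : ∀ k, U (-k) = cj (U k)) :
    ∃ a, GalD η D T S a ∧ a 0 = U := by
  obtain ⟨H, hH⟩ := hη.bdd
  have hH0 : 0 ≤ H := (abs_nonneg _).trans (hH (0, true) (0, true) (0, true))
  have hcB := cB_nonneg hH0
  have hx0 : xt S (WithLp.toLp 2 fun p : ↥S × Fin 3 => U p.1 p.2) = U := by
    funext k
    by_cases h : k ∈ S
    · funext i; rw [xt_mem _ h]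
    · rw [xt_not _ h, hs k h]
  let x0 : WS S := ⟨WithLp.toLp 2 fun p : ↥S × Fin 3 => U p.1 p.2, by
    refine ⟨fun k => ?_, fun k => ?_⟩
    · rw [hx0]; exact hdiv k
    · rw [hx0]; exact hreal k⟩
  obtain ⟨x, h0, hx, -⟩ := H772R2.NSR.exists_global (fun _ => Xw hη hD hneg) hT (fun R => by
    refine ⟨Real.toNNReal (∑ p : ↥S × Fin 3, (|D p.1|
      + S.card * (cB H * kn p.1 * (2 * |R|)))), fun t _ => ?_⟩
    refine LipschitzOnWith.of_dist_le_mul fun y hy z hz => ?_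
    rw [Real.coe_toNNReal _ (Finset.sum_nonneg fun p _ => by
      have := kn_nonneg (p.1 : K3); positivity)]
    rw [mem_closedBall_zero_iff] at hy hz
    rw [dist_eq_norm, dist_eq_norm]
    exact Xf_lip hH (hy.trans (le_abs_self R)) (hz.trans (le_abs_self R)))
    (fun y => continuousOn_const) x0 (c := 0) le_rfl
    (fun t _ y => Xf_energy hη hD0 y.2)
  refine ⟨fun t => xt S (x t), ⟨fun t k hk => xt_not _ hk, fun t k => (x t).2.2 k,
    fun t k => (x t).2.1 k, ?_⟩, ?_⟩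
  · intro t ht k hk i
    have h1 : HasDerivWithinAt (fun s => (x s : FE S)) ((Xw hη hD hneg (x t) : WS S) : FE S)
        (Icc 0 T) t :=
      (WS S).subtypeL.hasFDerivAt.comp_hasDerivWithinAt t (hx t ht)
    have h2 := (((EuclideanSpace.proj (𝕜 := ℂ) ((⟨k, hk⟩, i) : ↥S × Fin 3)).restrictScalars
      ℝ).hasFDerivAt).comp_hasDerivWithinAt t h1
    refine HasDerivWithinAt.congr_deriv (f := fun s => xt S (x s) k i) (h2.congr_of_mem ?_ ht) ?_
    · intro s _
      simp only [xt_mem _ hk]; rfl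
    · show (Xf η D S (x t)) (⟨k, hk⟩, i) = _
      rw [xt_mem _ hk]; rfl
  · simp only [h0]
    exact hx0

/-! ### Weighted norms -/

/-- the pairing with the nonlinear term, with an even weight -/
lemma pair_w (hη : IsWeight η) {U : K3 → C3} (hs : ∀ k ∉ S, U k = 0)
    (hdiv : ∀ k, dp (kc k) (U k) = 0) (hreal : ∀ k, U (-k) = cj (U k)) {w : K3 → ℝ}
    (hw : ∀ k, w (-k) = w k) :
    ∑ k ∈ S, (w k : ℂ) * ∑ i, (starRingEnd ℂ) (U k i) * nonl η U k i
      = 2 * Real.pi * T3s (fw η w U) := by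
  obtain ⟨H, hH⟩ := hη.bdd
  have hU := rapV_fin hs
  have hS := S3s_fin (η := η) w hs
  have h1 : HasSum (fun p : K3 × K3 => 2 * Real.pi * fw η w U p.1 p.2 (-p.1 - p.2))
      (2 * Real.pi * T3s (fw η w U)) :=
    (Summable.hasSum hS).mul_left _
  have hU0 := RapV.summable hU
  have h2 : ∀ k, HasSum (fun p => 2 * Real.pi * fw η w U k p (-k - p))
      ((w k : ℂ) * dp (U k) (nonl η U (-k))) := by
    intro k
    have hs := (bil_summable hH hU0 hU0 (-k)).of_norm
    have h3 : HasSum (fun p => dp (U k) (bil η (-k) p (-k - p) (U p) (U (-k - p))))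
        (dp (U k) (nonl η U (-k))) := by
      have hs' : Summable fun p => dp (U k) (bil η (-k) p (-k - p) (U p) (U (-k - p))) := by
        have hi : ∀ i, Summable fun p => bil η (-k) p (-k - p) (U p) (U (-k - p)) i :=
          fun i => (Pi.summable.1 hs) i
        unfold dp
        exact (((hi 0).mul_left _).add ((hi 1).mul_left _)).add ((hi 2).mul_left _)
      have := hs'.hasSum
      rwa [← dp_tsum hs] at this
    have h4 := h3.mul_left (w k : ℂ)
    have e : (fun p => 2 * Real.pi * fw η w U k p (-k - p))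
        = fun p => (w k : ℂ) * dp (U k) (bil η (-k) p (-k - p) (U p) (U (-k - p))) := by
      funext p
      rw [dp_bil_eq k p hdiv]
      unfold fw
      ring
    rw [e]
    exact h4
  have h5 := h1.prod_fiberwise h2
  have h6 := (Equiv.neg K3).hasSum_iff.2 h5
  have e : ((fun k => (w k : ℂ) * dp (U k) (nonl η U (-k))) ∘ ⇑(Equiv.neg K3))
      = fun k => (w k : ℂ) * ∑ i, (starRingEnd ℂ) (U k i) * nonl η U k i := by
    funext k
    simp only [Function.comp_apply, Equiv.neg_apply, neg_neg, hw]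
    rw [hreal k]
    congr 1
    rw [Fin.sum_univ_three]
    rfl
  rw [e] at h6
  refine HasSum.unique ?_ h6
  refine hasSum_sum_of_ne_finset_zero fun k hk => ?_
  rw [hs k hk]; simp

/-- the weighted norm -/
noncomputable def nw (S : Finset K3) (w : K3 → ℝ) (U : K3 → C3) : ℝ :=
  ∑ k ∈ S, w k * ∑ i, ‖U k i‖ ^ 2

lemma GalD.nw_deriv (hη : IsWeight η) {T : ℝ} {a : ℝ → K3 → C3} (h : GalD η D T S a)
    {w : K3 → ℝ} (hw : ∀ k, w (-k) = w k) {t : ℝ} (ht : t ∈ Icc 0 T) :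
    HasDerivWithinAt (fun s => nw S w (a s))
      (-(2 * nw S (fun k => w k * D k) (a t)) - 4 * Real.pi * (T3s (fw η w (a t))).re)
      (Icc 0 T) t := by
  have h1 := pair_w hη (h.supp t) (h.div t) (h.real t) hw
  have h2 : ∀ k ∈ S, ∀ i, HasDerivWithinAt (fun s => ‖a s k i‖ ^ 2)
      (-(2 * D k * ‖a t k i‖ ^ 2)
        - 2 * ((starRingEnd ℂ) (a t k i) * nonl η (a t) k i).re) (Icc 0 T) t := by
    intro k hk i
    refine (h.deriv t ht k hk i).norm_sq.congr_deriv ?_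
    rw [Complex.inner, ← Complex.normSq_eq_norm_sq, Complex.normSq_apply]
    simp only [Complex.mul_re, Complex.sub_re, Complex.sub_im, Complex.neg_re, Complex.neg_im,
      Complex.ofReal_re, Complex.ofReal_im, Complex.conj_re, Complex.conj_im, Complex.mul_im]
    ring
  have h3 : HasDerivWithinAt (fun s => ∑ k ∈ S, w k * ∑ i, ‖a s k i‖ ^ 2)
      (∑ k ∈ S, w k * ∑ i, (-(2 * D k * ‖a t k i‖ ^ 2)
        - 2 * ((starRingEnd ℂ) (a t k i) * nonl η (a t) k i).re)) (Icc 0 T) t :=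
    HasDerivWithinAt.fun_sum fun k hk =>
      (HasDerivWithinAt.fun_sum fun i _ => h2 k hk i).const_mul _
  refine h3.congr_deriv ?_
  have h4 := congrArg Complex.re h1
  rw [Complex.re_sum] at h4
  have h5 : (2 * (Real.pi : ℂ) * T3s (fw η w (a t))).re
      = 2 * Real.pi * (T3s (fw η w (a t))).re := by
    have : (2 * (Real.pi : ℂ)) = ((2 * Real.pi : ℝ) : ℂ) := by push_cast; ring
    rw [this, Complex.re_ofReal_mul]
  rw [h5] at h4
  have h6 : ∀ k, ((w k : ℂ) * ∑ i, (starRingEnd ℂ) (a t k i) * nonl η (a t) k i).re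
      = w k * ∑ i, ((starRingEnd ℂ) (a t k i) * nonl η (a t) k i).re := by
    intro k
    rw [Complex.re_ofReal_mul, Complex.re_sum]
  simp_rw [h6] at h4
  have h7 : 4 * Real.pi * (T3s (fw η w (a t))).re
      = 2 * ∑ k ∈ S, w k * ∑ i, ((starRingEnd ℂ) (a t k i) * nonl η (a t) k i).re := by
    rw [h4]; ring
  rw [h7]
  unfold nw
  rw [Finset.mul_sum, Finset.mul_sum, ← Finset.sum_neg_distrib, ← Finset.sum_sub_distrib]
  refine Finset.sum_congr rfl fun k _ => ?_
  rw [Finset.sum_sub_distrib, ← Finset.mul_sum, Finset.sum_neg_distrib, ← Finset.mul_sum]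
  ring

end Pool.Agent.H226.SW
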