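import Pool.Agent.H226.SW.Est

/-!
The limit of the Galerkin approximations.
-/

open MeasureTheory Set Filter Topology
open scoped ENNReal InnerProductSpace NNReal
open H459R3.NS Pool.Agent.X96.HT Pool.Agent.X96.DM

namespace Pool.Agent.H226.SW

variable {η : Md → Md → Md → ℝ} {D : K3 → ℝ} {S : Finset K3} {Cd : ℝ} {r : ℕ}

/-- polynomial growth -/
def Pol (Cd : ℝ) (r : ℕ) (D : K3 → ℝ) : Prop := ∀ k, |D k| ≤ Cd * (1 + kn k) ^ r

lemma Pol.nonneg (h : Pol Cd r D) : 0 ≤ Cd := by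
  have := (abs_nonneg _).trans (h 0)
  rw [kn_zero, add_zero, one_pow, mul_one] at this
  exact this

/-- the majorant -/
noncomputable def bw (r : ℕ) (C : ℝ) (k : K3) : ℝ := C * (mj k / (N k : ℝ) ^ (r + 2))

lemma bw_nonneg {C : ℝ} (hC : 0 ≤ C) (k : K3) : 0 ≤ bw r C k := by
  unfold bw
  have := mj_nonneg k
  positivity

lemma mj_zero : mj 0 = 0 := by unfold mj; rw [if_pos rfl]

lemma bw_le {C : ℝ} (hC : 0 ≤ C) (k : K3) : bw r C k ≤ be6 C k := by
  unfold bw be6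
  by_cases hk : k = 0
  · subst hk; rw [mj_zero]; simp
  · have h1 := N_pos hk
    have h2 := mj_nonneg k
    gcongr
    omega

lemma mj_le_one (k : K3) : mj k ≤ 1 := by
  unfold mj
  split_ifs with h
  · norm_num
  · have := N_pos h
    rw [div_le_one (by positivity)]
    exact one_le_pow₀ this

lemma D_bw (hD : Pol Cd r D) {C : ℝ} (hC : 0 ≤ C) (k : K3) : |D k| * bw r C k ≤ Cd * 3 ^ r * C := by
  have hCd := hD.nonneg
  by_cases hk : k = 0
  · subst hk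
    unfold bw
    rw [mj_zero]
    simp only [zero_div, mul_zero]
    positivity
  · have h1 := N_pos hk
    have h2 := mj_nonneg k
    have h3 := mj_le_one k
    have h4 := kn_le_N k
    have h5 := kn_nonneg k
    have h6 : (1 + kn k) ^ r ≤ (3 * N k) ^ r := by
      gcongr
      linarith
    unfold bw
    have h7 : (3 * (N k : ℝ)) ^ r * (mj k / (N k : ℝ) ^ (r + 2)) ≤ 3 ^ r := by
      rw [mul_pow, pow_add]
      have e : 3 ^ r * (N k : ℝ) ^ r * (mj k / ((N k : ℝ) ^ r * (N k : ℝ) ^ 2))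
          = 3 ^ r * (mj k / (N k : ℝ) ^ 2) := by field_simp
      rw [e]
      have : mj k / (N k : ℝ) ^ 2 ≤ 1 := by
        rw [div_le_one (by positivity)]
        exact h3.trans (one_le_pow₀ h1)
      calc 3 ^ r * (mj k / (N k : ℝ) ^ 2) ≤ 3 ^ r * 1 := by gcongr
        _ = _ := mul_one _
    calc |D k| * (C * (mj k / (N k : ℝ) ^ (r + 2)))
        ≤ (Cd * (3 * N k) ^ r) * (C * (mj k / (N k : ℝ) ^ (r + 2))) := by
          gcongr
          exact (hD k).trans (by gcongr)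
      _ = Cd * C * ((3 * (N k : ℝ)) ^ r * (mj k / (N k : ℝ) ^ (r + 2))) := by ring
      _ ≤ Cd * C * 3 ^ r := by gcongr
      _ = _ := by ring

/-- uniform bounds of all weighted norms -/
lemma le_bw {B : ℕ → ℝ} {x : C3} {k : K3} (h0 : k = 0 → x = 0)
    (h : ∀ m, kn k ^ m * ‖x‖ ^ 2 ≤ B m) : ‖x‖ ≤ bw r (Real.sqrt (B (2 * (r + 6)))) k := by
  by_cases hk : k = 0
  · rw [h0 hk, norm_zero]; exact bw_nonneg (Real.sqrt_nonneg _) _
  · have h1 := N_pos hk
    have h2 := N_le_kn k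
    have h3 := h (2 * (r + 6))
    have h4 : (N k : ℝ) ^ (r + 6) * ‖x‖ ≤ Real.sqrt (B (2 * (r + 6))) := by
      refine Real.le_sqrt_of_sq_le (le_trans ?_ h3)
      have : ((N k : ℝ) ^ (r + 6) * ‖x‖) ^ 2 = (N k : ℝ) ^ (2 * (r + 6)) * ‖x‖ ^ 2 := by ring
      rw [this]
      gcongr
    unfold bw mj
    rw [if_neg hk]
    rw [div_div, ← pow_add, mul_one_div, le_div_iff₀ (by positivity), mul_comm,
      show 4 + (r + 2) = r + 6 by ring]
    exact h4

/-- the right-hand side -/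
noncomputable def Fk (η : Md → Md → Md → ℝ) (D : K3 → ℝ) (U : K3 → C3) (k : K3) : C3 :=
  -((D k : ℝ) : ℂ) • U k - nonl η U k

lemma Fk_apply (U : K3 → C3) (k : K3) (i : Fin 3) :
    Fk η D U k i = -((D k : ℝ) : ℂ) * U k i - nonl η U k i := rfl

lemma GalD.vec {T : ℝ} {a : ℝ → K3 → C3} (h : GalD η D T S a) {t : ℝ} (ht : t ∈ Icc 0 T) {k : K3}
    (hk : k ∈ S) : HasDerivWithinAt (fun s => a s k) (Fk η D (a t) k) (Icc 0 T) t :=
  hasDerivWithinAt_pi.2 fun i => h.deriv t ht k hk i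

/-- the Lipschitz constant -/
noncomputable def LL (Cd : ℝ) (r : ℕ) (H C : ℝ) : ℝ :=
  Cd * 3 ^ r * C + cB H * (2 * ((∑' p, kn p * be6 C p) * ∑' p, be6 C p))

noncomputable def L2 (D : K3 → ℝ) (Cd : ℝ) (r : ℕ) (H C : ℝ) (k : K3) : ℝ :=
  |D k| * LL Cd r H C + cB H * kn k * (2 * (LL Cd r H C * ∑' p, be6 C p))

lemma norm_visc (k : K3) (x : C3) : ‖-((D k : ℝ) : ℂ) • x‖ = |D k| * ‖x‖ := by
  rw [norm_smul, norm_neg, Complex.norm_real, Real.norm_eq_abs]

lemma norm_Fk_le {H : ℝ} (hH : ∀ a b c, |η a b c| ≤ H) (hD : Pol Cd r D) {U : K3 → C3} {C : ℝ}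
    (hC : 0 ≤ C) (hU : ∀ k, ‖U k‖ ≤ bw r C k) (k : K3) : ‖Fk η D U k‖ ≤ LL Cd r H C := by
  unfold Fk LL
  refine (norm_sub_le _ _).trans (add_le_add ?_
    (norm_nonl_le hH hC (fun k => (hU k).trans (bw_le hC k)) k))
  rw [norm_visc]
  calc |D k| * ‖U k‖ ≤ |D k| * bw r C k := by gcongr; exact hU k
    _ ≤ _ := D_bw hD hC k

lemma GalD.lip {T : ℝ} {a : ℝ → K3 → C3} (h : GalD η D T S a) {H : ℝ}
    (hH : ∀ a b c, |η a b c| ≤ H) (hD : Pol Cd r D) {C : ℝ} (hC : 0 ≤ C)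
    (hU : ∀ t ∈ Icc 0 T, ∀ k, ‖a t k‖ ≤ bw r C k) {s t : ℝ} (hs : s ∈ Icc 0 T) (ht : t ∈ Icc 0 T)
    (k : K3) : ‖a s k - a t k‖ ≤ LL Cd r H C * |s - t| := by
  by_cases hk : k ∈ S
  · have := (convex_Icc 0 T).norm_image_sub_le_of_norm_hasDerivWithin_le
      (f := fun s => a s k) (f' := fun s => Fk η D (a s) k) (C := LL Cd r H C)
      (fun r hr => h.vec hr hk) (fun r hr => norm_Fk_le hH hD hC (hU r hr) k) ht hs
    simpa using this
  · rw [h.supp s k hk, h.supp t k hk, sub_zero, norm_zero]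
    have := norm_Fk_le hH hD hC (hU s hs) k
    have h2 := (norm_nonneg _).trans this
    positivity

lemma Fk_sub_le {H : ℝ} (hH : ∀ a b c, |η a b c| ≤ H) {U W : K3 → C3} {C : ℝ}
    (hC : 0 ≤ C)
    (hU : ∀ k, ‖U k‖ ≤ bw r C k) (hW : ∀ k, ‖W k‖ ≤ bw r C k) {d : ℝ}
    (hd : ∀ k, ‖U k - W k‖ ≤ LL Cd r H C * d) (k : K3) :
    ‖Fk η D U k - Fk η D W k‖ ≤ L2 D Cd r H C k * d := by
  have e : Fk η D U k - Fk η D W k = -((D k : ℝ) : ℂ) • (U k - W k)
      - (nonl η U k - nonl η W k) := by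
    unfold Fk; rw [smul_sub]; abel
  rw [e]
  refine (norm_sub_le _ _).trans ?_
  have h1 := norm_nonl_sub_le hH (be6_summable hC) (fun k => (hU k).trans (bw_le hC k))
    (fun k => (hW k).trans (bw_le hC k)) hd k
  rw [norm_visc]
  calc |D k| * ‖U k - W k‖ + ‖nonl η U k - nonl η W k‖
      ≤ |D k| * (LL Cd r H C * d)
        + cB H * kn k * (2 * (LL Cd r H C * d * ∑' p, be6 C p)) := by
        gcongr
        exact hd k
    _ = _ := by unfold L2; ring

lemma GalD.taylor {T : ℝ} {a : ℝ → K3 → C3} (h : GalD η D T S a) {H : ℝ}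
    (hH : ∀ a b c, |η a b c| ≤ H) (hD : Pol Cd r D) {C : ℝ} (hC : 0 ≤ C)
    (hU : ∀ t ∈ Icc 0 T, ∀ k, ‖a t k‖ ≤ bw r C k) {s t : ℝ} (hs : s ∈ Icc 0 T) (ht : t ∈ Icc 0 T)
    {k : K3} (hk : k ∈ S) :
    ‖a s k - a t k - (s - t) • Fk η D (a t) k‖ ≤ L2 D Cd r H C k * |s - t| * |s - t| := by
  have hsub : uIcc t s ⊆ Icc 0 T := uIcc_subset_Icc ht hs
  have h1 : ∀ r ∈ uIcc t s, HasDerivWithinAt (fun r => a r k - r • Fk η D (a t) k)
      (Fk η D (a r) k - (1 : ℝ) • Fk η D (a t) k) (uIcc t s) r := fun r hr =>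
    ((h.vec (hsub hr) hk).mono hsub).sub ((hasDerivWithinAt_id r _).smul_const _)
  have h2 : ∀ x ∈ uIcc t s, ‖Fk η D (a x) k - (1 : ℝ) • Fk η D (a t) k‖
      ≤ L2 D Cd r H C k * |s - t| := by
    intro x hx
    rw [one_smul]
    refine (Fk_sub_le (D := D) hH hC (hU x (hsub hx)) (hU t ht) (d := |x - t|)
      (fun p => h.lip hH hD hC hU (hsub hx) ht p) k).trans ?_
    have h3 : |x - t| ≤ |s - t| := abs_sub_left_of_mem_uIcc hx
    have h4 : 0 ≤ L2 D Cd r H C k := by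
      have h5 := Fk_sub_le (D := D) (Cd := Cd) hH hC (hU t ht) (hU t ht) (d := 1) (fun p => by
        rw [sub_self, norm_zero, mul_one]
        exact (norm_nonneg _).trans (norm_Fk_le hH hD hC (hU t ht) 0)) k
      rw [sub_self, norm_zero, mul_one] at h5
      exact h5
    gcongr
  have h5 := (convex_uIcc t s).norm_image_sub_le_of_norm_hasDerivWithin_le h1 h2 left_mem_uIcc
    right_mem_uIcc
  have e : a s k - s • Fk η D (a t) k - (a t k - t • Fk η D (a t) k)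
      = a s k - a t k - (s - t) • Fk η D (a t) k := by
    rw [sub_smul]; abel
  rw [e, Real.norm_eq_abs] at h5
  exact h5

/-! ### The limit -/

open Classical in
/-- the frequencies of the approximations -/
noncomputable def FL (Λ : Set K3) (n : ℕ) : Finset K3 := (Fn n).filter (· ∈ Λ)

lemma mem_FL {Λ : Set K3} {n : ℕ} {k : K3} : k ∈ FL Λ n ↔ (k ≠ 0 ∧ N k ≤ n) ∧ k ∈ Λ := by
  classical
  unfold FL
  rw [Finset.mem_filter, mem_Fn]

lemma FL_neg {Λ : Set K3} (hΛ : ∀ k ∈ Λ, -k ∈ Λ) {n : ℕ} : ∀ k ∈ FL Λ n, -k ∈ FL Λ n := by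
  intro k hk
  rw [mem_FL] at hk ⊢
  exact ⟨⟨neg_ne_zero.2 hk.1.1, by rw [N_neg]; exact hk.1.2⟩, hΛ k hk.2⟩

lemma zero_notMem_FL {Λ : Set K3} {n : ℕ} : (0 : K3) ∉ FL Λ n := fun h => (mem_FL.1 h).1.1 rfl

lemma FL_sub (Λ : Set K3) (n : ℕ) : (↑(FL Λ n) : Set K3) ⊆ Λ := fun _ hk =>
  (mem_FL.1 (Finset.mem_coe.1 hk)).2

open Classical in
/-- truncation -/
noncomputable def tS (S : Finset K3) (U : K3 → C3) (k : K3) : C3 := if k ∈ S then U k else 0

lemma tS_not (U : K3 → C3) {k : K3} (h : k ∉ S) : tS S U k = 0 := if_neg h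

lemma tS_mem (U : K3 → C3) {k : K3} (h : k ∈ S) : tS S U k = U k := if_pos h

lemma norm_tS_le (S : Finset K3) (U : K3 → C3) (k : K3) (i : Fin 3) :
    ‖tS S U k i‖ ≤ ‖U k i‖ := by
  by_cases h : k ∈ S
  · rw [tS_mem U h]
  · rw [tS_not U h]; simp

lemma hn_tS_le {U : K3 → C3} (hU : RapV U) (S : Finset K3) (m : ℕ) : hn m (tS S U) ≤ hn m U := by
  unfold hn
  refine Summable.tsum_le_tsum (fun k => ?_) ?_ (hU.hn_summable m)
  · have := kn_nonneg k
    gcongr with i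
    exact norm_tS_le S U k i
  · exact (rapV_fin (S := S) fun k hk => tS_not U hk).hn_summable m

theorem exists_lim (hη : IsWeight η) (hDn : ∀ k, D (-k) = D k) (hD0 : ∀ k, 0 ≤ D k)
    (hD : Pol Cd r D) {Λ : Set K3} (hΛ : ∀ k ∈ Λ, -k ∈ Λ) (hΛ0 : (0 : K3) ∉ Λ) {U₀ : K3 → C3}
    (hU : RapV U₀) {B : ℕ → ℝ}
    (hap : ∀ S : Finset K3, (0 : K3) ∉ S → ↑S ⊆ Λ → ∀ (T : ℝ) (a : ℝ → K3 → C3),
      GalD η D T S a → (∀ n, hn n (a 0) ≤ hn n U₀) → ∀ t ∈ Icc 0 T, ∀ n, hn n (a t) ≤ B n)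
    (hsupp : ∀ k ∉ Λ, U₀ k = 0) (hdiv : ∀ k, dp (kc k) (U₀ k) = 0)
    (hreal : ∀ k, U₀ (-k) = cj (U₀ k)) :
    ∃ a : ℝ → K3 → C3, a 0 = U₀ ∧ (∀ t k, a t (-k) = cj (a t k)) ∧
      (∀ t k, dp (kc k) (a t k) = 0) ∧ (∀ t, ∀ k ∉ Λ, a t k = 0) ∧
      (∀ t k m, kn k ^ m * ‖a t k‖ ^ 2 ≤ B m) ∧ (∀ k, Continuous fun t => a t k) ∧
      (∀ t, 0 < t → ∀ k ∈ Λ, HasDerivAt (fun s => a s k) (Fk η D (a t) k) t) := by
  obtain ⟨H, hH⟩ := hη.bdd
  have hH0 : 0 ≤ H := (abs_nonneg _).trans (hH (0, true) (0, true) (0, true))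
  have hex : ∀ n : ℕ, ∃ a, GalD η D n (FL Λ n) a ∧ a 0 = tS (FL Λ n) U₀ := by
    intro n
    refine exists_gal hη hDn hD0 (FL_neg hΛ) (Nat.cast_nonneg n) (fun k hk => tS_not U₀ hk)
      (fun k => ?_) fun k => ?_
    · by_cases hk : k ∈ FL Λ n
      · rw [tS_mem _ hk]; exact hdiv k
      · rw [tS_not _ hk]; unfold dp; simp
    · by_cases hk : k ∈ FL Λ n
      · rw [tS_mem _ hk, tS_mem _ (FL_neg hΛ k hk)]; exact hreal k
      · have hk' : -k ∉ FL Λ n := fun h => hk (by simpa using FL_neg hΛ _ h)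
        rw [tS_not _ hk, tS_not _ hk']; funext i; simp [cj]
  choose A hA hA0 using hex
  set C6 : ℝ := Real.sqrt (B (2 * (r + 6))) with hC6
  have hC60 : 0 ≤ C6 := Real.sqrt_nonneg _
  have hbd : ∀ n : ℕ, ∀ t ∈ Icc (0 : ℝ) n, ∀ k m, kn k ^ m * ‖A n t k‖ ^ 2 ≤ B m := by
    intro n t ht k m
    refine (pow_sq_le_hn (rapV_fin ((hA n).supp t)) m k).trans ?_
    refine hap (FL Λ n) zero_notMem_FL (FL_sub Λ n) n (A n) (hA n) (fun m => ?_) t ht m
    rw [hA0]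
    exact hn_tS_le hU _ m
  have hbe : ∀ n : ℕ, ∀ t ∈ Icc (0 : ℝ) n, ∀ k, ‖A n t k‖ ≤ bw r C6 k := by
    intro n t ht k
    refine le_bw (fun hk => ?_) fun m => hbd n t ht k m
    rw [hk]; exact (hA n).supp t 0 zero_notMem_FL
  set 𝓕 : Ultrafilter ℕ := hyperfilter ℕ with h𝓕
  have hev : ∀ t : ℝ, 0 ≤ t → ∀ᶠ n : ℕ in (𝓕 : Filter ℕ), t ∈ Icc (0 : ℝ) n := by
    intro t ht
    have : ∀ᶠ n : ℕ in atTop, t ≤ n := eventually_ge_atTop ⌈t⌉₊ |>.mono fun n hn => Nat.ceil_le.1 hn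
    have h2 := Nat.hyperfilter_le_atTop this
    exact Filter.Eventually.mono h2 fun n hn => ⟨ht, hn⟩
  have hlim : ∀ (t : ℝ) (k : K3), ∃ x, Tendsto (fun n => A n (max t 0) k) 𝓕 (𝓝 x) := by
    intro t k
    have hc : IsCompact (Metric.closedBall (0 : C3) (bw r C6 k)) := isCompact_closedBall _ _
    obtain ⟨x, -, hx⟩ := hc.ultrafilter_le_nhds (𝓕.map fun n => A n (max t 0) k) (by
      rw [le_principal_iff]
      show ∀ᶠ n in (𝓕 : Filter ℕ), A n (max t 0) k ∈ Metric.closedBall (0 : C3) (bw r C6 k)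
      refine (hev (max t 0) (le_max_right _ _)).mono fun n hn => ?_
      rw [mem_closedBall_zero_iff]
      exact hbe n _ hn k)
    exact ⟨x, hx⟩
  choose a ha using hlim
  have hmax : ∀ t, a (max t 0) = a t := by
    intro t
    funext k
    have h1 := ha (max t 0) k
    rw [max_eq_left (le_max_right t 0)] at h1
    exact tendsto_nhds_unique h1 (ha t k)
  have hAe : ∀ t, ∀ᶠ n in (𝓕 : Filter ℕ), ∀ k, ‖A n (max t 0) k‖ ≤ bw r C6 k := fun t =>
    (hev (max t 0) (le_max_right _ _)).mono fun n hn k => hbe n _ hn k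
  have hF : ∀ t k, Tendsto (fun n => Fk η D (A n (max t 0)) k) 𝓕 (𝓝 (Fk η D (a t) k)) := by
    intro t k
    unfold Fk
    refine Tendsto.sub (Tendsto.const_smul (ha t k) _) ?_
    exact tendsto_nonl hH (be6_summable hC60) (be6_nonneg hC60)
      ((hAe t).mono fun n hn k => (hn k).trans (bw_le hC60 k)) (ha t) k
  have hmem : ∀ k : K3, k ∈ Λ → ∀ᶠ n in (𝓕 : Filter ℕ), k ∈ FL Λ n := by
    intro k hk
    have hk0 : k ≠ 0 := fun e => hΛ0 (e ▸ hk)
    have : ∀ᶠ n : ℕ in atTop, N k ≤ n := eventually_ge_atTop (N k)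
    exact Filter.Eventually.mono (Nat.hyperfilter_le_atTop this) fun n hn =>
      mem_FL.2 ⟨⟨hk0, hn⟩, hk⟩
  have haΛ : ∀ t, ∀ k ∉ Λ, a t k = 0 := by
    intro t k hk
    refine tendsto_nhds_unique (ha t k) ?_
    have : (fun n => A n (max t 0) k) = fun _ => 0 := by
      funext n; exact (hA n).supp _ k fun h => hk (FL_sub Λ n (Finset.mem_coe.2 h))
    rw [this]; exact tendsto_const_nhds
  have hLip : ∀ s t k, 0 ≤ s → 0 ≤ t → ‖a s k - a t k‖ ≤ LL Cd r H C6 * |s - t| := by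
    intro s t k hs ht
    have h1 : Tendsto (fun n => ‖A n (max s 0) k - A n (max t 0) k‖) 𝓕 (𝓝 ‖a s k - a t k‖) :=
      ((ha s k).sub (ha t k)).norm
    refine le_of_tendsto h1 ?_
    filter_upwards [hev s hs, hev t ht] with n hn1 hn2
    rw [max_eq_left hs, max_eq_left ht]
    exact (hA n).lip hH hD hC60 (hbe n) hn1 hn2 k
  have hTay : ∀ s t, ∀ k ∈ Λ, 0 ≤ s → 0 ≤ t → ‖a s k - a t k - (s - t) • Fk η D (a t) k‖
      ≤ L2 D Cd r H C6 k * |s - t| * |s - t| := by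
    intro s t k hk hs ht
    have h1 : Tendsto (fun n => ‖A n (max s 0) k - A n (max t 0) k
          - (s - t) • Fk η D (A n (max t 0)) k‖) 𝓕
          (𝓝 ‖a s k - a t k - (s - t) • Fk η D (a t) k‖) :=
        (((ha s k).sub (ha t k)).sub (Tendsto.const_smul (hF t k) _)).norm
    refine le_of_tendsto h1 ?_
    filter_upwards [hev s hs, hev t ht, hmem k hk] with n hn1 hn2 hn3
    rw [max_eq_left hs, max_eq_left ht]
    exact (hA n).taylor hH hD hC60 (hbe n) hn1 hn2 hn3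
  refine ⟨a, ?_, ?_, ?_, haΛ, ?_, ?_, ?_⟩
  · funext k
    refine tendsto_nhds_unique (ha 0 k) ?_
    rw [max_self]
    by_cases hk : k ∈ Λ
    · refine tendsto_const_nhds.congr' ?_
      filter_upwards [hmem k hk] with n hn
      rw [hA0, tS_mem _ hn]
    · have : (fun n => A n 0 k) = fun _ => U₀ k := by
        funext n; rw [hsupp k hk]
        exact (hA n).supp _ k fun h => hk (FL_sub Λ n (Finset.mem_coe.2 h))
      rw [this]; exact tendsto_const_nhds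
  · intro t k
    have hcj : Continuous cj := by
      unfold cj
      exact continuous_pi fun i => Complex.continuous_conj.comp (continuous_apply i)
    refine tendsto_nhds_unique (ha t (-k)) ?_
    have h1 := (hcj.tendsto (a t k)).comp (ha t k)
    refine h1.congr fun n => ?_
    exact ((hA n).real _ k).symm
  · intro t k
    have hdp : Continuous fun x : C3 => dp (kc k) x := by unfold dp; fun_prop
    refine tendsto_nhds_unique ((hdp.tendsto (a t k)).comp (ha t k)) ?_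
    have : ((fun x : C3 => dp (kc k) x) ∘ fun n => A n (max t 0) k) = fun _ => 0 := by
      funext n; exact (hA n).div _ k
    rw [this]; exact tendsto_const_nhds
  · intro t k m
    have h1 : Tendsto (fun n => kn k ^ m * ‖A n (max t 0) k‖ ^ 2) 𝓕 (𝓝 (kn k ^ m * ‖a t k‖ ^ 2)) :=
      (((ha t k).norm).pow 2).const_mul _
    refine le_of_tendsto h1 ?_
    filter_upwards [hev (max t 0) (le_max_right _ _)] with n hn
    exact hbd n _ hn k m
  · intro k
    have hl0 : 0 ≤ LL Cd r H C6 := by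
      have h1 : Tendsto (fun n => ‖Fk η D (A n (max 0 0)) k‖) 𝓕 (𝓝 ‖Fk η D (a 0) k‖) := (hF 0 k).norm
      have h2 : ‖Fk η D (a 0) k‖ ≤ LL Cd r H C6 := le_of_tendsto h1 (by
        filter_upwards [hAe 0] with n hn
        exact norm_Fk_le hH hD hC60 hn k)
      exact (norm_nonneg _).trans h2
    have h1 : ∀ s t, ‖a s k - a t k‖ ≤ LL Cd r H C6 * |s - t| := by
      intro s t
      rw [← hmax s, ← hmax t]
      refine (hLip _ _ k (le_max_right _ _) (le_max_right _ _)).trans ?_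
      refine mul_le_mul_of_nonneg_left ?_ hl0
      exact abs_max_sub_max_le_abs _ _ _
    have h2 : LipschitzWith (Real.toNNReal (LL Cd r H C6)) fun t => a t k :=
      LipschitzWith.of_dist_le_mul fun s t => by
        rw [Real.coe_toNNReal _ hl0, dist_eq_norm, dist_eq_norm]; exact h1 s t
    exact h2.continuous
  · intro t ht k hk
    refine hasDerivAt_of_taylor (L := L2 D Cd r H C6 k) ?_
    filter_upwards [lt_mem_nhds ht] with s hs
    exact hTay s t k hk hs.le ht.le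

end Pool.Agent.H226.SW
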