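import Mathlib

/-!
The weights: a lemma on real sequences.
-/

open Finset

namespace Pool.Agent.H226.SW

/-- increments -/
def dd (μ : ℕ → ℝ) (j : ℕ) : ℝ := μ j - μ (j - 1)

/-- the pair of the weight and the sum of `32 ^ i / V i` -/
noncomputable def st (ε : ℝ) (μ : ℕ → ℝ) : ℕ → ℝ × ℝ
  | 0 => (1, 1)
  | j + 1 =>
    let v := (st ε μ j).1 * (1 + ε * dd μ j / Real.sqrt (st ε μ j).2)
    (v, (st ε μ j).2 + 32 ^ (j + 1) / v)

section

variable {ε : ℝ} {μ : ℕ → ℝ}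

noncomputable def Vv (ε : ℝ) (μ : ℕ → ℝ) (j : ℕ) : ℝ := (st ε μ j).1
noncomputable def Qa (ε : ℝ) (μ : ℕ → ℝ) (j : ℕ) : ℝ := (st ε μ j).2

lemma Vv_zero : Vv ε μ 0 = 1 := rfl
lemma Qa_zero : Qa ε μ 0 = 1 := rfl
lemma Vv_succ (j : ℕ) : Vv ε μ (j + 1) = Vv ε μ j * (1 + ε * dd μ j / Real.sqrt (Qa ε μ j)) := rfl
lemma Qa_succ (j : ℕ) : Qa ε μ (j + 1) = Qa ε μ j + 32 ^ (j + 1) / Vv ε μ (j + 1) := rfl

lemma dd_nonneg (hμ : Monotone μ) (j : ℕ) : 0 ≤ dd μ j := sub_nonneg.2 (hμ (Nat.sub_le _ _))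

lemma dd_le (hμ0 : ∀ j, 0 ≤ μ j) (j : ℕ) : dd μ j ≤ μ j := by
  unfold dd; linarith [hμ0 (j - 1)]

lemma VQ_pos (hε : 0 ≤ ε) (hμ : Monotone μ) (j : ℕ) : 1 ≤ Vv ε μ j ∧ 0 < Qa ε μ j := by
  induction j with
  | zero => exact ⟨le_rfl, one_pos⟩
  | succ j ih =>
    have h1 := dd_nonneg hμ j
    have h2 : 1 ≤ Vv ε μ (j + 1) := by
      rw [Vv_succ]
      have : 0 ≤ ε * dd μ j / Real.sqrt (Qa ε μ j) := by positivity
      nlinarith [ih.1]
    refine ⟨h2, ?_⟩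
    rw [Qa_succ]
    have := ih.2
    have : 0 < Vv ε μ (j + 1) := by linarith
    positivity

lemma Vv_mono (hε : 0 ≤ ε) (hμ : Monotone μ) : Monotone (Vv ε μ) := by
  refine monotone_nat_of_le_succ fun j => ?_
  have h0 := (VQ_pos hε hμ j).1
  have h1 := dd_nonneg hμ j
  rw [Vv_succ]
  have : 0 ≤ ε * dd μ j / Real.sqrt (Qa ε μ j) := by positivity
  nlinarith

lemma Qa_eq (j : ℕ) : Qa ε μ j = ∑ i ∈ range (j + 1), 32 ^ i / Vv ε μ i := by
  induction j with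
  | zero => simp [Qa_zero, Vv_zero]
  | succ j ih => rw [Qa_succ, ih, sum_range_succ _ (j + 1)]

lemma Qa_mono (hε : 0 ≤ ε) (hμ : Monotone μ) : Monotone (Qa ε μ) := by
  refine monotone_nat_of_le_succ fun j => ?_
  have h0 := (VQ_pos hε hμ (j + 1)).1
  rw [Qa_succ]
  have : 0 < Vv ε μ (j + 1) := by linarith
  have : 0 ≤ (32 : ℝ) ^ (j + 1) / Vv ε μ (j + 1) := by positivity
  linarith

lemma Vv_one {j₀ : ℕ} (h0 : ∀ j < j₀, μ j = 0) {j : ℕ} (hj : j ≤ j₀) : Vv ε μ j = 1 := by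
  induction j with
  | zero => rfl
  | succ j ih =>
    rw [Vv_succ, ih (by omega)]
    have : dd μ j = 0 := by
      unfold dd
      rw [h0 j (by omega), h0 (j - 1) (by omega), sub_zero]
    rw [this]
    simp

/-- the increments do not matter -/
lemma incr (hε : 0 ≤ ε) (hμ : Monotone μ) (j : ℕ) :
    (Vv ε μ (j + 1) - Vv ε μ j) * Real.sqrt (Qa ε μ j) = ε * (Vv ε μ j * dd μ j) := by
  have h := Real.sqrt_pos.2 (VQ_pos hε hμ j).2
  rw [Vv_succ]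
  field_simp
  ring

lemma sum_incr (hε : 0 ≤ ε) (hμ : Monotone μ) (hμ00 : μ 0 = 0) (n : ℕ) :
    ∑ j ∈ range (n + 1), (Vv ε μ (j + 1) - Vv ε μ j) * Real.sqrt (Qa ε μ j)
      ≤ ε * (Vv ε μ n * μ n) := by
  have hm := Vv_mono hε hμ
  have h1 : ∀ j ∈ range (n + 1), (Vv ε μ (j + 1) - Vv ε μ j) * Real.sqrt (Qa ε μ j)
      ≤ ε * (Vv ε μ n * dd μ j) := by
    intro j hj
    rw [mem_range] at hj
    rw [incr hε hμ]
    have := dd_nonneg hμ j
    have := hm (show j ≤ n by omega)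
    gcongr
  refine (sum_le_sum h1).trans (le_of_eq ?_)
  rw [← mul_sum, ← mul_sum]
  congr 2
  clear h1
  induction n with
  | zero => simp [dd, hμ00]
  | succ n ih =>
    rw [sum_range_succ, ih]
    unfold dd
    simp

/-- growth up to the first saturated index -/
lemma ratio (hε : 0 ≤ ε) (hμ : Monotone μ) (hμ0 : ∀ j, 0 ≤ μ j) {j : ℕ}
    (h : ε * μ j ≤ Real.sqrt (Qa ε μ j)) : Vv ε μ (j + 1) ≤ 2 * Vv ε μ j := by
  have h0 := (VQ_pos hε hμ j).1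
  have hq := Real.sqrt_pos.2 (VQ_pos hε hμ j).2
  rw [Vv_succ]
  have h1 : ε * dd μ j / Real.sqrt (Qa ε μ j) ≤ 1 := by
    rw [div_le_one hq]
    refine le_trans ?_ h
    gcongr
    exact dd_le hμ0 j
  nlinarith

lemma QV_le (hε : 0 ≤ ε) (hμ : Monotone μ) (hμ0 : ∀ j, 0 ≤ μ j) {n : ℕ}
    (h : ∀ j < n, ε * μ j ≤ Real.sqrt (Qa ε μ j)) {j : ℕ} (hj : j ≤ n) :
    Qa ε μ j * Vv ε μ j ≤ 2 * 32 ^ j := by
  induction j with
  | zero => rw [Vv_zero, Qa_zero]; norm_num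
  | succ j ih =>
    have h1 := ih (by omega)
    have h2 := ratio hε hμ hμ0 (h j (by omega))
    have h3 := (VQ_pos hε hμ (j + 1)).1
    have h4 := (VQ_pos hε hμ j).2
    have h5 : (0 : ℝ) < Vv ε μ (j + 1) := by linarith
    rw [Qa_succ, add_mul, div_mul_cancel₀ _ h5.ne']
    have h6 : Qa ε μ j * Vv ε μ (j + 1) ≤ Qa ε μ j * (2 * Vv ε μ j) := by gcongr
    have h7 : (32 : ℝ) ^ (j + 1) = 32 * 32 ^ j := by ring
    have h8 : (0 : ℝ) < 32 ^ j := by positivity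
    nlinarith

lemma root_gap {x : ℝ} (h0 : 0 ≤ x) (h1 : x ≤ 1) : 1 / Real.sqrt (1 + x) ≤ 1 - x / 4 := by
  have hs : 0 < Real.sqrt (1 + x) := Real.sqrt_pos.2 (by linarith)
  rw [div_le_iff₀ hs]
  have h2 : 1 ≤ ((1 - x / 4) * Real.sqrt (1 + x)) ^ 2 := by
    rw [mul_pow, Real.sq_sqrt (by linarith)]
    nlinarith [mul_nonneg h0 (sub_nonneg.2 h1), mul_nonneg (mul_nonneg h0 h0) (sub_nonneg.2 h1),
      mul_nonneg h0 h0]
  have h3 : 0 ≤ (1 - x / 4) * Real.sqrt (1 + x) := mul_nonneg (by linarith) hs.le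
  nlinarith

/-- `ρ j = 32 ^ (-j/2)` -/
noncomputable def rr (j : ℕ) : ℝ := 1 / Real.sqrt (32 ^ j)

lemma rr_pos (j : ℕ) : 0 < rr j := by unfold rr; positivity

lemma rr_succ (j : ℕ) : rr (j + 1) ≤ rr j / 2 := by
  unfold rr
  have h : 2 * Real.sqrt (32 ^ j) ≤ Real.sqrt (32 ^ (j + 1)) := by
    refine Real.le_sqrt_of_sq_le ?_
    rw [mul_pow, Real.sq_sqrt (by positivity)]
    have : (0 : ℝ) < 32 ^ j := by positivity
    have e : (32 : ℝ) ^ (j + 1) = 32 * 32 ^ j := by ring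
    rw [e]
    linarith
  have h1 : 0 < Real.sqrt ((32 : ℝ) ^ j) := by positivity
  calc 1 / Real.sqrt (32 ^ (j + 1)) ≤ 1 / (2 * Real.sqrt (32 ^ j)) := by gcongr
    _ = _ := by field_simp

lemma gap (hε : 0 ≤ ε) (hμ : Monotone μ) (hμ0 : ∀ j, 0 ≤ μ j) {n : ℕ}
    (h : ∀ j < n, ε * μ j ≤ Real.sqrt (Qa ε μ j)) {j : ℕ} (hj : j < n) :
    ε / 6 * (dd μ j * rr j) ≤ 1 / Real.sqrt (Vv ε μ j) - 1 / Real.sqrt (Vv ε μ (j + 1)) := by
  have h0 := (VQ_pos hε hμ j).1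
  have hq := (VQ_pos hε hμ j).2
  have hq' := Real.sqrt_pos.2 hq
  have hd := dd_nonneg hμ j
  have hV : 0 < Vv ε μ j := by linarith
  have hV' := Real.sqrt_pos.2 hV
  set x := ε * dd μ j / Real.sqrt (Qa ε μ j) with hx
  have hx0 : 0 ≤ x := by positivity
  have hx1 : x ≤ 1 := by
    rw [hx, div_le_one hq']
    refine le_trans ?_ (h j hj)
    gcongr
    exact dd_le hμ0 j
  have h1 : 1 / Real.sqrt (Vv ε μ (j + 1)) ≤ 1 / Real.sqrt (Vv ε μ j) * (1 - x / 4) := by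
    rw [Vv_succ, ← hx, Real.sqrt_mul hV.le]
    have := root_gap hx0 hx1
    calc 1 / (Real.sqrt (Vv ε μ j) * Real.sqrt (1 + x))
        = 1 / Real.sqrt (Vv ε μ j) * (1 / Real.sqrt (1 + x)) := by field_simp
      _ ≤ _ := by gcongr
  have h2 : 1 / Real.sqrt (Vv ε μ j) * (x / 4)
      ≤ 1 / Real.sqrt (Vv ε μ j) - 1 / Real.sqrt (Vv ε μ (j + 1)) := by linarith
  refine le_trans ?_ h2
  have h3 : Real.sqrt (Qa ε μ j) * Real.sqrt (Vv ε μ j) ≤ 3 / 2 * Real.sqrt (32 ^ j) := by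
    rw [← Real.sqrt_mul hq.le]
    refine Real.sqrt_le_iff.2 ⟨by positivity, ?_⟩
    rw [mul_pow, Real.sq_sqrt (by positivity)]
    have := QV_le hε hμ hμ0 h hj.le
    have : (0 : ℝ) < 32 ^ j := by positivity
    linarith
  have h4 : 1 / Real.sqrt (Vv ε μ j) * (x / 4)
      = ε * dd μ j / (4 * (Real.sqrt (Qa ε μ j) * Real.sqrt (Vv ε μ j))) := by
    rw [hx]; field_simp
  have h5 : ε / 6 * (dd μ j * rr j) = ε * dd μ j / (4 * (3 / 2 * Real.sqrt (32 ^ j))) := by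
    unfold rr
    have : 0 < Real.sqrt ((32 : ℝ) ^ j) := by positivity
    field_simp
    ring
  rw [h4, h5]
  gcongr

lemma parts (hμ0 : ∀ j, 0 ≤ μ j) (hμ00 : μ 0 = 0) (n : ℕ) :
    (∑ j ∈ range n, μ j * rr j) / 2 + μ (n - 1) * rr n ≤ ∑ j ∈ range n, dd μ j * rr j := by
  induction n with
  | zero => simp [hμ00]
  | succ n ih =>
    rw [sum_range_succ, sum_range_succ]
    have h1 := rr_succ n
    have h2 := hμ0 n
    have h3 : μ n * rr (n + 1) ≤ μ n * (rr n / 2) := by gcongr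
    unfold dd at *
    rw [Nat.add_sub_cancel]
    linarith

/-- a saturated index exists -/
lemma exists_sat (hε : 0 < ε) (hμ : Monotone μ) (hμ0 : ∀ j, 0 ≤ μ j) (hμ00 : μ 0 = 0) {n : ℕ}
    (h : 12 / ε < ∑ j ∈ range n, μ j * rr j) : ∃ j < n, Real.sqrt (Qa ε μ j) < ε * μ j := by
  by_contra hc
  push Not at hc
  have h1 : ∑ j ∈ range n, ε / 6 * (dd μ j * rr j)
      ≤ ∑ j ∈ range n, (1 / Real.sqrt (Vv ε μ j) - 1 / Real.sqrt (Vv ε μ (j + 1))) :=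
    sum_le_sum fun j hj => gap hε.le hμ hμ0 hc (mem_range.1 hj)
  rw [← mul_sum, sum_range_sub'] at h1
  have h2 := parts hμ0 hμ00 n
  have h3 : 0 ≤ μ (n - 1) * rr n := mul_nonneg (hμ0 _) (rr_pos _).le
  have h4 : 0 ≤ 1 / Real.sqrt (Vv ε μ n) := by positivity
  have h5 : 1 / Real.sqrt (Vv ε μ 0) = 1 := by rw [Vv_zero]; simp
  rw [h5] at h1
  have h6 : ε / 6 * ((∑ j ∈ range n, μ j * rr j) / 2) ≤ 1 := by
    calc ε / 6 * ((∑ j ∈ range n, μ j * rr j) / 2) ≤ ε / 6 * ∑ j ∈ range n, dd μ j * rr j := by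
          gcongr
          linarith
      _ ≤ 1 := by linarith
  have h7 : 12 / ε * ε = 12 := div_mul_cancel₀ _ hε.ne'
  nlinarith [mul_lt_mul_of_pos_right h hε]

/-! ### The weights -/

/-- the weights: the sequence `Vv` up to the index `j₁`, then geometric growth -/
noncomputable def Ww (ε : ℝ) (μ : ℕ → ℝ) (s j₁ j : ℕ) : ℝ := Vv ε μ (min j j₁) * (2 ^ s) ^ (j - j₁)

variable {s j₁ : ℕ}

lemma Ww_le {j : ℕ} (h : j ≤ j₁) : Ww ε μ s j₁ j = Vv ε μ j := by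
  unfold Ww
  rw [min_eq_left h, Nat.sub_eq_zero_of_le h]
  simp

lemma Ww_add (n : ℕ) : Ww ε μ s j₁ (j₁ + n) = Vv ε μ j₁ * (2 ^ s) ^ n := by
  unfold Ww
  rw [min_eq_right (by omega), Nat.add_sub_cancel_left]

/-- the sum for the weights -/
noncomputable def QW (W : ℕ → ℝ) (j : ℕ) : ℝ := ∑ i ∈ range (j + 1), 32 ^ i / W i

lemma QW_le {j : ℕ} (h : j ≤ j₁) : QW (Ww ε μ s j₁) j = Qa ε μ j := by
  rw [Qa_eq]
  unfold QW
  refine sum_congr rfl fun i hi => ?_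
  rw [mem_range] at hi
  rw [Ww_le (by omega)]

lemma QW_add (hε : 0 ≤ ε) (hμ : Monotone μ) (hs : 6 ≤ s) (n : ℕ) :
    QW (Ww ε μ s j₁) (j₁ + n) ≤ Qa ε μ j₁ + 32 ^ j₁ / Vv ε μ j₁ * (1 - (1 / 2) ^ n) := by
  have hV := (VQ_pos hε hμ j₁).1
  have hV0 : 0 < Vv ε μ j₁ := by linarith
  induction n with
  | zero => rw [add_zero, QW_le le_rfl]; simp
  | succ n ih =>
    have e : QW (Ww ε μ s j₁) (j₁ + (n + 1)) = QW (Ww ε μ s j₁) (j₁ + n)
        + 32 ^ (j₁ + (n + 1)) / Ww ε μ s j₁ (j₁ + (n + 1)) := by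
      unfold QW
      rw [show j₁ + (n + 1) + 1 = (j₁ + n + 1) + 1 by ring, sum_range_succ]
      rfl
    rw [e, Ww_add]
    have h1 : (32 : ℝ) ^ (j₁ + (n + 1)) / (Vv ε μ j₁ * (2 ^ s) ^ (n + 1))
        = 32 ^ j₁ / Vv ε μ j₁ * (32 / 2 ^ s) ^ (n + 1) := by
      rw [pow_add, div_pow]; field_simp
    have h2 : (32 : ℝ) / 2 ^ s ≤ 1 / 2 := by
      rw [div_le_div_iff₀ (by positivity) (by norm_num)]
      have : (2 : ℝ) ^ 6 ≤ 2 ^ s := pow_le_pow_right₀ (by norm_num) hs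
      linarith
    have h3 : ((32 : ℝ) / 2 ^ s) ^ (n + 1) ≤ (1 / 2) ^ (n + 1) := by gcongr
    have h4 : 32 ^ j₁ / Vv ε μ j₁ * ((32 : ℝ) / 2 ^ s) ^ (n + 1)
        ≤ 32 ^ j₁ / Vv ε μ j₁ * (1 / 2) ^ (n + 1) := by gcongr
    rw [h1]
    have e2 : ((1 : ℝ) / 2) ^ (n + 1) = (1 / 2) ^ n / 2 := by rw [pow_succ]; ring
    have e3 : 32 ^ j₁ / Vv ε μ j₁ * (1 - (1 / 2) ^ n) + 32 ^ j₁ / Vv ε μ j₁ * (1 / 2) ^ (n + 1)
        = 32 ^ j₁ / Vv ε μ j₁ * (1 - (1 / 2) ^ (n + 1)) := by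
      rw [e2]; ring
    linarith

lemma QW_all (hε : 0 ≤ ε) (hμ : Monotone μ) (hs : 6 ≤ s) {j : ℕ} (h : j₁ ≤ j) :
    QW (Ww ε μ s j₁) j ≤ 2 * Qa ε μ j₁ := by
  obtain ⟨n, rfl⟩ := Nat.exists_eq_add_of_le h
  refine (QW_add hε hμ hs n).trans ?_
  have hV := (VQ_pos hε hμ j₁).1
  have hV0 : 0 < Vv ε μ j₁ := by linarith
  have h1 : 32 ^ j₁ / Vv ε μ j₁ ≤ Qa ε μ j₁ := by
    rw [Qa_eq]
    refine single_le_sum (f := fun i => (32 : ℝ) ^ i / Vv ε μ i) (fun i _ => ?_)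
      (mem_range.2 (Nat.lt_succ_self _))
    have := (VQ_pos hε hμ i).1
    have : 0 < Vv ε μ i := by linarith
    positivity
  have h2 : 32 ^ j₁ / Vv ε μ j₁ * (1 - (1 / 2) ^ n) ≤ 32 ^ j₁ / Vv ε μ j₁ * 1 := by
    have : (0 : ℝ) ≤ (1 / 2) ^ n := by positivity
    gcongr
    linarith
  linarith

lemma Ww_mono (hε : 0 ≤ ε) (hμ : Monotone μ) : Monotone (Ww ε μ s j₁) := by
  intro i j hij
  unfold Ww
  have h1 : (1 : ℝ) ≤ 2 ^ s := one_le_pow₀ (by norm_num)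
  have h2 := Vv_mono hε hμ (min_le_min_right j₁ hij)
  have h3 := (VQ_pos hε hμ (min i j₁)).1
  gcongr
  · linarith

lemma Ww_ge_one (hε : 0 ≤ ε) (hμ : Monotone μ) (j : ℕ) : 1 ≤ Ww ε μ s j₁ j := by
  unfold Ww
  have h1 : (1 : ℝ) ≤ (2 ^ s) ^ (j - j₁) := one_le_pow₀ (one_le_pow₀ (by norm_num))
  have h3 := (VQ_pos hε hμ (min j j₁)).1
  nlinarith

lemma Ww_ratio (hε : 0 ≤ ε) (hμ : Monotone μ) (hμ0 : ∀ j, 0 ≤ μ j) (hs : 6 ≤ s)
    (h : ∀ j < j₁, ε * μ j ≤ Real.sqrt (Qa ε μ j)) (j : ℕ) :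
    Ww ε μ s j₁ (j + 1) ≤ 2 ^ s * Ww ε μ s j₁ j := by
  have h2 : (2 : ℝ) ≤ 2 ^ s := by
    calc (2 : ℝ) = 2 ^ 1 := by norm_num
      _ ≤ 2 ^ s := pow_le_pow_right₀ (by norm_num) (by omega)
  rcases lt_or_ge j j₁ with hj | hj
  · rw [Ww_le hj, Ww_le hj.le]
    have h1 := ratio hε hμ hμ0 (h j hj)
    have h3 := (VQ_pos hε hμ j).1
    nlinarith
  · obtain ⟨n, rfl⟩ := Nat.exists_eq_add_of_le hj
    rw [add_assoc, Ww_add, Ww_add, pow_succ]
    exact le_of_eq (by ring)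

/-- the main inequality for the weights -/
lemma Ww_sum (hε : 0 ≤ ε) (hμ : Monotone μ) (hμ0 : ∀ j, 0 ≤ μ j) (hμ00 : μ 0 = 0) (hs : 6 ≤ s)
    (h : ∀ j < j₁, ε * μ j ≤ Real.sqrt (Qa ε μ j)) (h1 : Real.sqrt (Qa ε μ j₁) ≤ ε * μ j₁)
    (hj₁ : 1 ≤ j₁) (J : ℕ) :
    ∑ j ∈ range (J + 2), (Ww ε μ s j₁ (j + 1) - Ww ε μ s j₁ j) * Real.sqrt (QW (Ww ε μ s j₁) j)
      ≤ 3 * (2 ^ s) ^ 2 * ε * (Ww ε μ s j₁ J * μ (J + 1)) := by
  have hWm := Ww_mono (s := s) (j₁ := j₁) hε hμ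
  have hW1 := Ww_ge_one (s := s) (j₁ := j₁) hε hμ
  have hr := Ww_ratio (s := s) hε hμ hμ0 hs h
  have h2s : (1 : ℝ) ≤ 2 ^ s := one_le_pow₀ (by norm_num)
  have hWJ : 0 < Ww ε μ s j₁ J := by linarith [hW1 J]
  have hμJ := hμ0 (J + 1)
  have hr1 := hr J
  have hr2 := hr (J + 1)
  have hbase : 0 ≤ ε * (Ww ε μ s j₁ J * μ (J + 1)) := by positivity
  have hpart : ∀ n, n ≤ J + 1 → n < j₁ →
      ∑ j ∈ range (n + 1), (Ww ε μ s j₁ (j + 1) - Ww ε μ s j₁ j) * Real.sqrt (QW (Ww ε μ s j₁) j)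
      ≤ 2 ^ s * (ε * (Ww ε μ s j₁ J * μ (J + 1))) := by
    intro n hn hnj
    have e : ∑ j ∈ range (n + 1), (Ww ε μ s j₁ (j + 1) - Ww ε μ s j₁ j)
        * Real.sqrt (QW (Ww ε μ s j₁) j)
        = ∑ j ∈ range (n + 1), (Vv ε μ (j + 1) - Vv ε μ j) * Real.sqrt (Qa ε μ j) := by
      refine sum_congr rfl fun j hj => ?_
      rw [mem_range] at hj
      rw [Ww_le (by omega), Ww_le (by omega), QW_le (by omega)]
    rw [e]
    refine (sum_incr hε hμ hμ00 n).trans ?_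
    have h3 : Vv ε μ n ≤ 2 ^ s * Ww ε μ s j₁ J := by
      rw [← Ww_le (ε := ε) (μ := μ) (s := s) hnj.le]
      exact (hWm hn).trans hr1
    have h4 := hμ hn
    have h5 := hμ0 n
    calc ε * (Vv ε μ n * μ n) ≤ ε * ((2 ^ s * Ww ε μ s j₁ J) * μ (J + 1)) := by gcongr
      _ = _ := by ring
  rcases lt_or_ge (J + 1) j₁ with hJ | hJ
  · refine (hpart (J + 1) le_rfl hJ).trans ?_
    have : (2 : ℝ) ^ s ≤ 3 * (2 ^ s) ^ 2 := by nlinarith
    calc 2 ^ s * (ε * (Ww ε μ s j₁ J * μ (J + 1)))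
        ≤ 3 * (2 ^ s) ^ 2 * (ε * (Ww ε μ s j₁ J * μ (J + 1))) := by gcongr
      _ = _ := by ring
  · obtain ⟨n, rfl⟩ := Nat.exists_eq_succ_of_ne_zero (by omega : j₁ ≠ 0)
    have hsplit := sum_range_add_sum_Ico (fun j => (Ww ε μ s n.succ (j + 1) - Ww ε μ s n.succ j)
      * Real.sqrt (QW (Ww ε μ s n.succ) j)) (show n + 1 ≤ J + 2 by omega)
    rw [← hsplit]
    have hA := hpart n (by omega) (Nat.lt_succ_self n)
    have hq0 : 0 ≤ Real.sqrt (2 * Qa ε μ n.succ) := Real.sqrt_nonneg _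
    have hB : ∑ j ∈ Ico (n + 1) (J + 2), (Ww ε μ s n.succ (j + 1) - Ww ε μ s n.succ j)
        * Real.sqrt (QW (Ww ε μ s n.succ) j)
        ≤ Ww ε μ s n.succ (J + 2) * Real.sqrt (2 * Qa ε μ n.succ) := by
      calc ∑ j ∈ Ico (n + 1) (J + 2), (Ww ε μ s n.succ (j + 1) - Ww ε μ s n.succ j)
            * Real.sqrt (QW (Ww ε μ s n.succ) j)
          ≤ ∑ j ∈ Ico (n + 1) (J + 2), (Ww ε μ s n.succ (j + 1) - Ww ε μ s n.succ j)
            * Real.sqrt (2 * Qa ε μ n.succ) := by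
            refine sum_le_sum fun j hj => ?_
            rw [mem_Ico] at hj
            have h5 := hWm (Nat.le_succ j)
            have h6 := QW_all (ε := ε) (μ := μ) hε hμ hs (show n.succ ≤ j from hj.1)
            have h7 : 0 ≤ Ww ε μ s n.succ (j + 1) - Ww ε μ s n.succ j := sub_nonneg.2 h5
            gcongr
        _ = (Ww ε μ s n.succ (J + 2) - Ww ε μ s n.succ (n + 1))
            * Real.sqrt (2 * Qa ε μ n.succ) := by
            rw [← sum_mul, sum_Ico_sub _ (by omega)]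
        _ ≤ _ := by
            gcongr
            linarith [hW1 (n + 1)]
    have hC : Real.sqrt (2 * Qa ε μ n.succ) ≤ 3 / 2 * (ε * μ (J + 1)) := by
      rw [Real.sqrt_mul (by norm_num)]
      have h8 : Real.sqrt 2 ≤ 3 / 2 := by
        rw [Real.sqrt_le_left (by norm_num)]; norm_num
      have h9 : ε * μ n.succ ≤ ε * μ (J + 1) := by
        have := hμ hJ
        gcongr
      have h10 : 0 ≤ Real.sqrt (Qa ε μ n.succ) := Real.sqrt_nonneg _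
      calc Real.sqrt 2 * Real.sqrt (Qa ε μ n.succ) ≤ 3 / 2 * Real.sqrt (Qa ε μ n.succ) := by gcongr
        _ ≤ _ := by gcongr; exact h1.trans h9
    have hD : Ww ε μ s n.succ (J + 2) ≤ (2 ^ s) ^ 2 * Ww ε μ s n.succ J := by
      calc Ww ε μ s n.succ (J + 2) ≤ 2 ^ s * Ww ε μ s n.succ (J + 1) := hr2
        _ ≤ 2 ^ s * (2 ^ s * Ww ε μ s n.succ J) := by gcongr
        _ = _ := by ring
    have hE : Ww ε μ s n.succ (J + 2) * Real.sqrt (2 * Qa ε μ n.succ)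
        ≤ 3 / 2 * (2 ^ s) ^ 2 * (ε * (Ww ε μ s n.succ J * μ (J + 1))) := by
      calc Ww ε μ s n.succ (J + 2) * Real.sqrt (2 * Qa ε μ n.succ)
          ≤ ((2 ^ s) ^ 2 * Ww ε μ s n.succ J) * (3 / 2 * (ε * μ (J + 1))) := by gcongr
        _ = _ := by ring
    have hF : (2 : ℝ) ^ s * (ε * (Ww ε μ s n.succ J * μ (J + 1)))
        ≤ 3 / 2 * (2 ^ s) ^ 2 * (ε * (Ww ε μ s n.succ J * μ (J + 1))) := by
      have : (2 : ℝ) ^ s ≤ 3 / 2 * (2 ^ s) ^ 2 := by nlinarith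
      gcongr
    have := hA.trans hF
    have := hB.trans hE
    linarith

end

/-- Existence of the weights. -/
theorem exists_weights {s : ℕ} (hs : 6 ≤ s) {δ : ℝ} (hδ : 0 < δ) :
    ∃ A : ℝ, 0 < A ∧ ∀ (j₀ n : ℕ) (m : ℕ → ℝ), Monotone m → (∀ j, 0 ≤ m j) →
      A ≤ ∑ j ∈ Ico j₀ n, m j * rr j →
      ∃ W : ℕ → ℝ, Monotone W ∧ (∀ j, 1 ≤ W j) ∧ (∀ j, j ≤ j₀ + 1 → W j = 1) ∧
        (∀ j, W j ≤ (2 ^ s) ^ (j - j₀)) ∧ (∃ c : ℝ, 0 < c ∧ ∀ j, c * (2 ^ s) ^ j ≤ W j) ∧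
        (∀ j, W (j + 1) ≤ 2 ^ s * W j) ∧ ∀ J, ∑ j ∈ range (J + 2), (W (j + 1) - W j) * Real.sqrt (QW W j) ≤ δ * (W J * m J) := by
  set ε : ℝ := δ / (3 * (2 ^ s) ^ 2) with hε'
  have hε : 0 < ε := by positivity
  refine ⟨6 * (12 / ε + 1), by positivity, fun j₀ n m hm hm0 hA => ?_⟩
  -- the shifted sequence
  set μ : ℕ → ℝ := fun j => if j < j₀ + 1 then 0 else m (j - 1) with hμdef
  have hμ0 : ∀ j, 0 ≤ μ j := fun j => by
    simp only [hμdef]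
    split_ifs
    · exact le_rfl
    · exact hm0 _
  have hμ : Monotone μ := by
    intro i j hij
    simp only [hμdef]
    split_ifs with h1 h2
    · exact le_rfl
    · exact hm0 _
    · omega
    · exact hm (by omega)
  have hμ00 : μ 0 = 0 := by simp [hμdef]
  have hμz : ∀ j < j₀ + 1, μ j = 0 := fun j hj => by simp only [hμdef]; rw [if_pos hj]
  have hμm : ∀ J, μ (J + 1) ≤ m J := by
    intro J
    simp only [hμdef]
    split_ifs
    · exact hm0 _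
    · rw [Nat.add_sub_cancel]
  have hsum : 12 / ε < ∑ j ∈ range (n + 1), μ j * rr j := by
    have h1 : ∑ j ∈ Ico j₀ n, m j * rr j ≤ 6 * ∑ j ∈ range (n + 1), μ j * rr j := by
      rw [mul_sum, sum_range_succ']
      have h2 : ∑ j ∈ Ico j₀ n, m j * rr j ≤ ∑ j ∈ range n, 6 * (μ (j + 1) * rr (j + 1)) := by
        refine le_trans (sum_le_sum fun j hj => ?_) (sum_le_sum_of_subset_of_nonneg
          (f := fun j => 6 * (μ (j + 1) * rr (j + 1))) (s := Ico j₀ n) (fun j hj => ?_) fun j _ _ => ?_)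
        · rw [mem_Ico] at hj
          have e : μ (j + 1) = m j := by
            simp only [hμdef]
            rw [if_neg (by omega), Nat.add_sub_cancel]
          rw [e]
          have h3 : rr j ≤ 6 * rr (j + 1) := by
            unfold rr
            have h4 : Real.sqrt (32 ^ (j + 1)) ≤ 6 * Real.sqrt (32 ^ j) := by
              refine Real.sqrt_le_iff.2 ⟨by positivity, ?_⟩
              rw [mul_pow, Real.sq_sqrt (by positivity)]
              have : (0 : ℝ) < 32 ^ j := by positivity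
              have e : (32 : ℝ) ^ (j + 1) = 32 * 32 ^ j := by ring
              rw [e]
              linarith
            rw [mul_one_div, div_le_div_iff₀ (by positivity) (by positivity)]
            linarith
          calc m j * rr j ≤ m j * (6 * rr (j + 1)) := by
                have := hm0 j
                gcongr
            _ = _ := by ring
        · rw [mem_Ico] at hj
          exact mem_range.2 hj.2
        · have := hμ0 (j + 1)
          have := (rr_pos (j + 1)).le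
          positivity
      have h5 : 0 ≤ 6 * (μ 0 * rr 0) := by rw [hμ00]; simp
      linarith
    linarith
  obtain ⟨jj, -, hjj⟩ := exists_sat hε hμ hμ0 hμ00 hsum
  classical
  have hex : ∃ j, Real.sqrt (Qa ε μ j) < ε * μ j := ⟨jj, hjj⟩
  set j₁ := Nat.find hex with hj₁
  have hsat : Real.sqrt (Qa ε μ j₁) < ε * μ j₁ := Nat.find_spec hex
  have hno : ∀ j < j₁, ε * μ j ≤ Real.sqrt (Qa ε μ j) := fun j hj =>
    not_lt.1 (Nat.find_min hex hj)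
  have hj₁0 : j₀ + 1 ≤ j₁ := by
    by_contra hc
    rw [hμz j₁ (by omega), mul_zero] at hsat
    exact absurd hsat (not_lt.2 (Real.sqrt_nonneg _))
  have hWr := Ww_ratio (s := s) hε.le hμ hμ0 hs hno
  have hone : ∀ j, j ≤ j₀ + 1 → Ww ε μ s j₁ j = 1 := fun j hj => by
    rw [Ww_le (hj.trans hj₁0), Vv_one hμz hj]
  refine ⟨Ww ε μ s j₁, Ww_mono hε.le hμ, Ww_ge_one hε.le hμ, hone, ?_, ?_, hWr, ?_⟩
  · intro j
    induction j with
    | zero => rw [hone 0 (by omega)]; simp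
    | succ j ih =>
      rcases le_or_gt (j + 1) (j₀ + 1) with h | h
      · rw [hone _ h]
        exact one_le_pow₀ (one_le_pow₀ (by norm_num))
      · calc Ww ε μ s j₁ (j + 1) ≤ 2 ^ s * Ww ε μ s j₁ j := hWr j
          _ ≤ 2 ^ s * (2 ^ s) ^ (j - j₀) := by gcongr
          _ = (2 ^ s) ^ (j + 1 - j₀) := by
            rw [← pow_succ', show j + 1 - j₀ = j - j₀ + 1 by omega]
  · refine ⟨1 / (2 ^ s) ^ j₁, by positivity, fun j => ?_⟩
    rcases le_or_gt j j₁ with h | h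
    · refine le_trans ?_ (Ww_ge_one hε.le hμ j)
      rw [one_div, inv_mul_le_iff₀ (by positivity), mul_one]
      exact pow_le_pow_right₀ (one_le_pow₀ (by norm_num)) h
    · obtain ⟨n, rfl⟩ := Nat.exists_eq_add_of_le h.le
      rw [Ww_add, pow_add]
      have := (VQ_pos hε.le hμ j₁).1
      have e : 1 / (2 ^ s) ^ j₁ * ((2 ^ s) ^ j₁ * (2 ^ s) ^ n) = (1 : ℝ) * (2 ^ s) ^ n := by
        field_simp
      rw [e]
      gcongr
  · intro J
    refine (Ww_sum hε.le hμ hμ0 hμ00 hs hno hsat.le (by omega) J).trans ?_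
    have hW := Ww_ge_one (s := s) (j₁ := j₁) hε.le hμ J
    have e : 3 * (2 ^ s) ^ 2 * ε = δ := by rw [hε']; field_simp
    rw [e]
    have := hμm J
    gcongr

end Pool.Agent.H226.SW
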