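import Pool.Agent.H226.SW.Sol

/-!
Uniqueness, for every dissipation `D ≥ 0`: the energy of the difference.
-/

open MeasureTheory Set Filter Topology
open scoped ENNReal InnerProductSpace NNReal ContDiff
open H459R3.NS Pool.Agent.X96.HT Pool.Agent.X96.DM

namespace Pool.Agent.H226.SW

variable {η : Md → Md → Md → ℝ} {D : K3 → ℝ} {Cd : ℝ} {r : ℕ} {Λ : Set K3} {T : ℝ}
  {u v : ℝ → V → V}

/-! ### The nonlinear term -/

/-- the pairing at one frequency -/
noncomputable def cd (x y : C3) : ℂ := ∑ i, (starRingEnd ℂ) (x i) * y i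

lemma norm_cd_le (x y : C3) : ‖cd x y‖ ≤ 3 * (‖x‖ * ‖y‖) := by
  unfold cd
  refine (norm_sum_le _ _).trans ?_
  have h : ∀ i ∈ (Finset.univ : Finset (Fin 3)), ‖(starRingEnd ℂ) (x i) * y i‖ ≤ ‖x‖ * ‖y‖ := by
    intro i _
    rw [norm_mul, RCLike.norm_conj]
    exact mul_le_mul (norm_le_pi_norm x i) (norm_le_pi_norm y i) (norm_nonneg _) (norm_nonneg _)
  refine (Finset.sum_le_sum h).trans (le_of_eq ?_)
  simp

lemma energy_zero (hη : IsWeight η) {X : K3 → C3} (hX : RapV X) (hdiv : ∀ k, dp (kc k) (X k) = 0)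
    (hreal : ∀ k, X (-k) = cj (X k)) : HasSum (fun k => cd (X k) (nonl η X k)) 0 := by
  have h := pairing hη hX hdiv hreal 0
  rw [T3s_energy hη hX hdiv, mul_zero] at h
  simpa [cd] using h

lemma nonl_para {H : ℝ} (hH : ∀ a b c, |η a b c| ≤ H) {X Y : K3 → C3}
    (hX : Summable fun k => ‖X k‖) (hY : Summable fun k => ‖Y k‖) (k : K3) :
    nonl η (fun k => (2 : ℂ) • Y k - X k) k
      = (2 : ℂ) • nonl η Y k + (2 : ℂ) • nonl η (fun k => X k - Y k) k - nonl η X k := by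
  have hXY : Summable fun k => ‖X k - Y k‖ :=
    (hX.add hY).of_nonneg_of_le (fun _ => norm_nonneg _) fun k => norm_sub_le _ _
  have s1 := (bil_summable hH hX hX k).of_norm
  have s2 := (bil_summable hH hY hY k).of_norm
  have s3 := (bil_summable hH hXY hXY k).of_norm
  unfold nonl
  rw [← tsum_const_smul'' (2 : ℂ), ← tsum_const_smul'' (2 : ℂ),
    ← (s2.const_smul (2 : ℂ)).tsum_add (s3.const_smul (2 : ℂ)),
    ← ((s2.const_smul (2 : ℂ)).add (s3.const_smul (2 : ℂ))).tsum_sub s1]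
  refine tsum_congr fun p => ?_
  simp only [bil_sub_left, bil_sub_right, bil_smul_left, bil_smul_right]
  module

/-- the energy identity for differences -/
lemma diff_sum (hη : IsWeight η) {X Y : K3 → C3} (hX : RapV X) (hY : RapV Y)
    (hXd : ∀ k, dp (kc k) (X k) = 0) (hYd : ∀ k, dp (kc k) (Y k) = 0)
    (hXr : ∀ k, X (-k) = cj (X k)) (hYr : ∀ k, Y (-k) = cj (Y k)) {κ : ℂ}
    (hκ : HasSum (fun k => cd (Y k) (nonl η (fun k => X k - Y k) k)) κ) :
    HasSum (fun k => cd (X k - Y k) (nonl η X k - nonl η Y k)) (-κ) := by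
  obtain ⟨H, hH⟩ := hη.bdd
  have hsub : ∀ k, dp (kc k) (X k - Y k) = 0 := by
    intro k
    have h1 := hXd k
    have h2 := hYd k
    unfold dp at *
    simp only [Pi.sub_apply]
    linear_combination h1 - h2
  have hZd : ∀ k, dp (kc k) ((2 : ℂ) • Y k - X k) = 0 := by
    intro k
    have h1 := hXd k
    have h2 := hYd k
    unfold dp at *
    simp only [Pi.sub_apply, Pi.smul_apply, smul_eq_mul]
    linear_combination 2 * h2 - h1
  have hWR : RapV fun k => X k - Y k := by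
    intro n
    refine ((hX n).add (hY n)).of_nonneg_of_le (fun k => ?_) fun k => ?_
    · have := kn_nonneg k; positivity
    · have := kn_nonneg k
      have h := norm_sub_le (X k) (Y k)
      calc kn k ^ n * ‖X k - Y k‖ ≤ kn k ^ n * (‖X k‖ + ‖Y k‖) := by gcongr
        _ = _ := by ring
  have hZR : RapV fun k => (2 : ℂ) • Y k - X k := by
    intro n
    refine (((hY n).mul_left 2).add (hX n)).of_nonneg_of_le (fun k => ?_) fun k => ?_
    · have := kn_nonneg k; positivity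
    · have := kn_nonneg k
      have h := norm_sub_le ((2 : ℂ) • Y k) (X k)
      rw [norm_smul, Complex.norm_two] at h
      calc kn k ^ n * ‖(2 : ℂ) • Y k - X k‖ ≤ kn k ^ n * (2 * ‖Y k‖ + ‖X k‖) := by gcongr
        _ = _ := by ring
  have a1 := energy_zero hη hX hXd hXr
  have a2 := energy_zero hη hY hYd hYr
  have a3 := energy_zero hη hWR hsub fun k => by
    rw [hXr, hYr]; funext i; simp [cj]
  have a4 := energy_zero hη hZR hZd fun k => by
    rw [hXr, hYr]; funext i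
    simp only [cj, Pi.sub_apply, Pi.smul_apply, smul_eq_mul, map_sub, map_mul,
      Complex.conj_ofNat]
  have h := ((((a1.div_const 2).sub a2).add a3).add (a4.div_const 2)).sub hκ
  have e : (0 / 2 - 0 + 0 + 0 / 2 - κ : ℂ) = -κ := by ring
  rw [e] at h
  have hfun : ∀ k, cd (X k - Y k) (nonl η X k - nonl η Y k)
      = cd (X k) (nonl η X k) / 2 - cd (Y k) (nonl η Y k)
        + cd (X k - Y k) (nonl η (fun k => X k - Y k) k)
        + cd ((2 : ℂ) • Y k - X k) (nonl η (fun k => (2 : ℂ) • Y k - X k) k) / 2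
        - cd (Y k) (nonl η (fun k => X k - Y k) k) := by
    intro k
    have hp := nonl_para hH (RapV.summable hX) (RapV.summable hY) k
    rw [hp]
    simp only [cd, Fin.sum_univ_three, Pi.sub_apply, Pi.add_apply, Pi.smul_apply, smul_eq_mul,
      map_sub, map_mul, Complex.conj_ofNat]
    ring
  simp only [hfun]
  exact h

/-- quadratic bound for the nonlinear term -/
lemma norm_nonl_sq {H : ℝ} (hH : ∀ a b c, |η a b c| ≤ H) {w : K3 → C3}
    (hw : Summable fun k => ‖w k‖) (hw2 : Summable fun k => ‖w k‖ ^ 2) (k : K3) :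
    ‖nonl η w k‖ ≤ cB H * kn k * ∑' p, ‖w p‖ ^ 2 := by
  have hH0 : 0 ≤ H := (abs_nonneg _).trans (hH (0, true) (0, true) (0, true))
  have hc := cB_nonneg hH0
  have hk := kn_nonneg k
  have hs := bil_summable hH hw hw k
  rw [nonl_eq_tsum]
  refine (norm_tsum_le_tsum_norm hs).trans ?_
  have e2 : Summable fun p => ‖w (k - p)‖ ^ 2 := (Equiv.subLeft k).summable_iff.2 hw2
  have e3 : ∑' p, ‖w (k - p)‖ ^ 2 = ∑' p, ‖w p‖ ^ 2 :=
    (Equiv.subLeft k).tsum_eq (fun p => ‖w p‖ ^ 2)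
  have h1 : ∀ p, ‖bil η k p (k - p) (w p) (w (k - p))‖
      ≤ cB H * kn k * ((‖w p‖ ^ 2 + ‖w (k - p)‖ ^ 2) / 2) := by
    intro p
    refine (norm_bil_le hH (by abel) _ _).trans ?_
    gcongr
    nlinarith [sq_nonneg (‖w p‖ - ‖w (k - p)‖)]
  refine (hs.tsum_le_tsum h1 (((hw2.add e2).div_const 2).mul_left _)).trans (le_of_eq ?_)
  rw [tsum_mul_left, tsum_div_const, hw2.tsum_add e2, e3]
  ring

lemma kappa {H : ℝ} (hH : ∀ a b c, |η a b c| ≤ H) {Y w : K3 → C3}
    (hY : Summable fun k => kn k * ‖Y k‖)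
    (hw : Summable fun k => ‖w k‖) (hw2 : Summable fun k => ‖w k‖ ^ 2) :
    ∃ κ : ℂ, HasSum (fun k => cd (Y k) (nonl η w k)) κ ∧
      ‖κ‖ ≤ 3 * cB H * (∑' k, kn k * ‖Y k‖) * ∑' p, ‖w p‖ ^ 2 := by
  have hH0 : 0 ≤ H := (abs_nonneg _).trans (hH (0, true) (0, true) (0, true))
  have hc := cB_nonneg hH0
  set Q := ∑' p, ‖w p‖ ^ 2 with hQ
  have h1 : ∀ k, ‖cd (Y k) (nonl η w k)‖ ≤ 3 * cB H * Q * (kn k * ‖Y k‖) := by
    intro k
    refine (norm_cd_le _ _).trans ?_
    have := norm_nonl_sq hH hw hw2 k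
    calc 3 * (‖Y k‖ * ‖nonl η w k‖) ≤ 3 * (‖Y k‖ * (cB H * kn k * Q)) := by gcongr
      _ = _ := by ring
  have h2 : Summable fun k => cd (Y k) (nonl η w k) :=
    Summable.of_norm_bounded (hY.mul_left _) h1
  refine ⟨_, h2.hasSum, ?_⟩
  refine (tsum_of_norm_bounded (hY.mul_left _).hasSum h1).trans (le_of_eq ?_)
  rw [tsum_mul_left]
  ring

/-! ### Solutions -/

lemma IsSolD.mono {I J : Set ℝ} (h : IsSolD η D Λ I u) (hJ : J ⊆ I) : IsSolD η D Λ J u where
  smooth := h.smooth.mono (prod_mono hJ Subset.rfl)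
  per := fun t ht => h.per t (hJ ht)
  divfree := fun t ht => h.divfree t (hJ ht)
  supp := fun t ht => h.supp t (hJ ht)
  eqn := fun t ht => h.eqn t (hJ ht)

lemma IsSolD.sp (h : IsSolD η D Λ (Ico 0 T) u) {t : ℝ} (ht : t ∈ Ico 0 T) (i : Fin 3) :
    SP (fun x => u t x i) :=
  ⟨contDiff_slice (f := fun t x => u t x i) (contDiffOn_pi.1 h.smooth i) ht,
    fun j x => congrFun (h.per t ht j x) i⟩

lemma IsSolD.bound (h : IsSolD η D Λ (Ico 0 T) u) (hΛ0 : (0 : K3) ∉ Λ) {b : ℝ} (hb : b < T)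
    (r : ℕ) : ∃ C : ℝ, 0 ≤ C ∧ ∀ t ∈ Icc 0 b, ∀ k, ‖co (u t) k‖ ≤ bw r C k := by
  choose C hC0 hC using fun i => unif_decay (f := fun s y => u s y i)
    (contDiffOn_pi.1 h.smooth i) (fun t ht => (h.sp ht i).per) hb (r + 6)
  have e1 : 0 ≤ ∑ i, C i := Finset.sum_nonneg fun i _ => hC0 i
  refine ⟨∑ i, C i, e1, fun t ht k => ?_⟩
  by_cases hk : k = 0
  · rw [hk, h.supp t ⟨ht.1, ht.2.trans_lt hb⟩ 0 hΛ0, norm_zero]
    exact bw_nonneg e1 _
  · unfold bw mj
    rw [if_neg hk]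
    have hN := N_pos hk
    rw [div_div, ← pow_add, mul_one_div, show 4 + (r + 2) = r + 6 by ring]
    refine norm_co_le (div_nonneg e1 (by positivity)) fun i => ?_
    rw [le_div_iff₀ (by positivity), mul_comm]
    exact (hC i t ht k).trans (Finset.single_le_sum (fun i _ => hC0 i) (Finset.mem_univ i))

lemma IsSolD.cont (h : IsSolD η D Λ (Ico 0 T) u) (k : K3) (i : Fin 3) :
    ContinuousOn (fun s => co (u s) k i) (Ico 0 T) :=
  continuousOn_fr (f := fun s y => u s y i) (contDiffOn_pi.1 h.smooth i) k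

end Pool.Agent.H226.SW
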