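import Pool.Agent.H226.SW.Gal
import Pool.Agent.H226.SW.Seq

/-!
The weighted norms are nonincreasing.
-/

open MeasureTheory Set Filter Topology
open scoped ENNReal InnerProductSpace NNReal
open H459R3.NS Pool.Agent.X96.HT Pool.Agent.X96.DM

namespace Pool.Agent.H226.SW

variable {η : Md → Md → Md → ℝ} {D : K3 → ℝ} {S : Finset K3} {W : ℕ → ℝ} {J : ℕ} {k : K3}

/-- the weight: `W j` at the length `2 ^ j`, linear in between, constant from `2 ^ J` on -/
noncomputable def wt (W : ℕ → ℝ) (J : ℕ) (k : K3) : ℝ :=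
  W 0 + ∑ j ∈ Finset.range J, (W (j + 1) - W j) * ps (2 ^ j) (kn k)

lemma wt_neg (W : ℕ → ℝ) (J : ℕ) (k : K3) : wt W J (-k) = wt W J k := by
  unfold wt; rw [kn_neg]

lemma wt_ge (hW : Monotone W) {i : ℕ} (h : 2 ^ i ≤ kn k) (hi : i ≤ J) : W i ≤ wt W J k := by
  unfold wt
  have h1 : ∑ j ∈ Finset.range i, (W (j + 1) - W j)
      ≤ ∑ j ∈ Finset.range J, (W (j + 1) - W j) * ps (2 ^ j) (kn k) := by
    have h2 : ∑ j ∈ Finset.range i, (W (j + 1) - W j)
        = ∑ j ∈ Finset.range i, (W (j + 1) - W j) * ps (2 ^ j) (kn k) := by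
      refine Finset.sum_congr rfl fun j hj => ?_
      rw [Finset.mem_range] at hj
      rw [ps_one (by positivity), mul_one]
      refine le_trans ?_ h
      rw [← pow_succ']
      exact pow_le_pow_right₀ (by norm_num) hj
    rw [h2]
    refine Finset.sum_le_sum_of_subset_of_nonneg (fun j hj => ?_) fun j _ _ => ?_
    · rw [Finset.mem_range] at hj ⊢; omega
    · exact mul_nonneg (sub_nonneg.2 (hW (Nat.le_succ j))) (ps_nonneg _ _)
  rw [Finset.sum_range_sub] at h1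
  linarith

lemma wt_ge_zero (hW : Monotone W) (k : K3) : W 0 ≤ wt W J k := by
  unfold wt
  have : 0 ≤ ∑ j ∈ Finset.range J, (W (j + 1) - W j) * ps (2 ^ j) (kn k) :=
    Finset.sum_nonneg fun j _ => mul_nonneg (sub_nonneg.2 (hW (Nat.le_succ j))) (ps_nonneg _ _)
  linarith

lemma wt_le (hW : Monotone W) {i : ℕ} (h : kn k ≤ 2 ^ i) : wt W J k ≤ W i := by
  unfold wt
  have h1 : ∀ j ∈ Finset.range J, (W (j + 1) - W j) * ps (2 ^ j) (kn k)
      ≤ if j < i then W (j + 1) - W j else 0 := by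
    intro j _
    have h2 := sub_nonneg.2 (hW (Nat.le_succ j))
    split_ifs with hj
    · have h3 := ps_le_one (2 ^ j) (kn k)
      have h4 := ps_nonneg (2 ^ j) (kn k)
      simp only [Nat.succ_eq_add_one] at h2
      nlinarith
    · rw [ps_zero (by positivity) (h.trans (pow_le_pow_right₀ (by norm_num) (by omega))), mul_zero]
  have h5 : ∑ j ∈ Finset.range J, (if j < i then W (j + 1) - W j else 0)
      ≤ ∑ j ∈ Finset.range i, (W (j + 1) - W j) := by
    rw [← Finset.sum_filter]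
    refine Finset.sum_le_sum_of_subset_of_nonneg (fun j hj => ?_) fun j _ _ => ?_
    · rw [Finset.mem_filter] at hj
      exact Finset.mem_range.2 hj.2
    · exact sub_nonneg.2 (hW (Nat.le_succ j))
  rw [Finset.sum_range_sub] at h5
  have := (Finset.sum_le_sum h1).trans h5
  linarith

/-- dyadic index -/
lemma exists_dyadic (hk : k ≠ 0) : ∃ i : ℕ, (2 : ℝ) ^ i ≤ kn k ∧ kn k < 2 ^ (i + 1) :=
  exists_nat_pow_near (one_le_kn hk) (by norm_num)

/-- the coefficients of the weight -/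
def cf (W : ℕ → ℝ) : ℕ → ℝ
  | 0 => W 0
  | j + 1 => W (j + 1) - W j

/-- the profiles -/
noncomputable def wf : ℕ → K3 → ℝ
  | 0 => fun _ => 1
  | j + 1 => fun k => ps (2 ^ j) (kn k)

/-- The production of the weighted norm. -/
lemma prod_wt (hη : IsWeight η) {H : ℝ} (hH : ∀ a b c, |η a b c| ≤ H) {U : K3 → C3}
    (hS : ∀ k ∉ S, U k = 0) (hdiv : ∀ k, dp (kc k) (U k) = 0) (hW : Monotone W) (J : ℕ) :
    ‖T3s (fw η (wt W J) U)‖ ≤ 2187 * H *
      ∑ j ∈ Finset.range J, (W (j + 1) - W j) * (gl S (2 ^ j) U * eg S (2 ^ j) U) := by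
  have e : wt W J = fun k => ∑ j ∈ Finset.range (J + 1), cf W j * wf j k := by
    funext k
    rw [Finset.sum_range_succ']
    unfold wt
    simp only [cf, wf, mul_one]
    rw [add_comm]
  rw [e, T3s_lin (S := S) _ _ _ hS, Finset.sum_range_succ']
  simp only [cf, wf]
  rw [T3s_const hη hS hdiv, mul_zero, add_zero]
  refine (norm_sum_le _ _).trans ?_
  rw [Finset.mul_sum]
  refine Finset.sum_le_sum fun j _ => ?_
  have h2 := sub_nonneg.2 (hW (Nat.le_succ j))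
  rw [norm_mul, Complex.norm_real, Real.norm_eq_abs, abs_of_nonneg h2]
  have h3 := flux hη hH hS hdiv (L := 2 ^ j) (by positivity)
  calc (W (j + 1) - W j) * ‖T3s (fw η (fun k => ps (2 ^ j) (kn k)) U)‖
      ≤ (W (j + 1) - W j) * (2187 * H * (gl S (2 ^ j) U * eg S (2 ^ j) U)) := by
        simp only [Nat.succ_eq_add_one] at h2
        gcongr
    _ = _ := by ring

/-- The production is absorbed by the dissipation. -/
lemma absorb {U : K3 → C3} (h0 : (0 : K3) ∉ S) (hW : Monotone W) (hW0 : 0 ≤ W 0)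
    (hJ : ∀ k ∈ S, kn k ≤ 2 ^ J) {m Γ : ℕ → ℝ} (hm0 : ∀ j, 0 ≤ m j)
    (hm : ∀ j, ∀ k ∈ S, 2 ^ j ≤ kn k → m j ≤ D k) (hΓ0 : ∀ j, 0 ≤ Γ j) {K : ℝ}
    (hΓ : ∀ j, K * gl S (2 ^ j) U ≤ Γ j)
    (hWm : ∀ i, ∑ j ∈ Finset.range (i + 2), (W (j + 1) - W j) * Γ j ≤ W i * m i) :
    K * ∑ j ∈ Finset.range J, (W (j + 1) - W j) * (gl S (2 ^ j) U * eg S (2 ^ j) U)
      ≤ nw S (fun k => wt W J k * D k) U := by
  have hd : ∀ j, 0 ≤ W (j + 1) - W j := fun j => sub_nonneg.2 (hW (Nat.le_succ j))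
  have h1 : K * ∑ j ∈ Finset.range J, (W (j + 1) - W j) * (gl S (2 ^ j) U * eg S (2 ^ j) U)
      ≤ ∑ j ∈ Finset.range J, (W (j + 1) - W j) * (Γ j * eg S (2 ^ j) U) := by
    rw [Finset.mul_sum]
    refine Finset.sum_le_sum fun j _ => ?_
    have h2 := hΓ j
    have h3 := eg_nonneg S (2 ^ j) U
    calc K * ((W (j + 1) - W j) * (gl S (2 ^ j) U * eg S (2 ^ j) U))
        = (W (j + 1) - W j) * ((K * gl S (2 ^ j) U) * eg S (2 ^ j) U) := by ring
      _ ≤ _ := by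
        have := hd j
        gcongr
  refine h1.trans ?_
  have h4 : ∑ j ∈ Finset.range J, (W (j + 1) - W j) * (Γ j * eg S (2 ^ j) U)
      = ∑ k ∈ S, (∑ j ∈ Finset.range J, if (2 : ℝ) ^ j / 2 ≤ kn k then (W (j + 1) - W j) * Γ j else 0)
        * ∑ i, ‖U k i‖ ^ 2 := by
    have e : ∀ j, (W (j + 1) - W j) * (Γ j * eg S (2 ^ j) U)
        = ∑ k ∈ S, (if (2 : ℝ) ^ j / 2 ≤ kn k then (W (j + 1) - W j) * Γ j else 0)
          * ∑ i, ‖U k i‖ ^ 2 := by
      intro j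
      unfold eg
      rw [← mul_assoc, Finset.mul_sum]
      refine Finset.sum_congr rfl fun k _ => ?_
      split_ifs
      · rfl
      · simp
    simp_rw [e]
    rw [Finset.sum_comm]
    exact Finset.sum_congr rfl fun k _ => (Finset.sum_mul _ _ _).symm
  rw [h4]
  unfold nw
  refine Finset.sum_le_sum fun k hk => ?_
  have hk0 : k ≠ 0 := fun e => h0 (e ▸ hk)
  obtain ⟨i, hi1, hi2⟩ := exists_dyadic hk0
  have hiJ : i ≤ J := by
    by_contra hc
    have h5 : (2 : ℝ) ^ J < 2 ^ i := pow_lt_pow_right₀ (by norm_num) (by omega)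
    linarith [hJ k hk]
  have h5 : (∑ j ∈ Finset.range J, if (2 : ℝ) ^ j / 2 ≤ kn k then (W (j + 1) - W j) * Γ j else 0)
      ≤ ∑ j ∈ Finset.range (i + 2), (W (j + 1) - W j) * Γ j := by
    rw [← Finset.sum_filter]
    refine Finset.sum_le_sum_of_subset_of_nonneg (fun j hj => ?_) fun j _ _ =>
      mul_nonneg (hd j) (hΓ0 j)
    rw [Finset.mem_filter] at hj
    rw [Finset.mem_range]
    by_contra hc
    have h6 : (2 : ℝ) ^ (i + 2) ≤ 2 ^ j := pow_le_pow_right₀ (by norm_num) (by omega)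
    have h7 : (2 : ℝ) ^ (i + 2) = 2 * 2 ^ (i + 1) := by ring
    linarith [hj.2]
  have h6 : W i * m i ≤ wt W J k * D k := by
    have a1 := wt_ge hW hi1 hiJ
    have a2 := hm i k hk hi1
    have a3 := hm0 i
    have a4 : 0 ≤ W i := hW0.trans (hW (Nat.zero_le i))
    have a5 : 0 ≤ wt W J k := a4.trans a1
    calc W i * m i ≤ wt W J k * m i := by gcongr
      _ ≤ _ := by gcongr
  gcongr
  exact (h5.trans (hWm i)).trans h6

lemma nw_nonneg {w : K3 → ℝ} (hw : ∀ k ∈ S, 0 ≤ w k) (U : K3 → C3) : 0 ≤ nw S w U :=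
  Finset.sum_nonneg fun k hk => mul_nonneg (hw k hk) (by positivity)

/-- The derivative of the weighted norm is nonpositive. -/
lemma GalD.dval_nonpos (hη : IsWeight η) {H : ℝ} (hH : ∀ a b c, |η a b c| ≤ H) {T : ℝ}
    {a : ℝ → K3 → C3} (h : GalD η D T S a) (h0 : (0 : K3) ∉ S) (hW : Monotone W) (hW0 : 0 ≤ W 0)
    (hJ : ∀ k ∈ S, kn k ≤ 2 ^ J) {m Γ : ℕ → ℝ} (hm0 : ∀ j, 0 ≤ m j) (hD0 : ∀ k, 0 ≤ D k)
    (hm : ∀ j, ∀ k ∈ S, 2 ^ j ≤ kn k → m j ≤ D k) (hΓ0 : ∀ j, 0 ≤ Γ j)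
    (hWm : ∀ i, ∑ j ∈ Finset.range (i + 2), (W (j + 1) - W j) * Γ j ≤ W i * m i) {t : ℝ}
    (hΓ : ∀ j, 4 * Real.pi * (2187 * H) * gl S (2 ^ j) (a t) ≤ Γ j) :
    -(2 * nw S (fun k => wt W J k * D k) (a t)) - 4 * Real.pi * (T3s (fw η (wt W J) (a t))).re
      ≤ 0 := by
  have hH0 : 0 ≤ H := (abs_nonneg _).trans (hH (0, true) (0, true) (0, true))
  have h1 := prod_wt hη hH (h.supp t) (h.div t) hW J
  have h2 := absorb (D := D) (U := a t) h0 hW hW0 hJ hm0 hm hΓ0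
    (K := 4 * Real.pi * (2187 * H)) hΓ hWm
  have h3 : 0 ≤ nw S (fun k => wt W J k * D k) (a t) :=
    nw_nonneg (fun k _ => mul_nonneg (hW0.trans (wt_ge_zero hW k)) (hD0 k)) _
  have h4 : -(T3s (fw η (wt W J) (a t))).re ≤ ‖T3s (fw η (wt W J) (a t))‖ :=
    (neg_le_abs _).trans (Complex.abs_re_le_norm _)
  have h5 : -(4 * Real.pi * (T3s (fw η (wt W J) (a t))).re)
      ≤ 4 * Real.pi * (2187 * H) *
        ∑ j ∈ Finset.range J, (W (j + 1) - W j) * (gl S (2 ^ j) (a t) * eg S (2 ^ j) (a t)) := by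
    have hpi := Real.pi_pos
    calc -(4 * Real.pi * (T3s (fw η (wt W J) (a t))).re)
        = 4 * Real.pi * (-(T3s (fw η (wt W J) (a t))).re) := by ring
      _ ≤ 4 * Real.pi * (2187 * H * ∑ j ∈ Finset.range J, (W (j + 1) - W j)
          * (gl S (2 ^ j) (a t) * eg S (2 ^ j) (a t))) := by
          gcongr
          exact h4.trans h1
      _ = _ := by ring
  linarith

end Pool.Agent.H226.SW
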